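import Mathlib

/-! Project RK (MP_aa96c4_al), (D) POWER STRUCTURE. `G` a finite `p`-group, `P` normal in `G`, `j >= 2`,
such that `[R, P] <= < r ^ (p ^ j) : r in R >` for all subgroups `R <= P` normal in `G`. -/

namespace RKP

open scoped commutatorElement

variable {G : Type*} [Group G]

/-- the subgroup generated by the `m`-th powers of `R`. -/
def pw (m : ℕ) (R : Subgroup G) : Subgroup G := Subgroup.closure {v | ∃ r ∈ R, v = r ^ m}

lemma mem_pw {m : ℕ} {R : Subgroup G} {r : G} (h : r ∈ R) : r ^ m ∈ pw m R :=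
  Subgroup.subset_closure ⟨r, h, rfl⟩

lemma pw_le {m : ℕ} {R A : Subgroup G} : pw m R ≤ A ↔ ∀ r ∈ R, r ^ m ∈ A := by
  rw [pw, Subgroup.closure_le]
  constructor
  · intro h r hr; exact h ⟨r, hr, rfl⟩
  · rintro h _ ⟨r, hr, rfl⟩; exact h r hr

lemma pw_self (m : ℕ) (R : Subgroup G) : pw m R ≤ R := pw_le.2 fun _ hr => R.pow_mem hr m

lemma pw_mono {m : ℕ} {R R' : Subgroup G} (h : R ≤ R') : pw m R ≤ pw m R' :=
  pw_le.2 fun _ hr => mem_pw (h hr)

lemma pw_mul (m n : ℕ) (R : Subgroup G) : pw (m * n) R ≤ pw n (pw m R) :=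
  pw_le.2 fun r hr => by rw [pow_mul]; exact mem_pw (mem_pw hr)

lemma pw_dvd {m n : ℕ} (h : m ∣ n) (R : Subgroup G) : pw n R ≤ pw m R := by
  obtain ⟨c, rfl⟩ := h
  exact (pw_mul m c R).trans (pw_self _ _)

lemma pw_normal {m : ℕ} {R : Subgroup G} (hR : R.Normal) : (pw m R).Normal := by
  constructor
  intro x hx g
  refine Subgroup.closure_induction (p := fun x _ => g * x * g⁻¹ ∈ pw m R) ?_ ?_ ?_ ?_ hx
  · rintro _ ⟨r, hr, rfl⟩
    rw [← conj_pow]
    exact mem_pw (hR.conj_mem _ hr g)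
  · simp
  · intro a b _ _ ha hb
    have : g * (a * b) * g⁻¹ = (g * a * g⁻¹) * (g * b * g⁻¹) := by simp [mul_assoc]
    rw [this]; exact (pw m R).mul_mem ha hb
  · intro a _ ha
    have : g * a⁻¹ * g⁻¹ = (g * a * g⁻¹)⁻¹ := by simp [mul_assoc]
    rw [this]; exact (pw m R).inv_mem ha

lemma closure_normal {S : Set G} (hS : ∀ s ∈ S, ∀ g : G, g * s * g⁻¹ ∈ S) :
    (Subgroup.closure S).Normal := by
  constructor
  intro x hx g
  refine Subgroup.closure_induction (p := fun x _ => g * x * g⁻¹ ∈ Subgroup.closure S) ?_ ?_ ?_ ?_ hx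
  · intro s hs
    exact Subgroup.subset_closure (hS s hs g)
  · simp
  · intro a b _ _ ha hb
    have : g * (a * b) * g⁻¹ = (g * a * g⁻¹) * (g * b * g⁻¹) := by simp [mul_assoc]
    rw [this]; exact (Subgroup.closure S).mul_mem ha hb
  · intro a _ ha
    have : g * a⁻¹ * g⁻¹ = (g * a * g⁻¹)⁻¹ := by simp [mul_assoc]
    rw [this]; exact (Subgroup.closure S).inv_mem ha

/-- a nontrivial finite `p`-group has a proper subgroup which contains all `p`-th powers. -/
lemma exists_proper {Q : Type*} [Group Q] [Finite Q] {p : ℕ} [hp : Fact p.Prime] (hQ : IsPGroup p Q)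
    (hne : Nontrivial Q) : ∃ K : Subgroup Q, K ≠ ⊤ ∧ ∀ q : Q, q ^ p ∈ K := by
  obtain ⟨n, hn⟩ := hQ.exists_card_eq
  have hn0 : n ≠ 0 := by
    rintro rfl
    rw [pow_zero] at hn
    exact (Finite.one_lt_card (α := Q)).ne' hn
  obtain ⟨m, rfl⟩ := Nat.exists_eq_succ_of_ne_zero hn0
  obtain ⟨K, hK⟩ := Sylow.exists_subgroup_card_pow_prime p (G := Q) (n := m)
    (by rw [hn]; exact pow_dvd_pow p (Nat.le_succ m))
  have hidx : K.index = p := by
    have h := K.index_mul_card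
    rw [hK, hn, Nat.succ_eq_add_one, pow_succ, mul_comm (p ^ m) p] at h
    exact Nat.eq_of_mul_eq_mul_right (pow_pos hp.out.pos m) h
  have hmin : (Nat.card Q).minFac = p := by
    rw [hn]; exact hp.out.pow_minFac (Nat.succ_ne_zero m)
  have hKn : K.Normal := Subgroup.normal_of_index_eq_minFac_card (by rw [hidx, hmin])
  refine ⟨K, ?_, ?_⟩
  · intro h
    rw [h, Subgroup.index_top] at hidx
    exact hp.out.one_lt.ne hidx
  · intro q
    have h := Subgroup.pow_index_mem K q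
    rwa [hidx] at h

/-- Frattini argument: `T <= M`, `T` normal, `M <= T ⊔ pw p M` implies `M <= T`. -/
lemma frattini [Finite G] {p : ℕ} [hp : Fact p.Prime] (hG : IsPGroup p G) {T M : Subgroup G}
    (hT : T.Normal) (hTM : T ≤ M) (h : M ≤ T ⊔ pw p M) : M ≤ T := by
  by_contra hcon
  have hM : IsPGroup p (M ⧸ T.subgroupOf M) := (hG.to_subgroup M).to_quotient _
  have hnt : Nontrivial (M ⧸ T.subgroupOf M) := by
    rw [QuotientGroup.nontrivial_iff]
    intro h1
    exact hcon (Subgroup.subgroupOf_eq_top.1 h1)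
  obtain ⟨K, hK, hKp⟩ := exists_proper hM hnt
  -- the preimage of `K` in `G`
  let L : Subgroup G := (K.comap (QuotientGroup.mk' (T.subgroupOf M))).map M.subtype
  have hL : M ≤ L := by
    refine h.trans (sup_le ?_ ?_)
    · intro t ht
      refine ⟨⟨t, hTM ht⟩, ?_, rfl⟩
      change QuotientGroup.mk' (T.subgroupOf M) ⟨t, hTM ht⟩ ∈ K
      have : QuotientGroup.mk' (T.subgroupOf M) ⟨t, hTM ht⟩ = 1 :=
        (QuotientGroup.eq_one_iff _).2 (Subgroup.mem_subgroupOf.2 ht)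
      rw [this]; exact K.one_mem
    · rw [pw_le]
      intro r hr
      refine ⟨⟨r, hr⟩ ^ p, ?_, rfl⟩
      change QuotientGroup.mk' (T.subgroupOf M) (⟨r, hr⟩ ^ p) ∈ K
      rw [map_pow]; exact hKp _
  apply hK
  rw [eq_top_iff]
  intro q _
  obtain ⟨x, rfl⟩ := QuotientGroup.mk_surjective q
  obtain ⟨y, hy, hyx⟩ := hL x.2
  have : y = x := Subtype.ext hyx
  rw [← this]
  exact hy

/-- the hypothesis (*): `[R, P] <= < r ^ (p ^ j) >` for all normal `R <= P`. -/
structure Star (p : ℕ) (P : Subgroup G) (j : ℕ) : Prop where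
  normal : P.Normal
  two : 2 ≤ j
  star : ∀ R : Subgroup G, R.Normal → R ≤ P → ⁅R, P⁆ ≤ pw (p ^ j) R

namespace Star

variable [Finite G] {p : ℕ} [hp : Fact p.Prime] {P : Subgroup G} {j : ℕ}

omit [Finite G] hp in
lemma star2 (S : Star p P j) {R : Subgroup G} (hR : R.Normal) (hRP : R ≤ P) :
    ⁅R, P⁆ ≤ pw p (pw p R) := by
  refine (S.star R hR hRP).trans ?_
  have : p * p ∣ p ^ j := by
    rw [← pow_two]; exact pow_dvd_pow p S.two
  exact (pw_dvd this R).trans (pw_mul p p R)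

/-- D1 for `e = 1`. -/
lemma gen_one (S : Star p P j) (hG : IsPGroup p G) {X : Set G} (hX : ∀ s ∈ X, ∀ g : G, g * s * g⁻¹ ∈ X)
    (hXP : ∀ s ∈ X, s ∈ P) :
    pw p (Subgroup.closure X) ≤ Subgroup.closure {v | ∃ s ∈ X, v = s ^ p} := by
  set R := Subgroup.closure X with hRdef
  set T := Subgroup.closure {v | ∃ s ∈ X, v = s ^ p} with hTdef
  have hRn : R.Normal := closure_normal hX
  have hRP : R ≤ P := by
    rw [hRdef, Subgroup.closure_le]; exact hXP
  have hTn : T.Normal := by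
    apply closure_normal
    rintro _ ⟨s, hs, rfl⟩ g
    exact ⟨g * s * g⁻¹, hX s hs g, by rw [conj_pow]⟩
  have hTM : T ≤ pw p R := by
    rw [hTdef, Subgroup.closure_le]
    rintro _ ⟨s, hs, rfl⟩
    exact mem_pw (Subgroup.subset_closure hs)
  apply frattini hG hTn hTM
  -- `A = T ⊔ pw p (pw p R)` contains `[R,R]`, and `R / A` is abelian, generated by elements of order `p`
  set A := T ⊔ pw p (pw p R) with hA
  have hAn : A.Normal := by
    have h1 : (pw p (pw p R)).Normal := pw_normal (pw_normal hRn)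
    exact Subgroup.sup_normal _ _
  have hcomm : ⁅R, R⁆ ≤ A :=
    ((Subgroup.commutator_mono le_rfl hRP).trans (S.star2 hRn hRP)).trans le_sup_right
  rw [pw_le]
  -- in the quotient by `A`
  let π := QuotientGroup.mk' A
  have hker : ∀ g : G, π g = 1 ↔ g ∈ A := fun g => QuotientGroup.eq_one_iff g
  have hcm : ∀ a ∈ R, ∀ b ∈ R, π a * π b = π b * π a := by
    intro a ha b hb
    rw [← commutatorElement_eq_one_iff_mul_comm, ← map_commutatorElement, hker]
    exact hcomm (Subgroup.commutator_mem_commutator ha hb)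
  have key : ∀ r ∈ R, π r ^ p = 1 := by
    intro r hr
    refine Subgroup.closure_induction (p := fun r _ => π r ^ p = 1) ?_ ?_ ?_ ?_ hr
    · intro s hs
      rw [← map_pow, hker]
      exact (le_sup_left : T ≤ A) (Subgroup.subset_closure ⟨s, hs, rfl⟩)
    · rw [map_one, one_pow]
    · intro a b ha hb iha ihb
      rw [map_mul]
      have hcomm' : Commute (π a) (π b) := hcm a ha b hb
      rw [hcomm'.mul_pow, iha, ihb, one_mul]
    · intro a _ iha
      rw [map_inv, inv_pow, iha, inv_one]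
  intro r hr
  rw [← hker, map_pow]
  exact key r hr

/-- **D1**: `R = < X >`, `X` invariant, then `R ^ (p ^ e) = < s ^ (p ^ e) : s in X >`. -/
theorem gen (S : Star p P j) (hG : IsPGroup p G) (e : ℕ) {X : Set G}
    (hX : ∀ s ∈ X, ∀ g : G, g * s * g⁻¹ ∈ X) (hXP : ∀ s ∈ X, s ∈ P) :
    pw (p ^ e) (Subgroup.closure X) ≤ Subgroup.closure {v | ∃ s ∈ X, v = s ^ (p ^ e)} := by
  induction e with
  | zero =>
    rw [pw_le]
    intro r hr
    rw [pow_zero, pow_one]
    have : X ⊆ {v | ∃ s ∈ X, v = s ^ 1} := fun s hs => ⟨s, hs, by rw [pow_one]⟩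
    exact Subgroup.closure_mono this hr
  | succ e ih =>
    have h1 := S.gen_one hG (X := {v | ∃ s ∈ X, v = s ^ (p ^ e)})
      (by
        rintro _ ⟨s, hs, rfl⟩ g
        exact ⟨g * s * g⁻¹, hX s hs g, by rw [conj_pow]⟩)
      (by
        rintro _ ⟨s, hs, rfl⟩
        exact P.pow_mem (hXP s hs) _)
    rw [pow_succ]
    refine (pw_mul _ _ _).trans ((pw_mono ih).trans (h1.trans ?_))
    rw [Subgroup.closure_le]
    rintro _ ⟨_, ⟨s, hs, rfl⟩, rfl⟩
    exact Subgroup.subset_closure ⟨s, hs, by rw [← pow_mul]⟩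

/-- the elements of a normal set of elements of `P` of exponent `p ^ i` generate a group of exponent
`p ^ i`. -/
lemma exp_of (S : Star p P j) (hG : IsPGroup p G) (i : ℕ) {X : Set G}
    (hX : ∀ s ∈ X, ∀ g : G, g * s * g⁻¹ ∈ X) (hXP : ∀ s ∈ X, s ∈ P) (hi : ∀ s ∈ X, s ^ (p ^ i) = 1) :
    ∀ r ∈ Subgroup.closure X, r ^ (p ^ i) = 1 := by
  intro r hr
  have h := S.gen hG i hX hXP (mem_pw hr)
  have h2 : Subgroup.closure {v | ∃ s ∈ X, v = s ^ (p ^ i)} ≤ ⊥ := by
    rw [Subgroup.closure_le]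
    rintro _ ⟨s, hs, rfl⟩
    rw [hi s hs]; rfl
  exact Subgroup.mem_bot.1 (h2 h)

/-- **D2**: `Omega_i(P)`. -/
def Om (S : Star p P j) (hG : IsPGroup p G) (i : ℕ) : Subgroup G where
  carrier := {u | u ∈ P ∧ u ^ (p ^ i) = 1}
  one_mem' := ⟨P.one_mem, one_pow _⟩
  mul_mem' := by
    rintro u v ⟨hu, hu'⟩ ⟨hv, hv'⟩
    refine ⟨P.mul_mem hu hv, ?_⟩
    refine S.exp_of hG i (X := {x | x ∈ P ∧ x ^ (p ^ i) = 1}) ?_ (fun s hs => hs.1)
      (fun s hs => hs.2) _ (Subgroup.mul_mem _ (Subgroup.subset_closure ⟨hu, hu'⟩)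
        (Subgroup.subset_closure ⟨hv, hv'⟩))
    rintro s ⟨hs, hs'⟩ g
    refine ⟨S.normal.conj_mem _ hs g, ?_⟩
    rw [conj_pow, hs']; simp
  inv_mem' := by
    rintro u ⟨hu, hu'⟩
    exact ⟨P.inv_mem hu, by rw [inv_pow, hu', inv_one]⟩

lemma mem_Om (S : Star p P j) (hG : IsPGroup p G) {i : ℕ} {u : G} :
    u ∈ S.Om hG i ↔ u ∈ P ∧ u ^ (p ^ i) = 1 := Iff.rfl

lemma Om_normal (S : Star p P j) (hG : IsPGroup p G) (i : ℕ) : (S.Om hG i).Normal := by
  constructor
  rintro u ⟨hu, hu'⟩ g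
  exact ⟨S.normal.conj_mem _ hu g, by rw [conj_pow, hu']; simp⟩

/-- **D4**: `[Omega_i, P] <= Omega_(i-j)`. -/
theorem Om_comm (S : Star p P j) (hG : IsPGroup p G) (i : ℕ) :
    ⁅S.Om hG i, P⁆ ≤ S.Om hG (i - j) := by
  refine (S.star _ (S.Om_normal hG i) (fun u hu => hu.1)).trans ?_
  rw [pw_le]
  rintro u ⟨hu, hu'⟩
  refine ⟨P.pow_mem hu _, ?_⟩
  rw [← pow_mul, ← pow_add]
  obtain ⟨c, hc⟩ : ∃ c, j + (i - j) = i + c := ⟨j + (i - j) - i, by omega⟩
  rw [hc, pow_add, pow_mul, hu', one_pow]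

omit [Finite G] hp in
/-- (*) passes to quotients. -/
lemma quot (S : Star p P j) (N : Subgroup G) [hN : N.Normal] :
    Star p (P.map (QuotientGroup.mk' N)) j where
  normal := S.normal.map _ (QuotientGroup.mk'_surjective N)
  two := S.two
  star := by
    intro R hR hRP
    let π := QuotientGroup.mk' N
    have hsurj : Function.Surjective π := QuotientGroup.mk'_surjective N
    -- the preimage of `R` intersected with `P`
    set R' := R.comap π ⊓ P with hR'
    have hR'n : R'.Normal := by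
      have h1 : (R.comap π).Normal := hR.comap π
      have h2 := S.normal
      exact Subgroup.normal_inf_normal _ _
    have hmap : R'.map π = R := by
      apply le_antisymm
      · rintro _ ⟨x, hx, rfl⟩; exact hx.1
      · intro r hr
        obtain ⟨x, hx, rfl⟩ := hRP hr
        exact ⟨x, ⟨hr, hx⟩, rfl⟩
    have h3 := S.star R' hR'n inf_le_right
    rw [← hmap, ← Subgroup.map_commutator]
    refine (Subgroup.map_mono h3).trans ?_
    rw [Subgroup.map_le_iff_le_comap, pw_le]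
    intro r hr
    rw [Subgroup.mem_comap, map_pow]
    exact mem_pw ⟨r, hr, rfl⟩

/-- **D3** for `e = 1`. -/
lemma root_one (S : Star p P j) (hG : IsPGroup p G) {u v : G} (hu : u ∈ P) (hv : v ∈ P)
    (h : u ^ p = v ^ p) : (u * v⁻¹) ^ p = 1 := by
  set w := u * v⁻¹ with hw
  have hwP : w ∈ P := P.mul_mem hu (P.inv_mem hv)
  set X : Set G := {x | ∃ g : G, x = g * w * g⁻¹} with hX
  have hXinv : ∀ s ∈ X, ∀ g : G, g * s * g⁻¹ ∈ X := by
    rintro _ ⟨a, rfl⟩ g
    exact ⟨g * a, by simp [mul_assoc]⟩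
  have hXP : ∀ s ∈ X, s ∈ P := by
    rintro _ ⟨a, rfl⟩
    exact S.normal.conj_mem _ hwP a
  set R := Subgroup.closure X with hR
  have hRn : R.Normal := closure_normal hXinv
  have hRP : R ≤ P := by rw [hR, Subgroup.closure_le]; exact hXP
  have hwR : w ∈ R := Subgroup.subset_closure ⟨1, by simp⟩
  set A := pw p (pw p R) with hA
  have hAn : A.Normal := pw_normal (pw_normal hRn)
  have hRA : ⁅R, P⁆ ≤ A := S.star2 hRn hRP
  let π := QuotientGroup.mk' A
  have hker : ∀ g : G, π g = 1 ↔ g ∈ A := fun g => QuotientGroup.eq_one_iff g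
  -- `π w` commutes with `π v`
  have hcm : Commute (π w) (π v) := by
    change π w * π v = π v * π w
    rw [← commutatorElement_eq_one_iff_mul_comm, ← map_commutatorElement, hker]
    exact hRA (Subgroup.commutator_mem_commutator hwR hv)
  have huwv : u = w * v := by rw [hw]; simp
  have hwp : w ^ p ∈ A := by
    rw [← hker, map_pow]
    have h1 : π u ^ p = π v ^ p := by rw [← map_pow, ← map_pow, h]
    rw [huwv, map_mul, hcm.mul_pow] at h1
    exact mul_eq_right.1 h1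
  -- `R ^ p <= (R ^ p) ^ p`
  have h2 : pw p R ≤ A := by
    have h3 := S.gen_one hG hXinv hXP
    refine h3.trans ?_
    rw [Subgroup.closure_le]
    rintro _ ⟨_, ⟨g, rfl⟩, rfl⟩
    rw [conj_pow]
    exact hAn.conj_mem _ hwp g
  have h4 := frattini hG (T := ⊥) (M := pw p R) inferInstance bot_le (by rw [bot_sup_eq]; exact h2)
  exact Subgroup.mem_bot.1 (h4 (mem_pw hwR))

end Star

/-- **D3**: uniqueness of roots up to torsion. -/
theorem Star.root (e : ℕ) : ∀ {G : Type*} [Group G] [Finite G] {p : ℕ} [Fact p.Prime]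
    {P : Subgroup G} {j : ℕ} (_ : Star p P j) (_ : IsPGroup p G) {u v : G} (_ : u ∈ P) (_ : v ∈ P)
    (_ : u ^ (p ^ e) = v ^ (p ^ e)), (u * v⁻¹) ^ (p ^ e) = 1 := by
  induction e with
  | zero =>
    intro G _ _ p _ P j S hG u v hu hv h
    rw [pow_zero, pow_one, pow_one] at h
    rw [h]; simp
  | succ e ih =>
    intro G _ _ p _ P j S hG u v hu hv h
    have h1 : (u ^ (p ^ e) * (v ^ (p ^ e))⁻¹) ^ p = 1 := by
      apply S.root_one hG (P.pow_mem hu _) (P.pow_mem hv _)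
      rw [← pow_mul, ← pow_mul, ← pow_succ]; exact h
    have hN := S.Om_normal hG 1
    let π := QuotientGroup.mk' (S.Om hG 1)
    have hker : ∀ g : G, π g = 1 ↔ g ∈ S.Om hG 1 := fun g => QuotientGroup.eq_one_iff g
    have h2 : u ^ (p ^ e) * (v ^ (p ^ e))⁻¹ ∈ S.Om hG 1 :=
      ⟨P.mul_mem (P.pow_mem hu _) (P.inv_mem (P.pow_mem hv _)), by rw [pow_one]; exact h1⟩
    have h3 : π u ^ (p ^ e) = π v ^ (p ^ e) := by
      rw [← map_pow, ← map_pow, ← mul_inv_eq_one, ← map_inv, ← map_mul, hker]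
      exact h2
    have h4 := ih (S.quot (S.Om hG 1)) (hG.to_quotient _) (u := π u) (v := π v) ⟨u, hu, rfl⟩
      ⟨v, hv, rfl⟩ h3
    rw [← map_inv, ← map_mul, ← map_pow, hker] at h4
    have h5 := h4.2
    rw [pow_one, ← pow_mul, ← pow_succ] at h5
    exact h5

end RKP
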