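import Mathlib

/-! Project RK (MP_aa96c4_al), Lemma C2 of helper43: a finite `p`-group `E` of class at most 2 acting on a
finite abelian `p`-group `V` has a normal subgroup `H` of index at most `|V|` such that
`(x-1)(y-1)(z-1) V = 0` for all `x, y, z` in `H`. -/

namespace RKC2

variable {E V : Type*} [Group E] [AddCommGroup V] [DistribMulAction E V]

/-- `(x - 1) v`. -/
def dl (x : E) (v : V) : V := x • v - v

/-- the commutator `x y x⁻¹ y⁻¹`. -/
def cm (x y : E) : E := x * y * x⁻¹ * y⁻¹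

omit [Group E] [DistribMulAction E V] in
lemma sub_helper (a b c d : V) : a - b - (c - d) - (a - c - (b - d)) = 0 := by abel

lemma dl_add (x : E) (u v : V) : dl x (u + v) = dl x u + dl x v := by
  simp only [dl, smul_add]; abel

lemma dl_neg (x : E) (u : V) : dl x (-u) = -dl x u := by
  simp only [dl, smul_neg]; abel

lemma dl_zero (x : E) : dl x (0 : V) = 0 := by simp [dl]

lemma dl_one (v : V) : dl (1 : E) v = 0 := by simp [dl]

lemma dl_mul (x y : E) (v : V) : dl (x * y) v = x • dl y v + dl x v := by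
  simp only [dl, mul_smul, smul_sub]; abel

lemma dl_inv (x : E) (v : V) : dl x⁻¹ v = -(x⁻¹ • dl x v) := by
  simp only [dl, smul_sub, inv_smul_smul]; abel

/-- `(x-1) g v = g (x^g - 1) v`. -/
lemma dl_smul (x g : E) (v : V) : dl x (g • v) = g • dl (g⁻¹ * x * g) v := by
  simp only [dl, smul_sub, mul_smul, smul_inv_smul]

/-- `xy - yx = (x-1)(y-1) - (y-1)(x-1)`. -/
lemma dl_comm_eq (x y : E) (v : V) :
    dl x (dl y v) - dl y (dl x v) = (x * y) • v - (y * x) • v := by
  simp only [dl, mul_smul, smul_sub]; abel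

lemma dl_commutator (x y : E) (hc : ∀ g : E, g * cm x y = cm x y * g) (v : V) :
    (y * x) • dl (cm x y) v = dl x (dl y v) - dl y (dl x v) := by
  rw [dl_comm_eq]
  have h : (y * x) * cm x y = x * y := by
    rw [hc]; simp [cm, mul_assoc]
  simp only [dl, smul_sub]
  rw [← mul_smul, h]

/-- the state of the elimination. -/
structure St (E V : Type*) [Group E] [AddCommGroup V] [DistribMulAction E V] where
  U : AddSubgroup V
  W : AddSubgroup V
  w : AddSubgroup V
  H : Subgroup E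
  K : Subgroup E
  sU : ∀ (g : E), ∀ v ∈ U, g • v ∈ U
  sW : ∀ (g : E), ∀ v ∈ W, g • v ∈ W
  sw : ∀ (g : E), ∀ v ∈ w, g • v ∈ w
  nH : ∀ (g : E), ∀ x ∈ H, g⁻¹ * x * g ∈ H
  cK : ∀ z ∈ K, ∀ g : E, g * z = z * g
  iW : ∀ x ∈ H, ∀ v ∈ U, dl x v ∈ W
  iw : ∀ z ∈ K, ∀ v ∈ U, dl z v ∈ w
  a : ∀ x ∈ H, ∀ y ∈ H, cm x y ∈ K
  b : ∀ x ∈ H, ∀ v ∈ W, dl x v ∈ w
  c : ∀ x ∈ H, ∀ v ∈ w, dl x v = 0
  d : ∀ z ∈ K, ∀ v ∈ W, dl z v = 0
  idx : H.index * W.index ≤ Nat.card V

/-- the start. -/
def start (hc : ∀ x y g : E, g * cm x y = cm x y * g) : St E V where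
  U := ⊥
  W := ⊥
  w := ⊥
  H := ⊤
  K := Subgroup.center E
  sU := by intro g v hv; rw [AddSubgroup.mem_bot] at *; simp [hv]
  sW := by intro g v hv; rw [AddSubgroup.mem_bot] at *; simp [hv]
  sw := by intro g v hv; rw [AddSubgroup.mem_bot] at *; simp [hv]
  nH := by intro g x _; trivial
  cK := by intro z hz g; exact (Subgroup.mem_center_iff.1 hz g)
  iW := by intro x _ v hv; rw [AddSubgroup.mem_bot] at *; rw [hv, dl_zero]
  iw := by intro x _ v hv; rw [AddSubgroup.mem_bot] at *; rw [hv, dl_zero]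
  a := by intro x _ y _; rw [Subgroup.mem_center_iff]; intro g; exact hc x y g
  b := by intro x _ v hv; rw [AddSubgroup.mem_bot] at *; rw [hv, dl_zero]
  c := by intro x _ v hv; rw [AddSubgroup.mem_bot] at *; rw [hv, dl_zero]
  d := by intro x _ v hv; rw [AddSubgroup.mem_bot] at *; rw [hv, dl_zero]
  idx := by rw [Subgroup.index_top, one_mul, AddSubgroup.index_bot]

/-- `(x-1)v in A` cuts out a subgroup of `H`. -/
def cut (H : Subgroup E) (A : AddSubgroup V) (sA : ∀ (g : E), ∀ v ∈ A, g • v ∈ A) (v : V) :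
    Subgroup E where
  carrier := {x | x ∈ H ∧ dl x v ∈ A}
  one_mem' := ⟨H.one_mem, by rw [dl_one]; exact A.zero_mem⟩
  mul_mem' := by
    rintro x y ⟨hx, hx'⟩ ⟨hy, hy'⟩
    exact ⟨H.mul_mem hx hy, by rw [dl_mul]; exact A.add_mem (sA _ _ hy') hx'⟩
  inv_mem' := by
    rintro x ⟨hx, hx'⟩
    exact ⟨H.inv_mem hx, by rw [dl_inv]; exact A.neg_mem (sA _ _ hx')⟩

lemma mem_cut {H : Subgroup E} {A : AddSubgroup V} {sA : ∀ (g : E), ∀ v ∈ A, g • v ∈ A} {v : V}
    {x : E} : x ∈ cut H A sA v ↔ x ∈ H ∧ dl x v ∈ A := Iff.rfl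

/-- `A + R (H-1) v`. -/
def grow (H : Subgroup E) (A : AddSubgroup V) (v : V) : AddSubgroup V :=
  AddSubgroup.closure ((A : Set V) ∪ {u | ∃ g : E, ∃ x ∈ H, u = g • dl x v})

lemma le_grow (H : Subgroup E) (A : AddSubgroup V) (v : V) : A ≤ grow H A v := by
  intro u hu
  exact AddSubgroup.subset_closure (Or.inl hu)

lemma gen_grow {H : Subgroup E} (A : AddSubgroup V) (v : V) {x : E} (hx : x ∈ H) (g : E) :
    g • dl x v ∈ grow H A v := AddSubgroup.subset_closure (Or.inr ⟨g, x, hx, rfl⟩)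

lemma gen_grow' {H : Subgroup E} (A : AddSubgroup V) (v : V) {x : E} (hx : x ∈ H) :
    dl x v ∈ grow H A v := by
  have h := gen_grow A v hx 1
  rwa [one_smul] at h

/-- induction principle for additive maps. -/
lemma grow_ind {H : Subgroup E} {A : AddSubgroup V} {v : V} (f : V → V) (B : AddSubgroup V)
    (f0 : f 0 = 0) (fadd : ∀ u u', f (u + u') = f u + f u') (fneg : ∀ u, f (-u) = -f u)
    (hA : ∀ u ∈ A, f u ∈ B) (hg : ∀ (g : E), ∀ x ∈ H, f (g • dl x v) ∈ B) :
    ∀ u ∈ grow H A v, f u ∈ B := by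
  intro u hu
  refine AddSubgroup.closure_induction (p := fun u _ => f u ∈ B) ?_ ?_ ?_ ?_ hu
  · rintro u (hu | ⟨g, x, hx, rfl⟩)
    · exact hA u hu
    · exact hg g x hx
  · rw [f0]; exact B.zero_mem
  · intro u u' _ _ h h'; rw [fadd]; exact B.add_mem h h'
  · intro u _ h; rw [fneg]; exact B.neg_mem h

lemma sgrow {H : Subgroup E} {A : AddSubgroup V} (sA : ∀ (g : E), ∀ v ∈ A, g • v ∈ A) {v : V} :
    ∀ (g : E), ∀ u ∈ grow H A v, g • u ∈ grow H A v := by
  intro g
  refine grow_ind (fun u => g • u) (grow H A v) (smul_zero g) (smul_add g) (smul_neg g) ?_ ?_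
  · intro u hu; exact le_grow H A v (sA g u hu)
  · intro h x hx; rw [← mul_smul]; exact gen_grow A v hx _

lemma idx_step (H : Subgroup E) (A : AddSubgroup V) (sA : ∀ (g : E), ∀ v ∈ A, g • v ∈ A) (v : V)
    [Finite V] :
    (cut H A sA v).relIndex H ≤ A.relIndex (grow H A v) := by
  classical
  set H' := cut H A sA v
  set W' := grow H A v
  have hfin : Finite (W' ⧸ A.addSubgroupOf W') := inferInstance
  change Nat.card (H ⧸ H'.subgroupOf H) ≤ Nat.card (W' ⧸ A.addSubgroupOf W')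
  let f : H → W' ⧸ A.addSubgroupOf W' := fun x =>
    QuotientAddGroup.mk (⟨dl (x : E) v, gen_grow' A v x.2⟩ : W')
  have key : ∀ x y : H, f x = f y ↔ (QuotientGroup.mk x : H ⧸ H'.subgroupOf H) = QuotientGroup.mk y := by
    intro x y
    rw [QuotientGroup.eq, QuotientAddGroup.eq]
    rw [AddSubgroup.mem_addSubgroupOf, Subgroup.mem_subgroupOf]
    change (-(dl (x : E) v) + dl (y : E) v ∈ A) ↔ ((x : E)⁻¹ * (y : E) ∈ H')
    have e : dl ((x : E)⁻¹ * (y : E)) v = (x : E)⁻¹ • (-(dl (x : E) v) + dl (y : E) v) := by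
      rw [dl_mul, dl_inv, smul_add, smul_neg, add_comm]
    constructor
    · intro h
      refine ⟨H.mul_mem (H.inv_mem x.2) y.2, ?_⟩
      rw [e]; exact sA _ _ h
    · rintro ⟨_, h⟩
      rw [e] at h
      have h2 := sA (x : E) _ h
      rwa [smul_inv_smul] at h2
  let F : H ⧸ H'.subgroupOf H → W' ⧸ A.addSubgroupOf W' :=
    Quotient.lift f (by
      intro x y hxy
      exact (key x y).2 (Quotient.sound hxy))
  refine Nat.card_le_card_of_injective F ?_
  intro x y
  induction x using QuotientGroup.induction_on with | _ x => ?_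
  induction y using QuotientGroup.induction_on with | _ y => ?_
  intro h
  exact (key x y).1 h

/-- one step of the elimination. -/
lemma step [Finite V] (S : St E V) (v : V) (hv : ∀ g : E, dl g v ∈ S.U) :
    ∃ S' : St E V, S.U ≤ S'.U ∧ v ∈ S'.U := by
  classical
  let H' := cut S.H S.W S.sW v
  let K' := cut S.K S.w S.sw v
  let W' := grow S.H S.W v
  let w' := grow S.K S.w v
  let U' := AddSubgroup.closure ((S.U : Set V) ∪ {v})
  have hU' : ∀ (f : V → V) (B : AddSubgroup V), f 0 = 0 → (∀ u u', f (u + u') = f u + f u') →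
      (∀ u, f (-u) = -f u) → (∀ u ∈ S.U, f u ∈ B) → f v ∈ B → ∀ u ∈ U', f u ∈ B := by
    intro f B f0 fadd fneg h1 h2 u hu
    refine AddSubgroup.closure_induction (p := fun u _ => f u ∈ B) ?_ ?_ ?_ ?_ hu
    · rintro u (hu | hu)
      · exact h1 u hu
      · rw [Set.mem_singleton_iff] at hu; rw [hu]; exact h2
    · rw [f0]; exact B.zero_mem
    · intro u u' _ _ h h'; rw [fadd]; exact B.add_mem h h'
    · intro u _ h; rw [fneg]; exact B.neg_mem h
  have leU : S.U ≤ U' := fun u hu => AddSubgroup.subset_closure (Or.inl hu)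
  have vU : v ∈ U' := AddSubgroup.subset_closure (Or.inr rfl)
  have leW : S.W ≤ W' := le_grow _ _ _
  have lew : S.w ≤ w' := le_grow _ _ _
  have sW' : ∀ (g : E), ∀ u ∈ W', g • u ∈ W' := sgrow S.sW
  have sw' : ∀ (g : E), ∀ u ∈ w', g • u ∈ w' := sgrow S.sw
  have nH' : ∀ (g : E), ∀ x ∈ H', g⁻¹ * x * g ∈ H' := by
    rintro g x ⟨hx, hx'⟩
    refine ⟨S.nH g x hx, ?_⟩
    have h1 : dl (g⁻¹ * x * g) v = g⁻¹ • dl x (g • v) := by
      rw [dl_smul, inv_smul_smul]
    have h2 : dl x (g • v) = dl x v + dl x (dl g v) := by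
      rw [← dl_add]; congr 1; simp [dl]
    rw [h1, h2]
    exact S.sW _ _ (S.W.add_mem hx' (S.iW x hx _ (hv g)))
  refine ⟨{ U := U', W := W', w := w', H := H', K := K', sU := ?_, sW := sW', sw := sw', nH := nH',
            cK := ?_, iW := ?_, iw := ?_, a := ?_, b := ?_, c := ?_, d := ?_, idx := ?_ }, leU, vU⟩
  · -- sU
    intro g
    refine hU' (fun u => g • u) U' (smul_zero g) (smul_add g) (smul_neg g)
      (fun u hu => leU (S.sU g u hu)) ?_
    have : g • v = v + dl g v := by simp [dl]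
    change g • v ∈ U'
    rw [this]; exact U'.add_mem vU (leU (hv g))
  · -- cK
    rintro z ⟨hz, _⟩ g; exact S.cK z hz g
  · -- iW
    rintro x ⟨hx, hx'⟩
    exact hU' (dl x) W' (dl_zero x) (dl_add x) (dl_neg x) (fun u hu => leW (S.iW x hx u hu)) (leW hx')
  · -- iw
    rintro z ⟨hz, hz'⟩
    exact hU' (dl z) w' (dl_zero z) (dl_add z) (dl_neg z) (fun u hu => lew (S.iw z hz u hu)) (lew hz')
  · -- a
    rintro x ⟨hx, hx'⟩ y ⟨hy, hy'⟩
    have hcK := S.a x hx y hy
    refine ⟨hcK, ?_⟩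
    have h := dl_commutator x y (S.cK _ hcK) v
    have h2 : dl (cm x y) v = (y * x)⁻¹ • (dl x (dl y v) - dl y (dl x v)) := by
      rw [← h, inv_smul_smul]
    rw [h2]
    exact S.sw _ _ (S.w.sub_mem (S.b x hx _ hy') (S.b y hy _ hx'))
  · -- b
    intro x hx
    refine grow_ind (dl x) w' (dl_zero x) (dl_add x) (dl_neg x) (fun u hu => lew (S.b x hx.1 u hu)) ?_
    intro g y hy
    rw [dl_smul]
    apply sw'
    obtain ⟨hxH, hxW⟩ := nH' g x hx
    set x' := g⁻¹ * x * g
    have hcK := S.a x' hxH y hy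
    have h := dl_commutator x' y (S.cK _ hcK) v
    have h2 : dl x' (dl y v) = (y * x') • dl (cm x' y) v + dl y (dl x' v) := by
      rw [h]; abel
    rw [h2]
    exact w'.add_mem (gen_grow S.w v hcK _) (lew (S.b y hy _ hxW))
  · -- c
    intro x hx u hu
    have : dl x u ∈ (⊥ : AddSubgroup V) := by
      refine grow_ind (dl x) ⊥ (dl_zero x) (dl_add x) (dl_neg x) ?_ ?_ u hu
      · intro u hu; rw [AddSubgroup.mem_bot]; exact S.c x hx.1 u hu
      · intro g z hz
        rw [dl_smul]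
        obtain ⟨hxH, hxW⟩ := nH' g x hx
        set x' := g⁻¹ * x * g
        have h1 : dl x' (dl z v) = dl z (dl x' v) := by
          have h := dl_comm_eq x' z v
          rw [S.cK z hz x', sub_self] at h
          exact sub_eq_zero.1 h
        rw [h1, S.d z hz _ hxW, smul_zero]; exact AddSubgroup.zero_mem _
    exact (AddSubgroup.mem_bot).1 this
  · -- d
    intro z hz u hu
    have : dl z u ∈ (⊥ : AddSubgroup V) := by
      refine grow_ind (dl z) ⊥ (dl_zero z) (dl_add z) (dl_neg z) ?_ ?_ u hu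
      · intro u hu; rw [AddSubgroup.mem_bot]; exact S.d z hz.1 u hu
      · intro g y hy
        rw [dl_smul]
        have hzg : g⁻¹ * z * g = z := by
          rw [mul_assoc, ← S.cK z hz.1 g, inv_mul_cancel_left]
        rw [hzg]
        have h1 : dl z (dl y v) = dl y (dl z v) := by
          have h := dl_comm_eq z y v
          rw [← S.cK z hz.1 y, sub_self] at h
          exact sub_eq_zero.1 h
        rw [h1, S.c y hy _ hz.2, smul_zero]; exact AddSubgroup.zero_mem _
    exact (AddSubgroup.mem_bot).1 this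
  · -- idx
    have hle : H' ≤ S.H := fun x hx => hx.1
    have h1 : H'.relIndex S.H * S.H.index = H'.index := Subgroup.relIndex_mul_index hle
    have h2 : S.W.relIndex W' * W'.index = S.W.index := AddSubgroup.relIndex_mul_index leW
    have h3 := idx_step S.H S.W S.sW v
    calc H'.index * W'.index = H'.relIndex S.H * S.H.index * W'.index := by rw [h1]
      _ ≤ S.W.relIndex W' * S.H.index * W'.index := by gcongr
      _ = S.H.index * S.W.index := by rw [← h2]; ring
      _ ≤ Nat.card V := S.idx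

/-- the endomorphism of the quotient induced by `g`. -/
def qa (U : AddSubgroup V) (hU : ∀ (g : E), ∀ v ∈ U, g • v ∈ U) (g : E) : V ⧸ U →+ V ⧸ U :=
  QuotientAddGroup.lift U ((QuotientAddGroup.mk' U).comp (DistribSMul.toAddMonoidHom V g))
    (fun v hv => by
      change QuotientAddGroup.mk' U (g • v) = 0
      exact (QuotientAddGroup.eq_zero_iff _).2 (hU g v hv))

lemma qa_mk (U : AddSubgroup V) (hU : ∀ (g : E), ∀ v ∈ U, g • v ∈ U) (g : E) (v : V) :
    qa U hU g (v : V ⧸ U) = ((g • v : V) : V ⧸ U) := rfl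

/-- the action on the quotient by a stable subgroup. -/
@[reducible] def actQ (U : AddSubgroup V) (hU : ∀ (g : E), ∀ v ∈ U, g • v ∈ U) :
    MulAction E (V ⧸ U) where
  smul g x := qa U hU g x
  one_smul := by
    intro x
    change qa U hU 1 x = x
    induction x using QuotientAddGroup.induction_on with | _ x => ?_
    rw [qa_mk, one_smul]
  mul_smul := by
    intro g h x
    change qa U hU (g * h) x = qa U hU g (qa U hU h x)
    induction x using QuotientAddGroup.induction_on with | _ x => ?_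
    rw [qa_mk, qa_mk, qa_mk, mul_smul]

/-- a `p`-group fixes a point outside of a proper stable subgroup, modulo this subgroup. -/
lemma exists_fixed {p : ℕ} [Fact p.Prime] [Finite V] (hE : IsPGroup p E) {k : ℕ}
    (hV : Nat.card V = p ^ k) (U : AddSubgroup V) (hU : ∀ (g : E), ∀ v ∈ U, g • v ∈ U)
    (hne : U ≠ ⊤) : ∃ v : V, v ∉ U ∧ ∀ g : E, dl g v ∈ U := by
  let _ := actQ U hU
  have hdvd : U.index ∣ p ^ k := by rw [← hV]; exact AddSubgroup.index_dvd_card U
  have hne1 : U.index ≠ 1 := by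
    intro h; exact hne (AddSubgroup.index_eq_one.1 h)
  have hp : p ∣ Nat.card (V ⧸ U) := by
    change p ∣ U.index
    obtain ⟨i, _, hi⟩ := (Nat.dvd_prime_pow (Fact.out : p.Prime)).1 hdvd
    rw [hi] at hne1 ⊢
    have : i ≠ 0 := by rintro rfl; exact hne1 (pow_zero p)
    exact dvd_pow_self p this
  have h0 : (0 : V ⧸ U) ∈ MulAction.fixedPoints E (V ⧸ U) := by
    intro g
    change qa U hU g 0 = 0
    exact map_zero _
  obtain ⟨b, hb, hb0⟩ := hE.exists_fixed_point_of_prime_dvd_card_of_fixed_point (V ⧸ U) hp h0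
  induction b using QuotientAddGroup.induction_on with | _ v => ?_
  refine ⟨v, ?_, ?_⟩
  · intro hv
    exact hb0 ((QuotientAddGroup.eq_zero_iff v).2 hv).symm
  · intro g
    have h1 : qa U hU g (v : V ⧸ U) = (v : V ⧸ U) := hb g
    rw [qa_mk, ← sub_eq_zero, ← QuotientAddGroup.mk_sub, QuotientAddGroup.eq_zero_iff] at h1
    exact h1

/-- **Lemma C2.** -/
theorem c2 {p : ℕ} [Fact p.Prime] [Finite V] (hE : IsPGroup p E) {k : ℕ} (hV : Nat.card V = p ^ k)
    (hc : ∀ x y g : E, g * cm x y = cm x y * g) :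
    ∃ H : Subgroup E, H.Normal ∧ H.index ≤ Nat.card V ∧
      ∀ x ∈ H, ∀ y ∈ H, ∀ z ∈ H, ∀ v : V, dl x (dl y (dl z v)) = 0 := by
  classical
  have main : ∀ m : ℕ, ∀ S : St E V, S.U.index ≤ m → ∃ S' : St E V, S'.U = ⊤ := by
    intro m
    induction m with
    | zero =>
      intro S hS
      exact absurd (Nat.le_zero.1 hS) AddSubgroup.index_ne_zero_of_finite
    | succ m ih =>
      intro S hS
      by_cases htop : S.U = ⊤
      · exact ⟨S, htop⟩
      · obtain ⟨v, hv, hfix⟩ := exists_fixed hE hV S.U S.sU htop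
        obtain ⟨S', hle, hvS⟩ := step S v hfix
        refine ih S' ?_
        have hlt : S.U < S'.U := lt_of_le_of_ne hle (fun h => hv (h ▸ hvS))
        have := AddSubgroup.index_strictAnti hlt
        omega
  obtain ⟨S, hS⟩ := main _ (start hc) le_rfl
  refine ⟨S.H, ⟨?_⟩, ?_, ?_⟩
  · intro x hx g
    have := S.nH g⁻¹ x hx
    rwa [inv_inv] at this
  · have h1 : 1 ≤ S.W.index := Nat.one_le_iff_ne_zero.2 AddSubgroup.index_ne_zero_of_finite
    calc S.H.index = S.H.index * 1 := (mul_one _).symm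
      _ ≤ S.H.index * S.W.index := Nat.mul_le_mul_left _ h1
      _ ≤ Nat.card V := S.idx
  · intro x hx y hy z hz v
    have hv : v ∈ S.U := by rw [hS]; trivial
    exact S.c x hx _ (S.b y hy _ (S.iW z hz v hv))

end RKC2
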