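import Mathlib
import Pool.Agent.Helper82.RK.C2
import Pool.Agent.Helper46.RK.Laffey

/-! Project RK (MP_aa96c4_al), RANK BOUND (section 3 of helper43's memo), module form:
`E` of class at most 2 acting on a finite abelian `p`-group `F`, such that the elements `x` of `E`
with `(x-1)^3 F <= A` lie in `M`; then `|E| <= |F / A| * |M|`.  With Laffey's theorem: every section `D / N`
of `Y`, abelian of exponent dividing `p ^ 2`, has order at most `|F / A| * |M|`, if all elements `x` of order
dividing `p ^ 3` with `(x-1)^3 F <= A` lie in `M`. -/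

namespace RKC2

variable {E F : Type*} [Group E] [AddCommGroup F] [DistribMulAction E F]

/-- the action on the quotient by a stable subgroup, as a distributive action. -/
@[reducible] def dactQ (A : AddSubgroup F) (hA : ∀ (g : E), ∀ v ∈ A, g • v ∈ A) :
    DistribMulAction E (F ⧸ A) where
  toMulAction := actQ A hA
  smul_zero g := by change qa A hA g 0 = 0; exact map_zero _
  smul_add g x y := by change qa A hA g (x + y) = qa A hA g x + qa A hA g y; exact map_add _ _ _

/-- Lemma C2 modulo a stable subgroup. -/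
theorem c2_quot {p : ℕ} [Fact p.Prime] [Finite F] (hE : IsPGroup p E) {k : ℕ}
    (hF : Nat.card F = p ^ k) (hc : ∀ x y g : E, g * cm x y = cm x y * g)
    (A : AddSubgroup F) (hA : ∀ (g : E), ∀ v ∈ A, g • v ∈ A) :
    ∃ H : Subgroup E, H.Normal ∧ H.index ≤ A.index ∧
      ∀ x ∈ H, ∀ y ∈ H, ∀ z ∈ H, ∀ v : F, dl x (dl y (dl z v)) ∈ A := by
  let _ := dactQ A hA
  have hdvd : A.index ∣ p ^ k := by rw [← hF]; exact AddSubgroup.index_dvd_card A
  obtain ⟨i, _, hi⟩ := (Nat.dvd_prime_pow (Fact.out : p.Prime)).1 hdvd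
  obtain ⟨H, hn, hi', h3⟩ := c2 (V := F ⧸ A) hE (k := i) hi hc
  refine ⟨H, hn, hi', ?_⟩
  intro x hx y hy z hz v
  have h := h3 x hx y hy z hz (v : F ⧸ A)
  have h' : ((dl x (dl y (dl z v)) : F) : F ⧸ A) = 0 := h
  exact (QuotientAddGroup.eq_zero_iff _).1 h'

/-- the centraliser of `A` in `E`. -/
def fix (E : Type*) [Group E] [DistribMulAction E F] (A : AddSubgroup F) : Subgroup E where
  carrier := {x | ∀ v ∈ A, x • v = v}
  one_mem' := fun v _ => one_smul _ v
  mul_mem' := by
    intro x y hx hy v hv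
    rw [mul_smul, hy v hv, hx v hv]
  inv_mem' := by
    intro x hx v hv
    rw [inv_smul_eq_iff, hx v hv]

lemma mem_fix {A : AddSubgroup F} {x : E} : x ∈ fix E A ↔ ∀ v ∈ A, x • v = v := Iff.rfl

/-- **Rank bound, one group.** -/
theorem card_le {p : ℕ} [Fact p.Prime] [Finite F] [Finite E] (hE : IsPGroup p E) {k : ℕ}
    (hF : Nat.card F = p ^ k) (hc : ∀ x y g : E, g * cm x y = cm x y * g)
    (A : AddSubgroup F) (hA : ∀ (g : E), ∀ v ∈ A, g • v ∈ A) (M : Subgroup E)
    (hT : ∀ x : E, (∀ v : F, dl x (dl x (dl x v)) ∈ A) → x ∈ M) :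
    Nat.card E ≤ A.index * Nat.card M := by
  obtain ⟨H, _, hi, h3⟩ := c2_quot hE hF hc A hA
  have hle : H ≤ M := by
    intro x hx
    exact hT x (fun v => h3 x hx x hx x hx v)
  have h1 : Nat.card H ≤ Nat.card M := Subgroup.card_le_of_le hle
  calc Nat.card E = H.index * Nat.card H := (Subgroup.index_mul_card H).symm
    _ ≤ A.index * Nat.card M := Nat.mul_le_mul hi h1

variable {Y : Type*} [Group Y] [DistribMulAction Y F]

/-- **Rank bound, subgroups.** `Y` acts on `F`; `E <= Y` of class at most 2. -/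
theorem card_subgroup_le [Finite Y]
    {p : ℕ} [Fact p.Prime] [Finite F] (hY : IsPGroup p Y) {k : ℕ}
    (hF : Nat.card F = p ^ k) (A : AddSubgroup F) (hA : ∀ (g : Y), ∀ v ∈ A, g • v ∈ A)
    (M : Subgroup Y)
    (E : Subgroup Y) (hc : ∀ x ∈ E, ∀ y ∈ E, ∀ g ∈ E, g * cm x y = cm x y * g)
    (hT : ∀ x ∈ E, (∀ v : F, dl x (dl x (dl x v)) ∈ A) → x ∈ M) :
    Nat.card E ≤ A.index * Nat.card M := by
  have h := card_le (E := E) (F := F) (p := p) (hY.to_subgroup E) hF
    (by
      intro x y g
      apply Subtype.ext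
      exact hc x x.2 y y.2 g g.2)
    A (fun g v hv => hA (g : Y) v hv) (M.subgroupOf E)
    (fun x hx => Subgroup.mem_subgroupOf.2 (hT x x.2 hx))
  refine h.trans (Nat.mul_le_mul_left _ ?_)
  let f : M.subgroupOf E → M := fun x => ⟨((x : E) : Y), Subgroup.mem_subgroupOf.1 x.2⟩
  refine Nat.card_le_card_of_injective f ?_
  intro x y hxy
  apply Subtype.ext
  apply Subtype.ext
  exact congrArg (fun z : M => (z : Y)) hxy

open scoped commutatorElement in
/-- **Rank bound** with Laffey's theorem: sections `D / N`, abelian of exponent dividing `p ^ 2`. -/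
theorem section_le [Finite Y] {p : ℕ} [Fact p.Prime] [Finite F] (hY : IsPGroup p Y) {k : ℕ}
    (hF : Nat.card F = p ^ k) (A : AddSubgroup F) (hA : ∀ (g : Y), ∀ v ∈ A, g • v ∈ A)
    (M : Subgroup Y)
    (hT : ∀ x : Y, x ^ (p ^ 3) = 1 → (∀ v : F, dl x (dl x (dl x v)) ∈ A) → x ∈ M)
    (D N : Subgroup Y) (h1 : ⁅D, D⁆ ≤ N) (h2 : ∀ x ∈ D, x ^ (p ^ 2) ∈ N) :
    N.relIndex D ≤ A.index * Nat.card M := by
  obtain ⟨E, _, e1, e2, e3⟩ := Pool.Agent.Helper46.RK.laffey_section hY D N h1 h2
  refine e3.trans (card_subgroup_le hY hF A hA M E ?_ (fun x hx => hT x (e1 x hx)))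
  intro x hx y hy g hg
  have h := e2 x hx y hy g hg
  rw [commutatorElement_eq_one_iff_mul_comm] at h
  exact h.symm

/-- `p ^ c F`. -/
def pw (F : Type*) [AddCommGroup F] (m : ℕ) : AddSubgroup F :=
  (nsmulAddMonoidHom (α := F) m).range

lemma mem_pw {m : ℕ} {v : F} : v ∈ pw F m ↔ ∃ w : F, m • w = v := Iff.rfl

lemma pw_stable (m : ℕ) (g : E) : ∀ v ∈ pw F m, g • v ∈ pw F m := by
  rintro _ ⟨w, rfl⟩
  refine ⟨g • w, ?_⟩
  change m • (g • w) = g • (m • w)
  exact (smul_comm g m w).symm

/-- the action of `G / K` when `K` acts trivially. -/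
@[reducible] def qact (G : Type*) [Group G] (F : Type*) [AddCommGroup F] [DistribMulAction G F]
    (K : Subgroup G) [K.Normal] (hK : ∀ x ∈ K, ∀ v : F, x • v = v) :
    DistribMulAction (G ⧸ K) F where
  smul y v := Quotient.liftOn' y (fun g : G => g • v) (by
    intro g h hgh
    have h1 : g⁻¹ * h ∈ K := QuotientGroup.leftRel_apply.1 hgh
    have h2 := hK _ h1 v
    rw [mul_smul, inv_smul_eq_iff] at h2
    exact h2.symm)
  one_smul v := by
    change (1 : G) • v = v
    exact one_smul _ _
  mul_smul y z v := by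
    induction y using QuotientGroup.induction_on with | _ y => ?_
    induction z using QuotientGroup.induction_on with | _ z => ?_
    change (y * z) • v = y • (z • v)
    exact mul_smul _ _ _
  smul_zero y := by
    induction y using QuotientGroup.induction_on with | _ y => ?_
    change y • (0 : F) = 0
    exact smul_zero _
  smul_add y u v := by
    induction y using QuotientGroup.induction_on with | _ y => ?_
    change y • (u + v) = y • u + y • v
    exact smul_add _ _ _

open scoped commutatorElement in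
/-- **Rank bound, relative form**: `K` normal in `G` acting trivially on `F`; `K <= M`, `K <= N <= D`. -/
theorem section_rel {G : Type*} [Group G] [Finite G] {F : Type*} [AddCommGroup F] [Finite F]
    [DistribMulAction G F] {p : ℕ} [Fact p.Prime] (hG : IsPGroup p G) {k : ℕ}
    (hF : Nat.card F = p ^ k) (A : AddSubgroup F) (hA : ∀ (g : G), ∀ v ∈ A, g • v ∈ A)
    (K M D N : Subgroup G) [K.Normal] (hK : ∀ x ∈ K, ∀ v : F, x • v = v)
    (hKM : K ≤ M) (hKN : K ≤ N)
    (hT : ∀ x : G, x ^ (p ^ 3) ∈ K → (∀ v : F, dl x (dl x (dl x v)) ∈ A) → x ∈ M)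
    (h1 : ⁅D, D⁆ ≤ N) (h2 : ∀ x ∈ D, x ^ (p ^ 2) ∈ N) :
    N.relIndex D ≤ A.index * K.relIndex M := by
  classical
  let _ := qact G F K hK
  let π : G →* G ⧸ K := QuotientGroup.mk' K
  have hsurj : Function.Surjective π := QuotientGroup.mk'_surjective K
  have hker : π.ker = K := QuotientGroup.ker_mk' K
  have hact : ∀ (g : G) (v : F), (π g) • v = g • v := fun g v => rfl
  have hdl : ∀ (g : G) (v : F), dl (π g) v = dl g v := fun g v => rfl
  have hQ : IsPGroup p (G ⧸ K) := hG.to_quotient K
  have key := section_le (Y := G ⧸ K) (F := F) hQ hF A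
    (by
      intro y v hv
      obtain ⟨g, rfl⟩ := hsurj y
      rw [hact]; exact hA g v hv)
    (M.map π)
    (by
      intro y hy hcub
      obtain ⟨g, rfl⟩ := hsurj y
      rw [← map_pow] at hy
      have hg : g ^ (p ^ 3) ∈ K := by rw [← hker]; exact hy
      refine ⟨g, hT g hg ?_, rfl⟩
      intro v
      have := hcub v
      rwa [hdl, hdl, hdl] at this)
    (D.map π) (N.map π)
    (by
      rw [← Subgroup.map_commutator]
      exact Subgroup.map_mono h1)
    (by
      rintro _ ⟨x, hx, rfl⟩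
      exact ⟨x ^ (p ^ 2), h2 x hx, (map_pow _ _ _)⟩)
  have e1 : N.relIndex D ≤ (N.map π).relIndex (D.map π) := by
    rw [Subgroup.relIndex_map_map, hker, sup_eq_left.2 hKN]
    exact Subgroup.relIndex_le_of_le_right le_sup_left Subgroup.index_ne_zero_of_finite
  have e2 : Nat.card (M.map π) = K.relIndex M := by
    have h := Subgroup.relIndex_map_map π K M
    rw [hker, sup_idem, sup_eq_left.2 hKM] at h
    have hb : K.map π = ⊥ := by
      rw [Subgroup.map_eq_bot_iff, hker]
    rw [hb, Subgroup.relIndex_bot_left] at h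
    exact h
  rw [e2] at key
  exact e1.trans key

end RKC2
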