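import Mathlib
import Pool.Agent.Helper82.RK.Rank

/-! Project RK (MP_aa96c4_al): the `G`-module `A / B` for normal subgroups `A`, `B` of `G` with
`[A, A] <= B`. -/

namespace RKC2

open scoped commutatorElement

variable {G : Type*} [Group G]

/-- The abelian section `A / (A ⊓ B)`. -/
def GM (A B : Subgroup G) [A.Normal] [B.Normal] (_h : ⁅A, A⁆ ≤ B) : Type _ :=
  Additive (A ⧸ B.subgroupOf A)

namespace GM

variable {A B : Subgroup G} [A.Normal] [B.Normal] {h : ⁅A, A⁆ ≤ B}

instance : AddCommGroup (GM A B h) :=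
  { (inferInstance : AddGroup (Additive (A ⧸ B.subgroupOf A))) with
    add_comm := by
      intro x y
      change (Additive (A ⧸ B.subgroupOf A)) at x y
      have key : ∀ a b : A, (QuotientGroup.mk (a * b) : A ⧸ B.subgroupOf A) =
          QuotientGroup.mk (b * a) := by
        intro a b
        rw [QuotientGroup.eq, Subgroup.mem_subgroupOf]
        have : (((a * b)⁻¹ * (b * a) : A) : G) = ⁅(b : G)⁻¹, (a : G)⁻¹⁆ := by
          simp [commutatorElement_def, mul_assoc]
        rw [this]
        exact h (Subgroup.commutator_mem_commutator (A.inv_mem b.2) (A.inv_mem a.2))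
      have k2 : ∀ u v : A ⧸ B.subgroupOf A, u * v = v * u := by
        intro u v
        induction u using QuotientGroup.induction_on with | _ a => ?_
        induction v using QuotientGroup.induction_on with | _ b => ?_
        exact key a b
      exact congrArg Additive.ofMul (k2 (Additive.toMul x) (Additive.toMul y)) }

/-- the class of `a`. -/
def mk (h : ⁅A, A⁆ ≤ B) (a : A) : GM A B h := Additive.ofMul (QuotientGroup.mk a)

lemma mk_surj (x : GM A B h) : ∃ a : A, mk h a = x := by
  obtain ⟨a, ha⟩ := QuotientGroup.mk_surjective (Additive.toMul (x : Additive (A ⧸ B.subgroupOf A)))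
  exact ⟨a, congrArg Additive.ofMul ha⟩

lemma mk_mul (a b : A) : mk h (a * b) = mk h a + mk h b := rfl

lemma mk_one : mk h (1 : A) = 0 := rfl

lemma mk_inv (a : A) : mk h a⁻¹ = -mk h a := rfl

lemma mk_pow (a : A) (n : ℕ) : mk h (a ^ n) = n • mk h a := by
  induction n with
  | zero => rw [pow_zero, zero_smul, mk_one]
  | succ n ih => rw [pow_succ, mk_mul, ih, succ_nsmul]

lemma mk_eq_zero {a : A} : mk h a = 0 ↔ (a : G) ∈ B := by
  rw [← Subgroup.mem_subgroupOf, ← QuotientGroup.eq_one_iff]
  exact Iff.rfl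

lemma mk_eq_mk {a b : A} : mk h a = mk h b ↔ (a : G)⁻¹ * b ∈ B := by
  rw [← sub_eq_zero, ← neg_eq_zero, neg_sub, sub_eq_neg_add, ← mk_inv, ← mk_mul, mk_eq_zero]
  exact Iff.rfl

/-- conjugation by `g` on `A`. -/
def cj (A : Subgroup G) [A.Normal] (g : G) : A →* A := (MulAut.conjNormal g).toMonoidHom

lemma cj_coe (g : G) (a : A) : ((cj A g a : A) : G) = g * a * g⁻¹ := by
  simp [cj]

/-- conjugation by `g` on the quotient. -/
def cq (A B : Subgroup G) [A.Normal] [B.Normal] (g : G) :
    (A ⧸ B.subgroupOf A) →* (A ⧸ B.subgroupOf A) :=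
  QuotientGroup.map _ _ (cj A g) (by
    intro a ha
    rw [Subgroup.mem_comap, Subgroup.mem_subgroupOf, cj_coe]
    exact Subgroup.Normal.conj_mem inferInstance _ (Subgroup.mem_subgroupOf.1 ha) g)

lemma cq_mk (g : G) (a : A) : cq A B g (QuotientGroup.mk a) = QuotientGroup.mk (cj A g a) := rfl

instance : DistribMulAction G (GM A B h) where
  smul g x := Additive.ofMul (cq A B g (Additive.toMul (x : Additive (A ⧸ B.subgroupOf A))))
  one_smul x := by
    obtain ⟨a, rfl⟩ := mk_surj x
    change mk h (cj A 1 a) = mk h a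
    congr 1
    apply Subtype.ext
    rw [cj_coe]; simp
  mul_smul g g' x := by
    obtain ⟨a, rfl⟩ := mk_surj x
    change mk h (cj A (g * g') a) = mk h (cj A g (cj A g' a))
    congr 1
    apply Subtype.ext
    rw [cj_coe, cj_coe, cj_coe]; simp [mul_assoc]
  smul_zero g := by
    change mk h (cj A g 1) = mk h 1
    rw [map_one]
  smul_add g x y := by
    obtain ⟨a, rfl⟩ := mk_surj x
    obtain ⟨b, rfl⟩ := mk_surj y
    change mk h (cj A g (a * b)) = mk h (cj A g a) + mk h (cj A g b)
    rw [map_mul, mk_mul]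

lemma smul_mk (g : G) (a : A) : g • mk h a = mk h (cj A g a) := rfl

/-- the element `g` is trivial on the class of `a` iff `[g,a] in B`. -/
lemma smul_mk_eq {g : G} {a : A} : g • mk h a = mk h a ↔ ⁅g, (a : G)⁆ ∈ B := by
  rw [smul_mk, ← sub_eq_zero, sub_eq_add_neg, ← mk_inv, ← mk_mul, mk_eq_zero]
  have : (((cj A g a) * a⁻¹ : A) : G) = ⁅g, (a : G)⁆ := by
    rw [Subgroup.coe_mul, cj_coe, commutatorElement_def]; rfl
  rw [this]

end GM

end RKC2
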