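import Mathlib
import Pool.Agent.Helper82.RK.GMod
import Pool.Agent.Helper41.GM.Torsion

/-! Project RK (MP_aa96c4_al), RANK BOUND in group form, for a series `P` of normal subgroups. -/

namespace RKC2

open scoped commutatorElement

section torsion

variable {G F : Type*} [Group G] [AddCommGroup F] [DistribMulAction G F]

/-- torsion lemma for a group element. -/
theorem tors_act {p : ℕ} (hp : p.Prime) {k : ℕ} (hF : ∀ f : F, p ^ k • f = 0) {x : G}
    (hx : ∀ v : F, (x ^ (p ^ 3)) • v = v)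
    (h3 : ∀ v : F, dl x (dl x (dl x v)) ∈ pw F (p ^ 12)) :
    ∀ v ∈ pw F (p ^ 12), x • v = v := by
  rintro _ ⟨w, rfl⟩
  let X : AddMonoid.End F := DistribMulAction.toAddMonoidEnd G F x
  have hX : ∀ v, X v = x • v := fun v => rfl
  have hX1 : X ^ (p ^ 3) = 1 := by
    change (DistribMulAction.toAddMonoidEnd G F x) ^ (p ^ 3) = 1
    rw [← map_pow]
    ext v
    exact hx v
  have hsub : ∀ v, (X - 1) v = dl x v := fun v => rfl
  have h := Pool.Agent.Helper41.GM.torsion (e := 3) hp hF hX1 (by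
    intro f
    obtain ⟨g, hg⟩ := h3 f
    refine ⟨g, ?_⟩
    rw [pow_succ, pow_succ, pow_one]
    change (X - 1) ((X - 1) ((X - 1) f)) = _
    rw [hsub, hsub, hsub]
    exact hg.symm) w
  exact h

end torsion

variable {G : Type*} [Group G]

/-- the centraliser of the section `A / B`. -/
def cen (A B : Subgroup G) [B.Normal] : Subgroup G where
  carrier := {g | ∀ a ∈ A, ⁅g, a⁆ ∈ B}
  one_mem' := by intro a _; rw [commutatorElement_one_left]; exact B.one_mem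
  mul_mem' := by
    intro g h hg hh a ha
    have : ⁅g * h, a⁆ = g * ⁅h, a⁆ * g⁻¹ * ⁅g, a⁆ := by
      simp [commutatorElement_def, mul_assoc]
    rw [this]
    exact B.mul_mem (Subgroup.Normal.conj_mem inferInstance _ (hh a ha) g) (hg a ha)
  inv_mem' := by
    intro g hg a ha
    have : ⁅g⁻¹, a⁆ = g⁻¹ * ⁅g, a⁆⁻¹ * g⁻¹⁻¹ := by
      simp [commutatorElement_def, mul_assoc]
    rw [this]
    exact Subgroup.Normal.conj_mem inferInstance _ (B.inv_mem (hg a ha)) _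

lemma mem_cen {A B : Subgroup G} [B.Normal] {g : G} : g ∈ cen A B ↔ ∀ a ∈ A, ⁅g, a⁆ ∈ B := Iff.rfl

instance cen_normal {A B : Subgroup G} [A.Normal] [B.Normal] : (cen A B).Normal := by
  constructor
  intro g hg x a ha
  have : ⁅x * g * x⁻¹, a⁆ = x * ⁅g, x⁻¹ * a * x⁻¹⁻¹⁆ * x⁻¹ := by
    simp [commutatorElement_def, mul_assoc]
  rw [this]
  exact Subgroup.Normal.conj_mem inferInstance _
    (hg _ (Subgroup.Normal.conj_mem inferInstance _ ha _)) _

lemma cen_mono_left {A A' B : Subgroup G} [B.Normal] (h : A' ≤ A) : cen A B ≤ cen A' B :=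
  fun _ hg a ha => hg a (h ha)

lemma cen_mono_right {A B B' : Subgroup G} [B.Normal] [B'.Normal] (h : B ≤ B') :
    cen A B ≤ cen A B' := fun _ hg a ha => h (hg a ha)

lemma mem_cen_iff {A B : Subgroup G} [A.Normal] [B.Normal] {h : ⁅A, A⁆ ≤ B} {g : G} :
    g ∈ cen A B ↔ ∀ v : GM A B h, g • v = v := by
  constructor
  · intro hg v
    obtain ⟨a, rfl⟩ := GM.mk_surj v
    exact GM.smul_mk_eq.2 (hg a a.2)
  · intro hg a ha
    exact (GM.smul_mk_eq (h := h) (a := ⟨a, ha⟩)).1 (hg _)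

/-- the properties of the series `P_t = D_(p^t k)` which are used. -/
structure PS (p : ℕ) (P : ℕ → Subgroup G) (t0 : ℕ) : Prop where
  normal : ∀ t, (P t).Normal
  anti : Antitone P
  comm : ∀ s, t0 ≤ s → ⁅P s, P s⁆ ≤ P (2 * s)
  pow : ∀ s, t0 ≤ s → ∀ x ∈ P s, x ^ p ∈ P (s + 1)
  surj : ∀ s, t0 ≤ s → ∀ y ∈ P (s + 1), ∃ x ∈ P s, (x ^ p)⁻¹ * y ∈ P (2 * s)

namespace PS

variable {p : ℕ} {P : ℕ → Subgroup G} {t0 : ℕ}

lemma comm' (S : PS p P t0) {a b : ℕ} (ha : t0 ≤ a) (hb : b ≤ 2 * a) : ⁅P a, P a⁆ ≤ P b :=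
  (S.comm a ha).trans (S.anti hb)

lemma pow_iter (S : PS p P t0) {a : ℕ} (ha : t0 ≤ a) (c : ℕ) :
    ∀ x ∈ P a, x ^ (p ^ c) ∈ P (a + c) := by
  induction c with
  | zero => intro x hx; simpa using hx
  | succ c ih =>
    intro x hx
    have h := S.pow (a + c) (by omega) _ (ih x hx)
    rw [← pow_mul, ← pow_succ] at h
    exact h

section mod

variable (S : PS p P t0) {a b : ℕ} (ha : t0 ≤ a) (hb : b ≤ 2 * a)
  [(P a).Normal] [(P b).Normal]

include S ha hb in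
lemma mem_pw_of {c : ℕ} (hc : a + c ≤ b) : ∀ (x : G) (hx : x ∈ P (a + c)),
    GM.mk (S.comm' ha hb) (⟨x, S.anti (Nat.le_add_right a c) hx⟩ : P a) ∈
      pw (GM (P a) (P b) (S.comm' ha hb)) (p ^ c) := by
  induction c with
  | zero =>
    intro x hx
    refine mem_pw.2 ⟨GM.mk _ ⟨x, hx⟩, ?_⟩
    rw [pow_zero, one_smul]
  | succ c ih =>
    intro x hx
    obtain ⟨y, hy, hyx⟩ := S.surj (a + c) (by omega) x hx
    obtain ⟨w, hw⟩ := ih (by omega) y hy
    have hw' : p ^ c • w = GM.mk (S.comm' ha hb) ⟨y, S.anti (Nat.le_add_right a c) hy⟩ := hw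
    refine ⟨w, ?_⟩
    change p ^ (c + 1) • w = _
    rw [pow_succ', mul_smul, hw', ← GM.mk_pow, GM.mk_eq_mk]
    exact S.anti (by omega) hyx

include S ha hb in
lemma pw_mem {c : ℕ} {x : P a}
    (hx : GM.mk (S.comm' ha hb) x ∈ pw (GM (P a) (P b) (S.comm' ha hb)) (p ^ c))
    (hc : a + c ≤ b) : (x : G) ∈ P (a + c) := by
  obtain ⟨w, hw⟩ := hx
  obtain ⟨y, rfl⟩ := GM.mk_surj w
  have hw' : p ^ c • GM.mk (S.comm' ha hb) y = GM.mk (S.comm' ha hb) x := hw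
  rw [← GM.mk_pow, GM.mk_eq_mk] at hw'
  have h1 : ((y ^ (p ^ c) : P a) : G) ∈ P (a + c) := by
    rw [Subgroup.coe_pow]; exact S.pow_iter ha c _ y.2
  have h2 := (P (a + c)).mul_mem h1 (S.anti hc hw')
  rwa [mul_inv_cancel_left] at h2

include S ha hb in
lemma index_pw {c : ℕ} (hc : a + c ≤ b) :
    (pw (GM (P a) (P b) (S.comm' ha hb)) (p ^ c)).index = (P (a + c)).relIndex (P a) := by
  let f : P a →* Multiplicative (GM (P a) (P b) (S.comm' ha hb)) :=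
    { toFun := fun x => Multiplicative.ofAdd (GM.mk _ x)
      map_one' := rfl
      map_mul' := fun _ _ => rfl }
  have hf : Function.Surjective f := by
    intro v
    obtain ⟨x, hx⟩ := GM.mk_surj (Multiplicative.toAdd v)
    exact ⟨x, congrArg Multiplicative.ofAdd hx⟩
  have h1 := Subgroup.index_comap_of_surjective
    (AddSubgroup.toSubgroup (pw (GM (P a) (P b) (S.comm' ha hb)) (p ^ c))) hf
  have h2 : (AddSubgroup.toSubgroup (pw (GM (P a) (P b) (S.comm' ha hb)) (p ^ c))).comap f =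
      (P (a + c)).subgroupOf (P a) := by
    ext x
    rw [Subgroup.mem_comap, Subgroup.mem_subgroupOf]
    constructor
    · intro hx
      exact S.pw_mem ha hb (x := x) hx hc
    · intro hx
      exact S.mem_pw_of ha hb hc (x : G) hx
  rw [h2, AddSubgroup.index_toSubgroup] at h1
  exact h1.symm

end mod

lemma dl_mk (S : PS p P t0) {a b : ℕ} (ha : t0 ≤ a) (hb : b ≤ 2 * a)
    [hA : (P a).Normal] [(P b).Normal] (g : G) (x : P a) :
    dl g (GM.mk (S.comm' ha hb) x) =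
      GM.mk (S.comm' ha hb) ⟨⁅g, (x : G)⁆,
        (P a).mul_mem (hA.conj_mem _ x.2 g) ((P a).inv_mem x.2)⟩ := by
  rw [dl, GM.smul_mk, sub_eq_add_neg, ← GM.mk_inv, ← GM.mk_mul]
  congr 1

/-- `g` is cubic on `P a / P (a + c)`. -/
def Cub (P : ℕ → Subgroup G) (g : G) (a c : ℕ) : Prop :=
  ∀ x ∈ P a, ⁅g, ⁅g, ⁅g, x⁆⁆⁆ ∈ P (a + c)

lemma cub_iff (S : PS p P t0) {a b c : ℕ} (ha : t0 ≤ a) (hb : b ≤ 2 * a) (hc : a + c ≤ b)
    [(P a).Normal] [(P b).Normal] (g : G) :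
    Cub P g a c ↔ ∀ v : GM (P a) (P b) (S.comm' ha hb),
      dl g (dl g (dl g v)) ∈ pw (GM (P a) (P b) (S.comm' ha hb)) (p ^ c) := by
  constructor
  · intro h v
    obtain ⟨x, rfl⟩ := GM.mk_surj v
    rw [S.dl_mk ha hb, S.dl_mk ha hb, S.dl_mk ha hb]
    exact S.mem_pw_of ha hb hc _ (h x x.2)
  · intro h x hx
    have h1 := h (GM.mk _ ⟨x, hx⟩)
    rw [S.dl_mk ha hb, S.dl_mk ha hb, S.dl_mk ha hb] at h1
    exact S.pw_mem ha hb h1 hc

lemma cub_succ (S : PS p P t0) {a c : ℕ} (ha : t0 ≤ a) (hc : c + 1 ≤ a) {g : G}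
    (h : Cub P g a c) : Cub P g (a + 1) c := by
  have := S.normal a
  have := S.normal (2 * a)
  intro y hy
  obtain ⟨x, hx, hxy⟩ := S.surj a ha y hy
  have h1 : ∀ z : P a, GM.mk (S.comm' ha le_rfl) (z ^ p) = p • GM.mk (S.comm' ha le_rfl) z :=
    fun z => GM.mk_pow z p
  have hyA : y ∈ P a := S.anti (Nat.le_succ a) hy
  have e1 : GM.mk (S.comm' ha le_rfl) (⟨y, hyA⟩ : P a) =
      p • GM.mk (S.comm' ha le_rfl) (⟨x, hx⟩ : P a) := by
    rw [← GM.mk_pow, eq_comm, GM.mk_eq_mk]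
    exact hxy
  have e2 : dl g (dl g (dl g (GM.mk (S.comm' ha le_rfl) (⟨y, hyA⟩ : P a)))) =
      p • dl g (dl g (dl g (GM.mk (S.comm' ha le_rfl) (⟨x, hx⟩ : P a)))) := by
    have hs : ∀ v : GM (P a) (P (2 * a)) (S.comm' ha le_rfl), dl g (p • v) = p • dl g v := by
      intro v
      rw [dl, dl, smul_sub, smul_comm]
    rw [e1, hs, hs, hs]
  rw [S.dl_mk ha le_rfl, S.dl_mk ha le_rfl, S.dl_mk ha le_rfl, S.dl_mk ha le_rfl,
    S.dl_mk ha le_rfl, S.dl_mk ha le_rfl, ← GM.mk_pow, eq_comm, GM.mk_eq_mk] at e2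
  have h3 : ⁅g, ⁅g, ⁅g, x⁆⁆⁆ ^ p ∈ P (a + c + 1) := S.pow (a + c) (by omega) _ (h x hx)
  have h4 := (P (a + 1 + c)).mul_mem (by rw [Nat.add_right_comm]; exact h3)
    (S.anti (show a + 1 + c ≤ 2 * a by omega) e2)
  change ⁅g, ⁅g, ⁅g, x⁆⁆⁆ ^ p * ((⁅g, ⁅g, ⁅g, x⁆⁆⁆ ^ p)⁻¹ * ⁅g, ⁅g, ⁅g, y⁆⁆⁆) ∈ _ at h4
  rwa [mul_inv_cancel_left] at h4

lemma cub_of_le (S : PS p P t0) {a c : ℕ} (ha : t0 ≤ a) (hc : c + 1 ≤ a) {g : G}
    (h : Cub P g a c) {α : ℕ} (hα : a ≤ α) : Cub P g α c := by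
  induction α, hα using Nat.le_induction with
  | base => exact h
  | succ α hα ih => exact S.cub_succ (ha.trans hα) (by omega) ih

/-- torsion in group form. -/
lemma tors [Finite G] (S : PS p P t0) [hp : Fact p.Prime] (hG : IsPGroup p G) {a b : ℕ} (ha : t0 ≤ a)
    (hb : b ≤ 2 * a) (hc : a + 12 ≤ b) [(P a).Normal] [(P b).Normal] {g : G}
    (hg : g ^ (p ^ 3) ∈ cen (P a) (P b)) (h : Cub P g a 12) : g ∈ cen (P (a + 12)) (P b) := by
  obtain ⟨k, hk⟩ := (hG.exists_card_eq)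
  have hF : ∀ f : GM (P a) (P b) (S.comm' ha hb), p ^ k • f = 0 := by
    intro f
    obtain ⟨x, rfl⟩ := GM.mk_surj f
    rw [← GM.mk_pow]
    have : x ^ p ^ k = 1 := by
      apply Subtype.ext
      rw [Subgroup.coe_pow, ← hk, pow_card_eq_one']
      rfl
    rw [this, GM.mk_one]
  have h1 := tors_act hp.out hF (x := g) ((mem_cen_iff (h := S.comm' ha hb)).1 hg)
    ((S.cub_iff ha hb hc g).1 h)
  intro x hx
  have h2 := h1 _ (S.mem_pw_of ha hb hc x hx)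
  exact GM.smul_mk_eq.1 h2

/-- **RANK BOUND, group form.** -/
theorem rank_bound [Finite G] (S : PS p P t0) [hp : Fact p.Prime] (hG : IsPGroup p G) {a b : ℕ}
    (ha : t0 ≤ a) (ha13 : 13 ≤ a) (hb : b ≤ 2 * a) (hc : a + 12 ≤ b) [(P a).Normal] [(P b).Normal]
    {ι : Type*} (α β : ι → ℕ) [∀ i, (P (β i)).Normal] [∀ i, (P (α i)).Normal] (hα : ∀ i, a ≤ α i)
    (hβ : ∀ i, β i ≤ 2 * α i) (hαβ : ∀ i, α i + 12 ≤ β i)
    (D N : Subgroup G) (hN : cen (P a) (P b) ⊓ ⨅ i, cen (P (α i)) (P (β i)) ≤ N)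
    (h1 : ⁅D, D⁆ ≤ N) (h2 : ∀ x ∈ D, x ^ (p ^ 2) ∈ N) :
    N.relIndex D ≤ (P (a + 12)).relIndex (P a) *
      (cen (P a) (P b) ⊓ ⨅ i, cen (P (α i)) (P (β i))).relIndex
        (cen (P (a + 12)) (P b) ⊓ ⨅ i, cen (P (α i + 12)) (P (β i))) := by
  set K := cen (P a) (P b) ⊓ ⨅ i, cen (P (α i)) (P (β i)) with hKdef
  have hKn : K.Normal := by
    have : (⨅ i, cen (P (α i)) (P (β i))).Normal := Subgroup.normal_iInf_normal (fun i => inferInstance)
    exact Subgroup.normal_inf_normal _ _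
  have hcard : ∃ k, Nat.card (GM (P a) (P b) (S.comm' ha hb)) = p ^ k := by
    have h := (hG.to_subgroup (P a)).to_quotient ((P b).subgroupOf (P a))
    exact h.exists_card_eq
  obtain ⟨k, hk⟩ := hcard
  have : Finite (GM (P a) (P b) (S.comm' ha hb)) := by
    unfold GM; infer_instance
  have key := section_rel (F := GM (P a) (P b) (S.comm' ha hb)) hG hk
    (pw (GM (P a) (P b) (S.comm' ha hb)) (p ^ 12)) (fun g => pw_stable _ g) K
    (cen (P (a + 12)) (P b) ⊓ ⨅ i, cen (P (α i + 12)) (P (β i))) D N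
    (fun x hx => (mem_cen_iff (h := S.comm' ha hb)).1 hx.1)
    (inf_le_inf (cen_mono_left (S.anti (Nat.le_add_right a 12)))
      (iInf_mono fun i => cen_mono_left (S.anti (Nat.le_add_right (α i) 12))))
    hN
    (by
      intro x hx hcub
      have hcub' : Cub P x a 12 := (S.cub_iff ha hb hc x).2 hcub
      refine ⟨S.tors hG ha hb hc hx.1 hcub', ?_⟩
      refine Subgroup.mem_iInf.2 ?_
      intro i
      have hxi : x ^ (p ^ 3) ∈ cen (P (α i)) (P (β i)) := by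
        have := hx.2
        exact (Subgroup.mem_iInf.1 this) i
      exact S.tors hG (ha.trans (hα i)) (hβ i) (hαβ i) hxi
        (S.cub_of_le ha (by omega) hcub' (hα i)))
    h1 h2
  rw [S.index_pw ha hb hc] at key
  exact key

end PS

end RKC2
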