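import Mathlib
import Pool.Agent.Helper82.RK.RankG

/-! Project RK (MP_aa96c4_al), helper60's two-scale pigeonhole: the rank bound `a * r <= eta * n`. -/

namespace RKC2

open scoped commutatorElement

section nu

variable {G : Type*} [Group G]

/-- `log_p |H|`. -/
noncomputable def nu (p : ℕ) (H : Subgroup G) : ℕ := padicValNat p (Nat.card H)

variable [Finite G] {p : ℕ} [hp : Fact p.Prime]

lemma card_eq_nu (hG : IsPGroup p G) (H : Subgroup G) : Nat.card H = p ^ nu p H := by
  obtain ⟨k, hk⟩ := (hG.to_subgroup H).exists_card_eq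
  rw [nu, hk, padicValNat.prime_pow]

lemma nu_mono (hG : IsPGroup p G) {H K : Subgroup G} (h : H ≤ K) : nu p H ≤ nu p K := by
  have h1 := Subgroup.card_le_of_le h
  rw [card_eq_nu hG, card_eq_nu hG] at h1
  exact (Nat.pow_le_pow_iff_right hp.out.one_lt).1 h1

lemma nu_le (hG : IsPGroup p G) {n : ℕ} (hn : Nat.card G = p ^ n) (H : Subgroup G) :
    nu p H ≤ n := by
  have h1 := nu_mono hG (le_top : H ≤ ⊤)
  have h2 : nu p (⊤ : Subgroup G) = n := by
    rw [nu, Subgroup.card_top, hn, padicValNat.prime_pow]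
  omega

lemma relIndex_eq (hG : IsPGroup p G) {H K : Subgroup G} (h : H ≤ K) :
    H.relIndex K = p ^ (nu p K - nu p H) := by
  have h1 := Pool.Agent.Helper46.RK.card_mul_rel h
  rw [card_eq_nu hG, card_eq_nu hG] at h1
  have h2 := nu_mono hG h
  have h3 : p ^ nu p K = p ^ nu p H * p ^ (nu p K - nu p H) := by
    rw [← pow_add]; congr 1; omega
  rw [h3] at h1
  exact Nat.eq_of_mul_eq_mul_left (pow_pos hp.out.pos _) h1

lemma nu_inf (hG : IsPGroup p G) {H H' : Subgroup G} (h : H ≤ H') (N : Subgroup G) :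
    nu p (H' ⊓ N) + nu p H ≤ nu p H' + nu p (H ⊓ N) := by
  have h1 : H.relIndex (H' ⊓ N) ≤ H.relIndex H' :=
    Subgroup.relIndex_le_of_le_right inf_le_left Subgroup.index_ne_zero_of_finite
  have h2 : H.relIndex (H' ⊓ N) = (H ⊓ N).relIndex (H' ⊓ N) := by
    have e : H ⊓ (H' ⊓ N) = (H ⊓ N) ⊓ (H' ⊓ N) := by
      apply le_antisymm
      · exact le_inf (le_inf inf_le_left (inf_le_right.trans inf_le_right)) inf_le_right
      · exact le_inf (inf_le_left.trans inf_le_left) inf_le_right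
    rw [← Subgroup.inf_relIndex_right, e, Subgroup.inf_relIndex_right]
  rw [h2, relIndex_eq hG (inf_le_inf_right N h), relIndex_eq hG h,
    Nat.pow_le_pow_iff_right hp.out.one_lt] at h1
  have h3 := nu_mono hG h
  have h4 := nu_mono hG (inf_le_inf_right N h)
  omega

end nu

/-- pigeonhole. -/
lemma pigeon (g : ℕ → ℕ) {M : ℕ} (hM : 0 < M) : ∃ i < M, M * g i ≤ ∑ i ∈ Finset.range M, g i := by
  by_contra hcon
  push Not at hcon
  have h1 : ∑ i ∈ Finset.range M, (∑ i ∈ Finset.range M, g i) <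
      ∑ i ∈ Finset.range M, M * g i := by
    apply Finset.sum_lt_sum_of_nonempty
    · exact ⟨0, Finset.mem_range.2 hM⟩
    · intro i hi
      exact hcon i (Finset.mem_range.1 hi)
  rw [Finset.sum_const, Finset.card_range, ← Finset.mul_sum, smul_eq_mul] at h1
  exact lt_irrefl _ h1

/-- pigeonhole for a monotone bounded function, steps of length 12. -/
lemma pigeon_step {f : ℕ → ℕ} {X : ℕ} (hf : Monotone f) {N : ℕ} (hN : 12 ≤ N)
    (hX : f N ≤ f 0 + X) :
    ∃ h, h + 12 ≤ N ∧ N * (f (h + 12) - f h) ≤ 24 * X := by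
  have hM : 0 < N / 12 := by omega
  obtain ⟨i, hi, h⟩ := pigeon (fun i => f (12 * (i + 1)) - f (12 * i)) hM
  have hsum : ∀ M : ℕ, ∑ i ∈ Finset.range M, (f (12 * (i + 1)) - f (12 * i)) = f (12 * M) - f 0 := by
    intro M
    induction M with
    | zero => simp
    | succ M ih =>
      rw [Finset.sum_range_succ, ih]
      have h1 : f 0 ≤ f (12 * M) := hf (Nat.zero_le _)
      have h2 : f (12 * M) ≤ f (12 * (M + 1)) := hf (by omega)
      omega
  rw [hsum] at h
  have h3 : f (12 * (N / 12)) ≤ f N := hf (Nat.mul_div_le N 12)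
  refine ⟨12 * i, by omega, ?_⟩
  have e : 12 * (i + 1) = 12 * i + 12 := by ring
  rw [e] at h
  have h4 : N ≤ 24 * (N / 12) := by omega
  calc N * (f (12 * i + 12) - f (12 * i)) ≤ 24 * (N / 12) * (f (12 * i + 12) - f (12 * i)) :=
        Nat.mul_le_mul_right _ h4
    _ = 24 * (N / 12 * (f (12 * i + 12) - f (12 * i))) := by ring
    _ ≤ 24 * X := by
        apply Nat.mul_le_mul_left
        exact h.trans (by omega)

/-- telescoping with a shift. -/
lemma sum_shift {f : ℕ → ℕ} {n : ℕ} (hf : Monotone f) (hn : ∀ i, f i ≤ n) (I J : ℕ) :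
    ∑ j ∈ Finset.range J, (f (j + I) - f j) ≤ I * n := by
  induction I with
  | zero => simp
  | succ I ih =>
    have h1 : ∀ j, f (j + (I + 1)) - f j = (f (j + (I + 1)) - f (j + I)) + (f (j + I) - f j) := by
      intro j
      have h2 : f j ≤ f (j + I) := hf (by omega)
      have h3 : f (j + I) ≤ f (j + (I + 1)) := hf (by omega)
      omega
    simp_rw [h1]
    rw [Finset.sum_add_distrib]
    have h4 : ∑ j ∈ Finset.range J, (f (j + (I + 1)) - f (j + I)) = f (J + I) - f I := by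
      clear ih h1
      induction J with
      | zero => simp
      | succ J ihJ =>
        rw [Finset.sum_range_succ, ihJ]
        have h5 : f I ≤ f (J + I) := hf (by omega)
        have h6 : f (J + I) ≤ f (J + 1 + I) := hf (by omega)
        have e : J + (I + 1) = J + 1 + I := by ring
        rw [e]
        omega
    rw [h4]
    have h7 := hn (J + I)
    have h8 : (I + 1) * n = I * n + n := by ring
    omega

namespace PS

variable {G : Type*} [Group G] [Finite G] {p : ℕ} {P : ℕ → Subgroup G} {t0 : ℕ}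

/-- the layer `log_p |P_t / P_(t+1)|`. -/
noncomputable def lay (p : ℕ) (P : ℕ → Subgroup G) (t : ℕ) : ℕ := nu p (P t) - nu p (P (t + 1))

lemma lay_succ (S : PS p P t0) [hp : Fact p.Prime] (hG : IsPGroup p G) {t : ℕ} (ht : t0 ≤ t)
    (h2 : 2 ≤ t) : lay p P (t + 1) ≤ lay p P t := by
  have := S.normal t
  have := S.normal (t + 2)
  have hb : t + 2 ≤ 2 * t := by omega
  have hpw : pw (GM (P t) (P (t + 2)) (S.comm' ht hb)) (p ^ 1) ≤
      (nsmulAddMonoidHom (α := GM (P t) (P (t + 2)) (S.comm' ht hb)) (p ^ 1)).ker := by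
    rintro v ⟨w, rfl⟩
    obtain ⟨x, rfl⟩ := GM.mk_surj w
    change p ^ 1 • (p ^ 1 • GM.mk (S.comm' ht hb) x) = 0
    rw [← mul_smul, ← GM.mk_pow, GM.mk_eq_zero, Subgroup.coe_pow, ← pow_add]
    exact S.pow_iter ht 2 _ x.2
  have : Finite (GM (P t) (P (t + 2)) (S.comm' ht hb)) := by
    unfold GM; infer_instance
  have h1 : (nsmulAddMonoidHom (α := GM (P t) (P (t + 2)) (S.comm' ht hb)) (p ^ 1)).ker.index ≤
      (pw (GM (P t) (P (t + 2)) (S.comm' ht hb)) (p ^ 1)).index := by
    exact Nat.le_of_dvd (Nat.pos_of_ne_zero AddSubgroup.index_ne_zero_of_finite)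
      (AddSubgroup.index_dvd_of_le hpw)
  rw [AddSubgroup.index_ker] at h1
  have h3 : Nat.card (pw (GM (P t) (P (t + 2)) (S.comm' ht hb)) (p ^ 1)) *
      (pw (GM (P t) (P (t + 2)) (S.comm' ht hb)) (p ^ 1)).index =
      Nat.card (GM (P t) (P (t + 2)) (S.comm' ht hb)) := AddSubgroup.card_mul_index _
  have h4 : (pw (GM (P t) (P (t + 2)) (S.comm' ht hb)) (p ^ 1)).index =
      (P (t + 1)).relIndex (P t) := S.index_pw ht hb (c := 1) (by omega)
  have h5 : Nat.card (GM (P t) (P (t + 2)) (S.comm' ht hb)) = (P (t + 2)).relIndex (P t) := rfl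
  have a1 := nu_mono hG (S.anti (show t ≤ t + 1 by omega))
  have a2 := nu_mono hG (S.anti (show t + 1 ≤ t + 2 by omega))
  rw [h4, h5, relIndex_eq hG (S.anti (show t ≤ t + 1 by omega)),
    relIndex_eq hG (S.anti (show t ≤ t + 2 by omega))] at h3
  have h6 : Nat.card (pw (GM (P t) (P (t + 2)) (S.comm' ht hb)) (p ^ 1)) = p ^ lay p P (t + 1) := by
    have e : p ^ (nu p (P t) - nu p (P (t + 2))) =
        p ^ lay p P (t + 1) * p ^ (nu p (P t) - nu p (P (t + 1))) := by
      rw [← pow_add, lay]; congr 1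
      have e2 : t + 1 + 1 = t + 2 := rfl
      rw [e2]; omega
    rw [e] at h3
    exact Nat.eq_of_mul_eq_mul_right (pow_pos hp.out.pos _) h3
  have h7 : Nat.card (pw (GM (P t) (P (t + 2)) (S.comm' ht hb)) (p ^ 1)) ≤
      (pw (GM (P t) (P (t + 2)) (S.comm' ht hb)) (p ^ 1)).index := h1
  rw [h6, h4, relIndex_eq hG (S.anti (show t ≤ t + 1 by omega)),
    Nat.pow_le_pow_iff_right hp.out.one_lt] at h7
  exact h7

lemma lay_anti (S : PS p P t0) [hp : Fact p.Prime] (hG : IsPGroup p G) {s t : ℕ} (hs : t0 ≤ s)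
    (h2 : 2 ≤ s) (hst : s ≤ t) : lay p P t ≤ lay p P s := by
  induction t, hst using Nat.le_induction with
  | base => exact le_rfl
  | succ t ht ih => exact (S.lay_succ hG (hs.trans ht) (h2.trans ht)).trans ih

/-- sum of layers over an interval. -/
lemma lay_sum (S : PS p P t0) [hp : Fact p.Prime] (hG : IsPGroup p G) (s m : ℕ) :
    ∑ i ∈ Finset.range m, lay p P (s + i) = nu p (P s) - nu p (P (s + m)) := by
  induction m with
  | zero => simp
  | succ m ih =>
    rw [Finset.sum_range_succ, ih, lay]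
    have h1 := nu_mono hG (S.anti (show s ≤ s + m by omega))
    have h2 := nu_mono hG (S.anti (show s + m ≤ s + m + 1 by omega))
    have e : s + (m + 1) = s + m + 1 := rfl
    rw [e]; omega

lemma relIndex_shift (S : PS p P t0) [hp : Fact p.Prime] (hG : IsPGroup p G) {a : ℕ} (ha : t0 ≤ a)
    (h2 : 2 ≤ a) (c : ℕ) : (P (a + c)).relIndex (P a) ≤ p ^ (c * lay p P a) := by
  rw [relIndex_eq hG (S.anti (Nat.le_add_right a c)), ← S.lay_sum hG a c]
  apply Nat.pow_le_pow_right hp.out.pos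
  calc ∑ i ∈ Finset.range c, lay p P (a + i) ≤ ∑ i ∈ Finset.range c, lay p P a :=
        Finset.sum_le_sum fun i _ => S.lay_anti hG ha h2 (Nat.le_add_right a i)
    _ = c * lay p P a := by rw [Finset.sum_const, Finset.card_range, smul_eq_mul]

lemma dyadic (S : PS p P t0) [hp : Fact p.Prime] (hG : IsPGroup p G) {n : ℕ}
    (hn : Nat.card G = p ^ n) {j0 : ℕ} (h0 : t0 ≤ 2 ^ j0) (h2 : 1 ≤ j0) (J : ℕ) :
    ∑ j ∈ Finset.range J, 2 ^ (j0 + j) * lay p P (2 ^ (j0 + j + 1)) ≤ n := by
  have key : ∀ J : ℕ, ∑ j ∈ Finset.range J, 2 ^ (j0 + j) * lay p P (2 ^ (j0 + j + 1)) +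
      nu p (P (2 ^ (j0 + J))) ≤ nu p (P (2 ^ j0)) := by
    intro J
    induction J with
    | zero => simp
    | succ J ih =>
      rw [Finset.sum_range_succ]
      have h3 : 2 ^ (j0 + J) * lay p P (2 ^ (j0 + J + 1)) ≤
          nu p (P (2 ^ (j0 + J))) - nu p (P (2 ^ (j0 + J) + 2 ^ (j0 + J))) := by
        rw [← S.lay_sum hG]
        calc 2 ^ (j0 + J) * lay p P (2 ^ (j0 + J + 1)) =
            ∑ i ∈ Finset.range (2 ^ (j0 + J)), lay p P (2 ^ (j0 + J + 1)) := by
              rw [Finset.sum_const, Finset.card_range, smul_eq_mul]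
          _ ≤ _ := by
            apply Finset.sum_le_sum
            intro i hi
            have hi' := Finset.mem_range.1 hi
            have e1 : 2 ^ j0 ≤ 2 ^ (j0 + J) := Nat.pow_le_pow_right (by norm_num) (by omega)
            have e2 : 2 ^ 1 ≤ 2 ^ j0 := Nat.pow_le_pow_right (by norm_num) h2
            apply S.lay_anti hG
            · omega
            · omega
            · rw [pow_succ]; omega
      have h4 := nu_mono hG (S.anti (Nat.le_add_right (2 ^ (j0 + J)) (2 ^ (j0 + J))))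
      have e : 2 ^ (j0 + (J + 1)) = 2 ^ (j0 + J) + 2 ^ (j0 + J) := by
        rw [← Nat.add_assoc, pow_succ]; ring
      rw [e]
      omega
  have h5 := key J
  have h6 := nu_le hG hn (P (2 ^ j0))
  omega

section blocks

variable [∀ t, (P t).Normal]

/-- far blocks: intersection over the scales `u >= w` of the centralisers of
`P (6 * 2 ^ u + h) / P (8 * 2 ^ u)`. -/
def far (P : ℕ → Subgroup G) [∀ t, (P t).Normal] (w h : ℕ) : Subgroup G :=
  ⨅ v : ℕ, cen (P (6 * 2 ^ (w + v) + h)) (P (8 * 2 ^ (w + v)))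

/-- the upper block at scale `u`. -/
def blk (P : ℕ → Subgroup G) [∀ t, (P t).Normal] (u : ℕ) : Subgroup G :=
  cen (P (7 * 2 ^ u)) (P (8 * 2 ^ u))

/-- the far blocks with the upper value `h = 2 ^ u`. -/
def top (P : ℕ → Subgroup G) [∀ t, (P t).Normal] (w : ℕ) : Subgroup G :=
  ⨅ v : ℕ, blk P (w + v)

omit [Finite G] in
lemma far_mono (S : PS p P t0) (w : ℕ) : Monotone (far P w) := by
  intro h h' hh
  refine iInf_mono fun v => cen_mono_left (S.anti (by omega))

omit [Finite G] in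
lemma top_mono : Monotone (top P) := by
  refine monotone_nat_of_le_succ fun w => ?_
  refine le_iInf fun v => ?_
  have e : w + 1 + v = w + (v + 1) := by ring
  rw [e]
  exact iInf_le (fun v => blk P (w + v)) (v + 1)

omit [Finite G] in
lemma far_le_top (S : PS p P t0) {w h : ℕ} (hh : h ≤ 2 ^ w) : far P w h ≤ top P w := by
  refine iInf_mono fun v => cen_mono_left (S.anti ?_)
  have e : 2 ^ w ≤ 2 ^ (w + v) := Nat.pow_le_pow_right (by norm_num) (by omega)
  omega

omit [Finite G] in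
lemma top_le (w : ℕ) : top P w ≤ cen (P (7 * 2 ^ w)) (P (8 * 2 ^ w)) :=
  iInf_le (fun v => blk P (w + v)) 0

/-- **Two-scale pigeonhole**: the rank bound `a * r <= eta * n`. -/
theorem two_scale (S : PS p P t0) [hp : Fact p.Prime] (hG : IsPGroup p G) {n : ℕ}
    (hn : Nat.card G = p ^ n) (U I J : ℕ) (hU : 4 ≤ U) (ht0 : t0 ≤ 2 ^ U) (hI : 0 < I) (hJ : 0 < J) :
    ∃ u a r : ℕ, ∃ K : Subgroup G, U ≤ u ∧ u < U + J ∧ 7 * 2 ^ u ≤ a ∧ a + 12 ≤ 8 * 2 ^ u ∧
      K.Normal ∧ K ≤ cen (P a) (P (8 * 2 ^ u)) ∧ K ≤ top P (u + I) ∧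
      J * (2 ^ I * (a * r)) ≤ 192 * ((I + 1) * (2 ^ I * n)) + 192 * (J * n) ∧
      ∀ D N : Subgroup G, K ≤ N → ⁅D, D⁆ ≤ N → (∀ x ∈ D, x ^ (p ^ 2) ∈ N) →
        N.relIndex D ≤ p ^ r := by
  -- choice of the scale
  have hmt : Monotone (fun w => nu p (top P w)) := fun w w' h => nu_mono hG (top_mono h)
  have hs1 : ∑ j ∈ Finset.range J, (nu p (top P (U + j + I)) - nu p (top P (U + j))) ≤ I * n := by
    have h := sum_shift (f := fun j => nu p (top P (U + j))) (n := n)
      (fun j j' h => hmt (by omega)) (fun j => nu_le hG hn _) I J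
    refine le_trans (le_of_eq ?_) h
    refine Finset.sum_congr rfl fun j _ => ?_
    rw [Nat.add_assoc]
  have hs2 : ∑ j ∈ Finset.range J, 2 ^ (U + 1 + j) * lay p P (2 ^ (U + 1 + j + 1)) ≤ n := by
    apply S.dyadic hG hn _ (by omega)
    refine ht0.trans (Nat.pow_le_pow_right (by norm_num) (by omega))
  obtain ⟨j, hj, hpig⟩ := pigeon (fun j => (nu p (top P (U + j + I)) - nu p (top P (U + j))) +
    2 ^ (U + 1 + j) * lay p P (2 ^ (U + 1 + j + 1))) hJ
  rw [Finset.sum_add_distrib] at hpig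
  set u := U + j with hu
  have e1 : U + 1 + j = u + 1 := by omega
  rw [e1] at hpig
  set x := nu p (top P (u + I)) - nu p (top P u) with hx
  set y := 2 ^ (u + 1) * lay p P (2 ^ (u + 1 + 1)) with hy
  have hxy : J * (x + y) ≤ (I + 1) * n := by
    have : (I + 1) * n = I * n + n := by ring
    omega
  have h16 : 16 ≤ 2 ^ u := by
    have : 2 ^ 4 ≤ 2 ^ u := Nat.pow_le_pow_right (by norm_num) (by omega)
    omega
  have htu : t0 ≤ 2 ^ u := ht0.trans (Nat.pow_le_pow_right (by norm_num) (by omega))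
  -- far blocks
  have hfar : Monotone (fun h => nu p (far P (u + I) h)) := fun h h' hh =>
    nu_mono hG (S.far_mono _ hh)
  have h16' : 2 ^ u ≤ 2 ^ (u + I) := Nat.pow_le_pow_right (by norm_num) (by omega)
  obtain ⟨h1, hh1, hstep1⟩ := pigeon_step (X := n) hfar (N := 2 ^ (u + I)) (by omega)
    ((nu_le hG hn _).trans (Nat.le_add_left _ _))
  set L := far P (u + I) h1 with hL
  -- near block
  set f : ℕ → ℕ := fun h => nu p (cen (P (7 * 2 ^ u + h)) (P (8 * 2 ^ u)) ⊓ L) with hf
  have hfm : Monotone f := fun h h' hh => nu_mono hG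
    (inf_le_inf_right _ (cen_mono_left (S.anti (by omega))))
  have hLt : L ≤ top P (u + I) := S.far_le_top (by omega)
  have hX : f (2 ^ u) ≤ f 0 + x := by
    have a1 : f (2 ^ u) ≤ nu p L := nu_mono hG inf_le_right
    have a2 : nu p L + nu p (cen (P (7 * 2 ^ u)) (P (8 * 2 ^ u)) ⊓ top P (u + I)) ≤
        nu p (top P (u + I)) + nu p (cen (P (7 * 2 ^ u)) (P (8 * 2 ^ u)) ⊓ L) := by
      have h := nu_inf hG (inf_le_right : cen (P (7 * 2 ^ u)) (P (8 * 2 ^ u)) ⊓ top P (u + I) ≤
        top P (u + I)) L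
      rw [inf_assoc, inf_eq_right.2 hLt] at h
      exact h
    have a3 : nu p (top P u) ≤ nu p (cen (P (7 * 2 ^ u)) (P (8 * 2 ^ u)) ⊓ top P (u + I)) :=
      nu_mono hG (le_inf (top_le u) (top_mono (by omega)))
    have a4 : nu p (top P u) ≤ nu p (top P (u + I)) := hmt (by omega)
    have a5 : f 0 = nu p (cen (P (7 * 2 ^ u)) (P (8 * 2 ^ u)) ⊓ L) := by
      rw [hf]; rfl
    omega
  obtain ⟨h2, hh2, hstep2⟩ := pigeon_step (X := x) hfm (N := 2 ^ u) (by omega) hX
  set a := 7 * 2 ^ u + h2 with ha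
  set b := 8 * 2 ^ u with hb
  set s1 := nu p (far P (u + I) (h1 + 12)) - nu p L with hs1'
  set s2 := f (h2 + 12) - f h2 with hs2'
  have hta : t0 ≤ a := by omega
  set K := cen (P a) (P b) ⊓ L with hK
  refine ⟨u, a, 12 * lay p P a + (s1 + s2), K, by omega, by omega, by omega, by omega, ?_,
    inf_le_left, inf_le_right.trans hLt, ?_, ?_⟩
  · have : L.Normal := Subgroup.normal_iInf_normal (fun v => inferInstance)
    exact Subgroup.normal_inf_normal _ _
  · -- arithmetic
    have b1 : lay p P a ≤ lay p P (2 ^ (u + 1 + 1)) := by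
      have e2 : 2 ^ (u + 1 + 1) = 4 * 2 ^ u := by rw [pow_succ, pow_succ]; ring
      rw [e2]
      exact S.lay_anti hG (by omega) (by omega) (by omega)
    have b2 : a * lay p P a ≤ 4 * y := by
      calc a * lay p P a ≤ (8 * 2 ^ u) * lay p P (2 ^ (u + 1 + 1)) :=
            Nat.mul_le_mul (by omega) b1
        _ = 4 * y := by rw [hy, pow_succ]; ring
    have b3 : a * s2 ≤ 192 * x := by
      calc a * s2 ≤ (8 * 2 ^ u) * s2 := Nat.mul_le_mul_right _ (by omega)
        _ = 8 * (2 ^ u * s2) := by ring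
        _ ≤ 8 * (24 * x) := Nat.mul_le_mul_left _ hstep2
        _ = 192 * x := by ring
    have b4 : 2 ^ I * (a * s1) ≤ 192 * n := by
      calc 2 ^ I * (a * s1) ≤ 2 ^ I * ((8 * 2 ^ u) * s1) :=
            Nat.mul_le_mul_left _ (Nat.mul_le_mul_right _ (by omega))
        _ = 8 * (2 ^ (u + I) * s1) := by rw [pow_add]; ring
        _ ≤ 8 * (24 * n) := Nat.mul_le_mul_left _ hstep1
        _ = 192 * n := by ring
    have b5 : a * (12 * lay p P a + (s1 + s2)) ≤ 192 * (x + y) + a * s1 := by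
      have : a * (12 * lay p P a + (s1 + s2)) = 12 * (a * lay p P a) + a * s1 + a * s2 := by ring
      omega
    calc J * (2 ^ I * (a * (12 * lay p P a + (s1 + s2)))) ≤
        J * (2 ^ I * (192 * (x + y) + a * s1)) := by gcongr
      _ = 192 * (2 ^ I * (J * (x + y))) + J * (2 ^ I * (a * s1)) := by ring
      _ ≤ 192 * (2 ^ I * ((I + 1) * n)) + J * (192 * n) := by gcongr
      _ = 192 * ((I + 1) * (2 ^ I * n)) + 192 * (J * n) := by ring
  · intro D N hKN hD1 hD2
    have key := S.rank_bound hG hta (by omega) (b := b) (by omega) (by omega)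
      (fun v : ℕ => 6 * 2 ^ (u + I + v) + h1) (fun v : ℕ => 8 * 2 ^ (u + I + v))
      (by
        intro v
        have e3 : 2 ^ (u + 1) ≤ 2 ^ (u + I + v) := Nat.pow_le_pow_right (by norm_num) (by omega)
        rw [pow_succ] at e3
        omega)
      (by intro v; omega)
      (by
        intro v
        have e3 : 2 ^ (u + I) ≤ 2 ^ (u + I + v) := Nat.pow_le_pow_right (by norm_num) (by omega)
        omega)
      D N hKN hD1 hD2
    have hM : cen (P (a + 12)) (P b) ⊓ ⨅ i : ℕ, cen (P (6 * 2 ^ (u + I + i) + h1 + 12))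
        (P (8 * 2 ^ (u + I + i))) = cen (P (7 * 2 ^ u + (h2 + 12))) (P b) ⊓
          far P (u + I) (h1 + 12) := rfl
    have hK' : cen (P a) (P b) ⊓ ⨅ i : ℕ, cen (P (6 * 2 ^ (u + I + i) + h1))
        (P (8 * 2 ^ (u + I + i))) = K := rfl
    rw [hM, hK'] at key
    have hle : K ≤ cen (P (7 * 2 ^ u + (h2 + 12))) (P b) ⊓ far P (u + I) (h1 + 12) :=
      inf_le_inf (cen_mono_left (S.anti (by omega))) (S.far_mono _ (by omega))
    rw [relIndex_eq hG hle] at key
    refine key.trans ?_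
    have c1 := S.relIndex_shift hG hta (by omega) 12
    refine (Nat.mul_le_mul_right _ c1).trans ?_
    rw [← pow_add]
    apply Nat.pow_le_pow_right hp.out.pos
    apply Nat.add_le_add_left
    -- exponent
    have hLle : L ≤ far P (u + I) (h1 + 12) := S.far_mono _ (by omega)
    have d1 := nu_inf hG hLle (cen (P (7 * 2 ^ u + (h2 + 12))) (P b))
    rw [inf_comm, inf_comm (a := L)] at d1
    have d2 : f (h2 + 12) = nu p (cen (P (7 * 2 ^ u + (h2 + 12))) (P b) ⊓ L) := rfl
    have d3 : f h2 = nu p K := rfl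
    have d4 := nu_mono hG hLle
    have d5 : f h2 ≤ f (h2 + 12) := hfm (by omega)
    omega

end blocks

end PS

end RKC2
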