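import Mathlib
import Pool.Agent.Helper82.RK.TwoScale

/-! Project RK (MP_aa96c4_al): the rank bound for `G / C_G(P_j)`, `P_j` not necessarily abelian
(helper43's scheme with exact centralisers). -/

namespace RKC2

open scoped commutatorElement

variable {G : Type*} [Group G]

section step

variable {p : ℕ} {Q : Subgroup G} {W : ℕ → Subgroup G} {j : ℕ}

lemma W_mono (hW : ∀ i u, u ∈ W i ↔ u ∈ Q ∧ u ^ (p ^ i) = 1) : Monotone W := by
  intro i i' h u hu
  rw [hW] at hu ⊢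
  refine ⟨hu.1, ?_⟩
  obtain ⟨c, rfl⟩ := Nat.exists_eq_add_of_le h
  rw [pow_add, pow_mul, hu.2, one_pow]

lemma W_normal [hQ : Q.Normal] (hW : ∀ i u, u ∈ W i ↔ u ∈ Q ∧ u ^ (p ^ i) = 1) (i : ℕ) :
    (W i).Normal := by
  constructor
  intro u hu g
  rw [hW] at hu ⊢
  refine ⟨hQ.conj_mem _ hu.1 g, ?_⟩
  rw [conj_pow, hu.2]; simp

/-- one step: `[x,Q] <= Omega_i` gives `[x,Q] <= Omega_(i-1)`. -/
theorem comm_step (hp : p.Prime) {e k : ℕ} (hk : ∀ g : G, g ^ (p ^ k) = 1) [hQ : Q.Normal]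
    (hW : ∀ i u, u ∈ W i ↔ u ∈ Q ∧ u ^ (p ^ i) = 1)
    (hcomm : ∀ i, ⁅W i, Q⁆ ≤ W (i - j)) (hj : 5 * e + 1 ≤ j) {i : ℕ} (hi : 5 * e + 1 ≤ i) {x : G}
    (hx : ∀ y ∈ Q, ⁅x ^ (p ^ e), y⁆ = 1) (h : ∀ y ∈ Q, ⁅x, y⁆ ∈ W i)
    (h3 : ∀ y ∈ Q, ⁅x, ⁅x, ⁅x, y⁆⁆⁆ ∈ Subgroup.closure {v | ∃ w ∈ Q, v = w ^ (p ^ (4 * e))}) :
    ∀ y ∈ Q, ⁅x, y⁆ ∈ W (i - 1) := by
  have hmono := W_mono hW
  have n1 := W_normal hW i
  have n2 := W_normal hW (i - (5 * e + 1))
  have hWQ : ∀ i, W i ≤ Q := fun i u hu => ((hW i u).1 hu).1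
  have hc1 : ⁅W i, Q⁆ ≤ W (i - (5 * e + 1)) := (hcomm i).trans (hmono (by omega))
  have hab : ⁅W i, W i⁆ ≤ W (i - (5 * e + 1)) :=
    (Subgroup.commutator_mono le_rfl (hWQ i)).trans hc1
  -- powers
  have hn : ∀ n : ℕ, ∀ y ∈ Q, ⁅x ^ n, y⁆ ∈ W i := by
    intro n
    induction n with
    | zero => intro y _; rw [pow_zero, commutatorElement_one_left]; exact (W i).one_mem
    | succ n ih =>
      intro y hy
      have e1 : ⁅x ^ (n + 1), y⁆ = x * ⁅x ^ n, y⁆ * x⁻¹ * ⁅x, y⁆ := by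
        rw [pow_succ']; simp [commutatorElement_def, mul_assoc]
      rw [e1]
      exact (W i).mul_mem (n1.conj_mem _ (ih y hy) x) (h y hy)
  let F := GM (W i) (W (i - (5 * e + 1))) hab
  let φ : Q →* Multiplicative F :=
    { toFun := fun y => Multiplicative.ofAdd (GM.mk hab ⟨⁅x, (y : G)⁆, h y y.2⟩)
      map_one' := by
        have : (⟨⁅x, ((1 : Q) : G)⁆, h _ (1 : Q).2⟩ : W i) = 1 := by
          apply Subtype.ext
          change ⁅x, (1 : G)⁆ = 1
          exact commutatorElement_one_right x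
        rw [this]; rfl
      map_mul' := by
        intro y z
        rw [← ofAdd_add, ← GM.mk_mul]
        congr 1
        rw [GM.mk_eq_mk]
        change (⁅x, (y : G) * z⁆)⁻¹ * (⁅x, (y : G)⁆ * ⁅x, (z : G)⁆) ∈ W (i - (5 * e + 1))
        have e1 : (⁅x, (y : G) * z⁆)⁻¹ * (⁅x, (y : G)⁆ * ⁅x, (z : G)⁆) =
            (y : G) * ⁅(⁅x, (z : G)⁆)⁻¹, (y : G)⁻¹⁆ * (y : G)⁻¹ := by
          simp [commutatorElement_def, mul_assoc]
        rw [e1]
        exact n2.conj_mem _ (hc1 (Subgroup.commutator_mem_commutator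
          ((W i).inv_mem (h z z.2)) (Q.inv_mem y.2))) _ }
  have hφ : ∀ y : Q, Multiplicative.toAdd (φ y) = GM.mk hab ⟨⁅x, (y : G)⁆, h y y.2⟩ := fun y => rfl
  have hxy : ∀ y : Q, ⁅x, (y : G)⁆ ∈ Q := fun y => hWQ i (h y y.2)
  -- (x-1) phi(y) = phi([x,y])
  have hd : ∀ y : Q, dl x (Multiplicative.toAdd (φ y)) = Multiplicative.toAdd (φ ⟨⁅x, (y : G)⁆, hxy y⟩) := by
    intro y
    rw [hφ, hφ, dl, GM.smul_mk, sub_eq_add_neg, ← GM.mk_inv, ← GM.mk_mul]
    congr 1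
  -- the image
  let A0 : AddSubgroup F :=
    { carrier := {v | ∃ y : Q, Multiplicative.toAdd (φ y) = v}
      zero_mem' := ⟨1, by rw [map_one]; rfl⟩
      add_mem' := by
        rintro _ _ ⟨y, rfl⟩ ⟨z, rfl⟩
        exact ⟨y * z, by rw [map_mul]; rfl⟩
      neg_mem' := by
        rintro _ ⟨y, rfl⟩
        exact ⟨y⁻¹, by rw [map_inv]; rfl⟩ }
  have hA0 : ∀ v, v ∈ A0 ↔ ∃ y : Q, Multiplicative.toAdd (φ y) = v := fun v => Iff.rfl
  have hstab : ∀ v ∈ A0, x • v ∈ A0 := by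
    intro v hv
    have hv' := hv
    obtain ⟨y, rfl⟩ := (hA0 v).1 hv
    have : x • Multiplicative.toAdd (φ y) = dl x (Multiplicative.toAdd (φ y)) +
      Multiplicative.toAdd (φ y) := by rw [dl]; abel
    rw [this, hd]
    exact A0.add_mem ((hA0 _).2 ⟨_, rfl⟩) hv'
  let X : AddMonoid.End A0 :=
    { toFun := fun v => ⟨x • (v : F), hstab v v.2⟩
      map_zero' := by apply Subtype.ext; exact smul_zero x
      map_add' := by intro u v; apply Subtype.ext; exact smul_add x _ _ }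
  have hX : ∀ v : A0, ((X v : A0) : F) = x • (v : F) := fun v => rfl
  -- s n y
  let s : ℕ → Q → F := fun n y => GM.mk hab ⟨⁅x ^ n, (y : G)⁆, hn n y y.2⟩
  have hs0 : ∀ y, s 0 y = 0 := by
    intro y
    have : (⟨⁅x ^ 0, (y : G)⁆, hn 0 y y.2⟩ : W i) = 1 := by
      apply Subtype.ext
      change ⁅x ^ 0, (y : G)⁆ = 1
      rw [pow_zero, commutatorElement_one_left]
    change GM.mk hab _ = 0
    rw [this]; rfl
  have hs1 : ∀ n y, s (n + 1) y = x • s n y + Multiplicative.toAdd (φ y) := by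
    intro n y
    change GM.mk hab _ = x • GM.mk hab _ + GM.mk hab _
    rw [GM.smul_mk, ← GM.mk_mul]
    congr 1
    apply Subtype.ext
    rw [Subgroup.coe_mul, GM.cj_coe]
    change ⁅x ^ (n + 1), (y : G)⁆ = x * ⁅x ^ n, (y : G)⁆ * x⁻¹ * ⁅x, (y : G)⁆
    rw [pow_succ']; simp [commutatorElement_def, mul_assoc]
  have hspe : ∀ y, s (p ^ e) y = 0 := by
    intro y
    change GM.mk hab _ = 0
    rw [GM.mk_eq_zero]
    change ⁅x ^ p ^ e, (y : G)⁆ ∈ _
    rw [hx y y.2]; exact Subgroup.one_mem _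
  -- x^n phi - phi = (x-1) s_n
  have hs2 : ∀ n y, (x ^ n) • Multiplicative.toAdd (φ y) - Multiplicative.toAdd (φ y) =
      dl x (s n y) := by
    intro n y
    induction n with
    | zero => rw [pow_zero, one_smul, sub_self, hs0, dl_zero]
    | succ n ih =>
      rw [hs1, dl_add]
      have e1 : dl x (x • s n y) = x • dl x (s n y) := by rw [dl, dl, smul_sub]
      rw [e1, ← ih, smul_sub, dl, ← mul_smul, ← pow_succ']
      abel
  have hXpow : ∀ (n : ℕ) (v : A0), (((X ^ n) v : A0) : F) = (x ^ n) • (v : F) := by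
    intro n
    induction n with
    | zero => intro v; rw [pow_zero, pow_zero, one_smul]; rfl
    | succ n ih =>
      intro v
      rw [pow_succ, pow_succ, mul_smul]
      change (((X ^ n) (X v) : A0) : F) = _
      rw [ih, hX]
  have hX1 : X ^ (p ^ e) = 1 := by
    ext v
    obtain ⟨y, hy⟩ := (hA0 v).1 v.2
    rw [hXpow]
    change (x ^ (p ^ e)) • (v : F) = (v : F)
    rw [← hy]
    have h5 := hs2 (p ^ e) y
    rw [hspe, dl_zero] at h5
    exact sub_eq_zero.1 h5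
  have hFk : ∀ f : A0, p ^ k • f = 0 := by
    intro f
    apply Subtype.ext
    rw [AddSubgroup.coe_nsmul]
    obtain ⟨u, hu⟩ := GM.mk_surj (f : F)
    rw [← hu, ← GM.mk_pow]
    have : u ^ p ^ k = 1 := by
      apply Subtype.ext
      rw [Subgroup.coe_pow, hk]; rfl
    rw [this]; rfl
  -- images of elements of the closure of powers
  have hclos : ∀ (m : ℕ) (z : G), z ∈ Subgroup.closure {v | ∃ w ∈ Q, v = w ^ m} → ∀ hz : z ∈ Q,
      ∃ w : Q, Multiplicative.toAdd (φ ⟨z, hz⟩) = m • Multiplicative.toAdd (φ w) := by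
    intro m z hz
    refine Subgroup.closure_induction (p := fun z _ => ∀ hz : z ∈ Q,
      ∃ w : Q, Multiplicative.toAdd (φ ⟨z, hz⟩) = m • Multiplicative.toAdd (φ w)) ?_ ?_ ?_ ?_ hz
    · rintro _ ⟨w, hw, rfl⟩ hz
      refine ⟨⟨w, hw⟩, ?_⟩
      have : (⟨w ^ m, hz⟩ : Q) = ⟨w, hw⟩ ^ m := by
        apply Subtype.ext; rw [Subgroup.coe_pow]
      rw [this, map_pow, toAdd_pow]
    · intro hz
      refine ⟨1, ?_⟩
      have : (⟨1, hz⟩ : Q) = 1 := rfl
      rw [this, map_one, toAdd_one, smul_zero]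
    · intro a b ha hb iha ihb hab'
      have hle : Subgroup.closure {v | ∃ w ∈ Q, v = w ^ m} ≤ Q := by
        rw [Subgroup.closure_le]
        rintro _ ⟨w, hw, rfl⟩
        exact Q.pow_mem hw m
      obtain ⟨u, hu⟩ := iha (hle ha)
      obtain ⟨v, hv⟩ := ihb (hle hb)
      refine ⟨u * v, ?_⟩
      have : (⟨a * b, hab'⟩ : Q) = ⟨a, hle ha⟩ * ⟨b, hle hb⟩ := rfl
      rw [this, map_mul, toAdd_mul, hu, hv, map_mul, toAdd_mul, smul_add]
    · intro a ha iha ha'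
      have ha'' : a ∈ Q := by rw [← inv_inv a]; exact Q.inv_mem ha'
      obtain ⟨u, hu⟩ := iha ha''
      refine ⟨u⁻¹, ?_⟩
      have : (⟨a⁻¹, ha'⟩ : Q) = (⟨a, ha''⟩)⁻¹ := rfl
      rw [this, map_inv, toAdd_inv, hu, map_inv, toAdd_inv, smul_neg]
  have hXdl : ∀ v : A0, (((X - 1) v : A0) : F) = dl x (v : F) := fun v => rfl
  have htor := Pool.Agent.Helper41.GM.torsion (e := e) hp hFk hX1 (by
    intro f
    obtain ⟨y, hy⟩ := (hA0 f).1 f.2
    obtain ⟨w, hw⟩ := hclos (p ^ (4 * e)) _ (h3 y y.2)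
      (hWQ i (h _ (hWQ i (h _ (hWQ i (h y y.2))))))
    refine ⟨⟨Multiplicative.toAdd (φ w), (hA0 _).2 ⟨w, rfl⟩⟩, ?_⟩
    apply Subtype.ext
    rw [AddSubgroup.coe_nsmul]
    change _ = p ^ (4 * e) • Multiplicative.toAdd (φ w)
    rw [← hw, pow_succ, pow_succ, pow_one]
    change (((X - 1) ((X - 1) ((X - 1) f)) : A0) : F) = _
    rw [hXdl, hXdl, hXdl, ← hy, hd, hd, hd])
  -- conclusion
  have hfix : ∀ y : Q, x • (p ^ (4 * e) • Multiplicative.toAdd (φ y)) =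
      p ^ (4 * e) • Multiplicative.toAdd (φ y) := by
    intro y
    have h6 := congrArg (fun v : A0 => (v : F))
      (htor ⟨Multiplicative.toAdd (φ y), (hA0 _).2 ⟨y, rfl⟩⟩)
    exact h6
  have hs3 : ∀ n y, p ^ (4 * e) • s n y = (n * p ^ (4 * e)) • Multiplicative.toAdd (φ y) := by
    intro n y
    induction n with
    | zero => rw [hs0, smul_zero, zero_mul, zero_smul]
    | succ n ih =>
      rw [hs1, smul_add, smul_comm, ih, mul_smul, smul_comm x n, hfix, ← mul_smul, add_mul, one_mul,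
        add_smul]
  intro y hy
  have h7 := hs3 (p ^ e) ⟨y, hy⟩
  rw [hspe, smul_zero, ← pow_add] at h7
  have h8 : GM.mk hab ((⟨⁅x, y⁆, h y hy⟩ : W i) ^ (p ^ (e + 4 * e))) = 0 := by
    rw [GM.mk_pow]; exact h7.symm
  rw [GM.mk_eq_zero, Subgroup.coe_pow, hW] at h8
  rw [hW]
  refine ⟨hWQ i (h y hy), ?_⟩
  have h9 := h8.2
  change (⁅x, y⁆ ^ p ^ (e + 4 * e)) ^ p ^ (i - (5 * e + 1)) = 1 at h9
  rw [← pow_mul, ← pow_add] at h9
  have e2 : e + 4 * e + (i - (5 * e + 1)) = i - 1 := by omega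
  rwa [e2] at h9

/-- **torsion in the nonabelian case**: `x ^ (p ^ e)` centralises `Q`, `[x,[x,[x,Q]]]` lies in the
closure of the `p ^ (4 e)`-th powers; then `x` centralises the `p ^ (5 e)`-th powers of `Q`. -/
theorem tors_nonab (hp : p.Prime) {e k : ℕ} (hk : ∀ g : G, g ^ (p ^ k) = 1) [hQ : Q.Normal]
    (hW : ∀ i u, u ∈ W i ↔ u ∈ Q ∧ u ^ (p ^ i) = 1)
    (hcomm : ∀ i, ⁅W i, Q⁆ ≤ W (i - j)) (hj : 5 * e + 1 ≤ j) {x : G}
    (hx : ∀ y ∈ Q, ⁅x ^ (p ^ e), y⁆ = 1)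
    (h3 : ∀ y ∈ Q, ⁅x, ⁅x, ⁅x, y⁆⁆⁆ ∈ Subgroup.closure {v | ∃ w ∈ Q, v = w ^ (p ^ (4 * e))}) :
    ∀ y ∈ Subgroup.closure {v | ∃ w ∈ Q, v = w ^ (p ^ (5 * e))}, ⁅x, y⁆ = 1 := by
  have hall : ∀ m : ℕ, ∀ y ∈ Q, ⁅x, y⁆ ∈ W (5 * e + (k - m)) := by
    intro m
    induction m with
    | zero =>
      intro y hy
      rw [hW]
      refine ⟨?_, ?_⟩
      · rw [commutatorElement_def]
        exact Q.mul_mem (hQ.conj_mem _ hy x) (Q.inv_mem hy)
      · rw [Nat.sub_zero, pow_add, mul_comm, pow_mul, hk, one_pow]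
    | succ m ih =>
      by_cases hm : k ≤ m
      · have e1 : k - (m + 1) = k - m := by omega
        rw [e1]; exact ih
      · have h4 := comm_step hp hk hW hcomm hj (i := 5 * e + (k - m)) (by omega) hx ih h3
        have e1 : 5 * e + (k - (m + 1)) = 5 * e + (k - m) - 1 := by omega
        rw [e1]; exact h4
  have hlast : ∀ y ∈ Q, ⁅x, y⁆ ∈ W (5 * e) := by
    have h5 := hall k
    rwa [Nat.sub_self, Nat.add_zero] at h5
  have hW0 : W 0 = ⊥ := by
    rw [eq_bot_iff]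
    intro u hu
    have := ((hW 0 u).1 hu).2
    rw [pow_zero, pow_one] at this
    exact Subgroup.mem_bot.2 this
  have hcen : ∀ u ∈ W (5 * e), ∀ y ∈ Q, y * u = u * y := by
    intro u hu y hy
    have h6 := hcomm (5 * e) (Subgroup.commutator_mem_commutator hu hy)
    have e1 : 5 * e - j = 0 := by omega
    rw [e1, hW0, Subgroup.mem_bot, commutatorElement_eq_one_iff_mul_comm] at h6
    exact h6.symm
  have hpow : ∀ n : ℕ, ∀ y ∈ Q, ⁅x, y ^ n⁆ = ⁅x, y⁆ ^ n := by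
    intro n
    induction n with
    | zero => intro y _; rw [pow_zero, pow_zero, commutatorElement_one_right]
    | succ n ih =>
      intro y hy
      have e1 : ⁅x, y ^ (n + 1)⁆ = ⁅x, y⁆ * (y * ⁅x, y ^ n⁆ * y⁻¹) := by
        rw [pow_succ']; simp [commutatorElement_def, mul_assoc]
      rw [e1, ih y hy, hcen _ ((W (5 * e)).pow_mem (hlast y hy) n) y hy, mul_inv_cancel_right,
        pow_succ']
  intro y hy
  rw [commutatorElement_eq_one_iff_mul_comm]
  refine Subgroup.closure_induction (p := fun y _ => x * y = y * x) ?_ ?_ ?_ ?_ hy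
  · rintro _ ⟨w, hw, rfl⟩
    rw [← commutatorElement_eq_one_iff_mul_comm, hpow _ w hw]
    exact ((hW _ _).1 (hlast w hw)).2
  · simp
  · intro a b _ _ ha hb
    rw [← mul_assoc, ha, mul_assoc, hb, mul_assoc]
  · intro a _ ha
    have : x * a⁻¹ = a⁻¹ * (a * x) * a⁻¹ := by simp
    rw [this, ← ha]; simp [mul_assoc]

end step

/-- the properties of the series `P_t` used for the rank bound of `G / C_G(P_j)`. -/
structure PN (p : ℕ) (P : ℕ → Subgroup G) (j0 : ℕ) : Prop where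
  normal : ∀ t, (P t).Normal
  anti : Antitone P
  comm : ∀ s, j0 ≤ s → ⁅P s, P s⁆ ≤ P (2 * s)
  clos : ∀ s, j0 ≤ s → ∀ c, P (s + c) ≤ Subgroup.closure {v | ∃ w ∈ P s, v = w ^ (p ^ c)}
  omega : ∀ s, j0 ≤ s → ∃ W : ℕ → Subgroup G, (∀ i u, u ∈ W i ↔ u ∈ P s ∧ u ^ (p ^ i) = 1) ∧
    ∀ i, ⁅W i, P s⁆ ≤ W (i - s)

/-- **Rank bound for `G / C_G(P_j)`.** -/
theorem PN.rank {p : ℕ} {P : ℕ → Subgroup G} {j0 : ℕ} [Finite G] (S : PN p P j0)
    [hp : Fact p.Prime] (hG : IsPGroup p G) {j : ℕ} (hj0 : j0 ≤ j) (hj : 16 ≤ j)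
    (D N : Subgroup G) (hN : Subgroup.centralizer (P j : Set G) ≤ N)
    (h1 : ⁅D, D⁆ ≤ N) (h2 : ∀ x ∈ D, x ^ (p ^ 2) ∈ N) :
    N.relIndex D ≤ (P (j + 12)).relIndex (P j) *
      (Subgroup.centralizer (P j : Set G)).relIndex (Subgroup.centralizer (P (j + 15) : Set G)) := by
  have := S.normal j
  have := S.normal (j + 12)
  have := S.normal (j + 15)
  have hab : ⁅P j, P j⁆ ≤ P (j + 12) := (S.comm j hj0).trans (S.anti (by omega))
  obtain ⟨m, hm⟩ := hG.exists_card_eq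
  have hk : ∀ g : G, g ^ (p ^ m) = 1 := fun g => by rw [← hm]; exact pow_card_eq_one'
  obtain ⟨W, hW, hcomm⟩ := S.omega j hj0
  have hfin : Finite (GM (P j) (P (j + 12)) hab) := by unfold GM; infer_instance
  have hcard : ∃ k, Nat.card (GM (P j) (P (j + 12)) hab) = p ^ k := by
    have h := (hG.to_subgroup (P j)).to_quotient ((P (j + 12)).subgroupOf (P j))
    exact h.exists_card_eq
  obtain ⟨k, hk'⟩ := hcard
  have hKn : (Subgroup.centralizer (P j : Set G)).Normal := inferInstance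
  have hdl : ∀ (g : G) (x : P j), dl g (GM.mk hab x) = GM.mk hab ⟨⁅g, (x : G)⁆,
      (P j).mul_mem ((S.normal j).conj_mem _ x.2 g) ((P j).inv_mem x.2)⟩ := by
    intro g x
    rw [dl, GM.smul_mk, sub_eq_add_neg, ← GM.mk_inv, ← GM.mk_mul]
    congr 1
  have key := section_rel (F := GM (P j) (P (j + 12)) hab) hG hk' ⊥
    (by intro g v hv; rw [AddSubgroup.mem_bot] at *; rw [hv, smul_zero])
    (Subgroup.centralizer (P j : Set G)) (Subgroup.centralizer (P (j + 15) : Set G)) D N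
    (by
      intro x hx v
      obtain ⟨a, rfl⟩ := GM.mk_surj v
      rw [GM.smul_mk_eq]
      have : ⁅x, (a : G)⁆ = 1 := by
        rw [commutatorElement_eq_one_iff_mul_comm]
        exact ((Subgroup.mem_centralizer_iff.1 hx) _ a.2).symm
      rw [this]; exact Subgroup.one_mem _)
    (Subgroup.centralizer_le (S.anti (by omega)))
    hN
    (by
      intro x hx hcub
      rw [Subgroup.mem_centralizer_iff]
      intro y hy
      have h4 := tors_nonab hp.out (e := 3) hk hW hcomm (by omega) (x := x)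
        (by
          intro y hy
          rw [commutatorElement_eq_one_iff_mul_comm]
          exact ((Subgroup.mem_centralizer_iff.1 hx) _ hy).symm)
        (by
          intro y hy
          apply S.clos j hj0 (4 * 3)
          have h5 := hcub (GM.mk hab ⟨y, hy⟩)
          rw [hdl, hdl, hdl, AddSubgroup.mem_bot, GM.mk_eq_zero] at h5
          exact h5)
        y (S.clos j hj0 (5 * 3) hy)
      rw [commutatorElement_eq_one_iff_mul_comm] at h4
      exact h4.symm)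
    h1 h2
  have hidx : (⊥ : AddSubgroup (GM (P j) (P (j + 12)) hab)).index =
      (P (j + 12)).relIndex (P j) := by
    rw [AddSubgroup.index_bot]; rfl
  rw [hidx] at key
  exact key

end RKC2
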