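import Mathlib
import Pool.Agent.Helper82.RK.RankN

/-! Project RK (MP_aa96c4_al): pigeonhole for the ranks `r_j`, and the dyadic Jennings count. -/

namespace RKC2

open scoped commutatorElement

variable {G : Type*} [Group G]

/-- `C_j = C_G(P_j)`. -/
def Cj (P : ℕ → Subgroup G) (j : ℕ) : Subgroup G := Subgroup.centralizer (P j : Set G)

/-- `r_j = log |P_j : P_(j+12)| + log |C_(j+15) : C_j|`. -/
noncomputable def rj (p : ℕ) (P : ℕ → Subgroup G) (j : ℕ) : ℕ :=
  (nu p (P j) - nu p (P (j + 12))) + (nu p (Cj P (j + 15)) - nu p (Cj P j))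

namespace PN

variable {p : ℕ} {P : ℕ → Subgroup G} {j0 : ℕ} [Finite G] (S : PN p P j0) [hp : Fact p.Prime]
  (hG : IsPGroup p G)

omit [Finite G] hp in
lemma Cj_mono (S : PN p P j0) : Monotone (Cj P) := fun _ _ h => Subgroup.centralizer_le (S.anti h)

include S hG in
/-- rank bound in terms of `r_j`. -/
theorem rank' {j : ℕ} (hj0 : j0 ≤ j) (hj : 16 ≤ j)
    (D N : Subgroup G) (hN : Cj P j ≤ N)
    (h1 : ⁅D, D⁆ ≤ N) (h2 : ∀ x ∈ D, x ^ (p ^ 2) ∈ N) :
    N.relIndex D ≤ p ^ rj p P j := by
  have h := S.rank hG hj0 hj D N hN h1 h2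
  rw [relIndex_eq hG (S.anti (Nat.le_add_right j 12))] at h
  have h3 : (Subgroup.centralizer (P j : Set G)).relIndex
      (Subgroup.centralizer (P (j + 15) : Set G)) = p ^ (nu p (Cj P (j + 15)) - nu p (Cj P j)) :=
    relIndex_eq hG (S.Cj_mono (Nat.le_add_right j 15))
  rw [h3, ← pow_add] at h
  exact h

/-- telescoping of a decreasing bounded function. -/
lemma tele {f : ℕ → ℕ} {n : ℕ} (hf : Antitone f) (hn : ∀ i, f i ≤ n) (c J m : ℕ) :
    ∑ i ∈ Finset.range m, (f (J + i) - f (J + i + c)) ≤ c * n := by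
  induction c with
  | zero => simp
  | succ c ih =>
    have h1 : ∀ i, f (J + i) - f (J + i + (c + 1)) =
        (f (J + i) - f (J + i + c)) + (f (J + i + c) - f (J + i + (c + 1))) := by
      intro i
      have h2 : f (J + i + c) ≤ f (J + i) := hf (by omega)
      have h3 : f (J + i + (c + 1)) ≤ f (J + i + c) := hf (by omega)
      omega
    simp_rw [h1]
    rw [Finset.sum_add_distrib]
    have h4 : ∑ i ∈ Finset.range m, (f (J + i + c) - f (J + i + (c + 1))) =
        f (J + c) - f (J + m + c) := by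
      clear ih h1
      induction m with
      | zero => simp
      | succ m ihm =>
        rw [Finset.sum_range_succ, ihm]
        have h5 : f (J + m + c) ≤ f (J + c) := hf (by omega)
        have h6 : f (J + m + (c + 1)) ≤ f (J + m + c) := hf (by omega)
        have e : J + (m + 1) + c = J + m + (c + 1) := by ring
        rw [e]
        omega
    rw [h4]
    have h7 := hn (J + c)
    have h8 : (c + 1) * n = c * n + n := by ring
    omega

include S hG in
/-- `sum r_j <= 27 n`. -/
theorem sum_rj {n : ℕ} (hn : Nat.card G = p ^ n) (J m : ℕ) :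
    ∑ i ∈ Finset.range m, rj p P (J + i) ≤ 27 * n := by
  unfold rj
  rw [Finset.sum_add_distrib]
  have h1 := tele (f := fun j => nu p (P j)) (n := n) (fun i j h => nu_mono hG (S.anti h))
    (fun i => nu_le hG hn _) 12 J m
  have h2 := tele (f := fun j => n - nu p (Cj P j)) (n := n)
    (fun i j h => by
      have := nu_mono hG (S.Cj_mono h)
      change n - nu p (Cj P j) ≤ n - nu p (Cj P i)
      omega) (fun i => Nat.sub_le _ _) 15 J m
  have h3 : ∀ i, nu p (Cj P (J + i + 15)) - nu p (Cj P (J + i)) =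
      (n - nu p (Cj P (J + i))) - (n - nu p (Cj P (J + i + 15))) := by
    intro i
    have a1 := nu_le hG hn (Cj P (J + i))
    have a2 := nu_le hG hn (Cj P (J + i + 15))
    omega
  simp_rw [h3]
  omega

include S hG in
/-- **pigeonhole**: some `j` in `[J, 2^M J)` has `M j r_j <= 54 n`. -/
theorem exists_good {n : ℕ} (hn : Nat.card G = p ^ n) {J M : ℕ} (hJ : 0 < J) (hM : 0 < M) :
    ∃ j, J ≤ j ∧ j < 2 ^ M * J ∧ M * (j * rj p P j) ≤ 54 * n := by
  by_contra hcon
  push Not at hcon
  have key : ∀ m, m ≤ M → m * (27 * n + 1) ≤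
      M * ∑ i ∈ Finset.range (2 ^ m * J - J), rj p P (J + i) := by
    intro m
    induction m with
    | zero => intro _; simp
    | succ m ih =>
      intro hm
      have ih' := ih (by omega)
      have e1 : 2 ^ (m + 1) * J - J = (2 ^ m * J - J) + 2 ^ m * J := by
        have : J ≤ 2 ^ m * J := Nat.le_mul_of_pos_left J (by positivity)
        have h6 : 2 ^ (m + 1) * J = 2 ^ m * J + 2 ^ m * J := by rw [pow_succ]; ring
        omega
      rw [e1, Finset.sum_range_add]
      have h2 : 27 * n + 1 ≤ M * ∑ i ∈ Finset.range (2 ^ m * J), rj p P (J + (2 ^ m * J - J + i)) := by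
        by_contra hlt
        push Not at hlt
        have hlt' : M * ∑ i ∈ Finset.range (2 ^ m * J), rj p P (J + (2 ^ m * J - J + i)) ≤ 27 * n := by
          omega
        have hpos : 0 < 2 ^ m * J := by positivity
        have h3 : ∑ i ∈ Finset.range (2 ^ m * J), (54 * n) <
            ∑ i ∈ Finset.range (2 ^ m * J),
              (2 * (2 ^ m * J)) * (M * rj p P (J + (2 ^ m * J - J + i))) := by
          apply Finset.sum_lt_sum_of_nonempty ⟨0, Finset.mem_range.2 hpos⟩
          intro i hi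
          have hi' := Finset.mem_range.1 hi
          have e2 : J + (2 ^ m * J - J + i) = 2 ^ m * J + i := by
            have : J ≤ 2 ^ m * J := Nat.le_mul_of_pos_left J (by positivity)
            omega
          rw [e2]
          have h4 := hcon (2 ^ m * J + i) (by
            have : J ≤ 2 ^ m * J := Nat.le_mul_of_pos_left J (by positivity)
            omega) (by
            have h5 : 2 ^ (m + 1) * J ≤ 2 ^ M * J :=
              Nat.mul_le_mul_right _ (Nat.pow_le_pow_right (by norm_num) hm)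
            have h6 : 2 ^ (m + 1) * J = 2 ^ m * J + 2 ^ m * J := by rw [pow_succ]; ring
            omega)
          refine h4.trans_le ?_
          calc M * ((2 ^ m * J + i) * rj p P (2 ^ m * J + i)) ≤
              M * ((2 * (2 ^ m * J)) * rj p P (2 ^ m * J + i)) := by
                apply Nat.mul_le_mul_left
                apply Nat.mul_le_mul_right
                omega
            _ = (2 * (2 ^ m * J)) * (M * rj p P (2 ^ m * J + i)) := by ring
        rw [Finset.sum_const, Finset.card_range, smul_eq_mul, ← Finset.mul_sum,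
          ← Finset.mul_sum] at h3
        have h7 : (2 * (2 ^ m * J)) *
            (M * ∑ i ∈ Finset.range (2 ^ m * J), rj p P (J + (2 ^ m * J - J + i))) ≤
            (2 * (2 ^ m * J)) * (27 * n) := Nat.mul_le_mul_left _ hlt'
        have h8 : (2 * (2 ^ m * J)) * (27 * n) = 2 ^ m * J * (54 * n) := by ring
        omega
      have h9 : (m + 1) * (27 * n + 1) = m * (27 * n + 1) + (27 * n + 1) := by ring
      rw [h9, mul_add M]
      exact Nat.add_le_add ih' h2
  have h1 := key M le_rfl
  have h2 := S.sum_rj hG hn J (2 ^ M * J - J)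
  have h3 := Nat.le_of_mul_le_mul_left h1 hM
  omega

end PN

/-- an `N`-series: `[D_i, D_j] <= D_(i+j)`, `D_i ^ p <= D_(2i)`. -/
structure NSer (p : ℕ) (D : ℕ → Subgroup G) : Prop where
  one : D 1 = ⊤
  anti : Antitone D
  comm : ∀ i j, ⁅D i, D j⁆ ≤ D (i + j)
  pow : ∀ i, 1 ≤ i → ∀ x ∈ D i, x ^ p ∈ D (2 * i)

/-- **dyadic Jennings count**. -/
theorem NSer.index_le {p : ℕ} {D : ℕ → Subgroup G} [Finite G] (T : NSer p D) (K : Subgroup G)
    [hK : K.Normal] (hDn : ∀ i, (D i).Normal) {r : ℕ}
    (hr : ∀ D' N : Subgroup G, K ≤ N → ⁅D', D'⁆ ≤ N → (∀ x ∈ D', x ^ (p ^ 2) ∈ N) →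
      N.relIndex D' ≤ p ^ r) (m : ℕ) : (D (2 ^ m) ⊔ K).index ≤ p ^ (m * r) := by
  induction m with
  | zero => rw [pow_zero, T.one, top_sup_eq, Subgroup.index_top, zero_mul, pow_zero]
  | succ m ih =>
    have hle : D (2 ^ (m + 1)) ⊔ K ≤ D (2 ^ m) ⊔ K := by
      apply sup_le_sup_right
      exact T.anti (Nat.pow_le_pow_right (by norm_num) (by omega))
    have hNn : (D (2 ^ (m + 1)) ⊔ K).Normal := by
      have := hDn (2 ^ (m + 1))
      exact Subgroup.sup_normal _ _
    have e : 2 ^ (m + 1) = 2 ^ m + 2 ^ m := by rw [pow_succ]; ring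
    have hc : ⁅D (2 ^ m) ⊔ K, D (2 ^ m) ⊔ K⁆ ≤ D (2 ^ (m + 1)) ⊔ K := by
      have hDn' := hDn (2 ^ m)
      rw [Subgroup.commutator_le]
      intro x hx y hy
      rw [Subgroup.mem_sup_of_normal_right] at hx hy
      obtain ⟨a, ha, b, hb, rfl⟩ := hx
      obtain ⟨c, hc, d, hd, rfl⟩ := hy
      set N := D (2 ^ (m + 1)) ⊔ K with hN
      have hKN : K ≤ N := le_sup_right
      have hac : ⁅a, c⁆ ∈ N := by
        apply (le_sup_left : D (2 ^ (m + 1)) ≤ N)
        rw [e]
        exact T.comm _ _ (Subgroup.commutator_mem_commutator ha hc)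
      -- work in the quotient
      have hmk : ∀ g : G, g ∈ N ↔ (QuotientGroup.mk g : G ⧸ N) = 1 := fun g =>
        (QuotientGroup.eq_one_iff g).symm
      rw [hmk]
      have hb1 : (QuotientGroup.mk b : G ⧸ N) = 1 := (hmk b).1 (hKN hb)
      have hd1 : (QuotientGroup.mk d : G ⧸ N) = 1 := (hmk d).1 (hKN hd)
      have hac1 : (QuotientGroup.mk ⁅a, c⁆ : G ⧸ N) = 1 := (hmk _).1 hac
      change QuotientGroup.mk' N ⁅a * b, c * d⁆ = 1
      have hb2 : QuotientGroup.mk' N b = 1 := hb1
      have hd2 : QuotientGroup.mk' N d = 1 := hd1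
      rw [map_commutatorElement, map_mul, map_mul, hb2, hd2, mul_one, mul_one,
        ← map_commutatorElement]
      exact hac1
    have hp2 : ∀ x ∈ D (2 ^ m) ⊔ K, x ^ (p ^ 2) ∈ D (2 ^ (m + 1)) ⊔ K := by
      intro x hx
      rw [Subgroup.mem_sup_of_normal_right] at hx
      obtain ⟨a, ha, b, hb, rfl⟩ := hx
      set N := D (2 ^ (m + 1)) ⊔ K with hN
      have hKN : K ≤ N := le_sup_right
      have h1 : a ^ p ∈ N := by
        apply (le_sup_left : D (2 ^ (m + 1)) ≤ N)
        have := T.pow (2 ^ m) (Nat.one_le_two_pow) a ha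
        rwa [← pow_succ'] at this
      have h2 : (a * b) ^ p ∈ N := by
        have hb2 : QuotientGroup.mk' N b = 1 := (QuotientGroup.eq_one_iff b).2 (hKN hb)
        have h3 : QuotientGroup.mk' N ((a * b) ^ p) = 1 := by
          rw [map_pow, map_mul, hb2, mul_one, ← map_pow]
          exact (QuotientGroup.eq_one_iff _).2 h1
        exact (QuotientGroup.eq_one_iff _).1 h3
      rw [pow_two, pow_mul]
      exact N.pow_mem h2 p
    have h3 := hr _ _ le_sup_right hc hp2
    have h4 : (D (2 ^ (m + 1)) ⊔ K).relIndex (D (2 ^ m) ⊔ K) * (D (2 ^ m) ⊔ K).index =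
        (D (2 ^ (m + 1)) ⊔ K).index := Subgroup.relIndex_mul_index hle
    rw [← h4]
    calc (D (2 ^ (m + 1)) ⊔ K).relIndex (D (2 ^ m) ⊔ K) * (D (2 ^ m) ⊔ K).index ≤
        p ^ r * p ^ (m * r) := Nat.mul_le_mul h3 ih
      _ = p ^ ((m + 1) * r) := by rw [← pow_add]; congr 1; ring

end RKC2
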