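import Mathlib
import Pool.Agent.Helper82.RK.Jen
import Pool.Agent.Helper82.RK.Power

/-! Project RK (MP_aa96c4_al): the hypotheses `PN` of the rank bound from STAR. -/

namespace RKC2

open scoped commutatorElement

variable {G : Type*} [Group G] [Finite G] {p : ℕ} [hp : Fact p.Prime]

/-- `PN` from STAR for all `P t`, `t >= 2`. -/
theorem PN.of_star (hG : IsPGroup p G) {P : ℕ → Subgroup G} (hn : ∀ t, (P t).Normal)
    (ha : Antitone P) (hpow : ∀ t, ∀ x ∈ P t, x ^ p ∈ P (t + 1))
    (hstar : ∀ t, 2 ≤ t → ∀ R : Subgroup G, R.Normal → R ≤ P t → ⁅R, P t⁆ ≤ RKP.pw (p ^ t) R)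
    (hclos : ∀ s, 2 ≤ s → ∀ c, P (s + c) ≤ RKP.pw (p ^ c) (P s)) : PN p P 2 where
  normal := hn
  anti := ha
  comm := by
    intro s hs
    refine (hstar s hs (P s) (hn s) le_rfl).trans ?_
    rw [RKP.pw_le]
    intro r hr
    have key : ∀ c, r ^ (p ^ c) ∈ P (s + c) := by
      intro c
      induction c with
      | zero => simpa using hr
      | succ c ih =>
        have h := hpow _ _ ih
        rw [← pow_mul, ← pow_succ] at h
        exact h
    have h := key s
    rwa [← two_mul] at h
  clos := hclos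
  omega := by
    intro s hs
    have S : RKP.Star p (P s) s := ⟨hn s, hs, hstar s hs⟩
    exact ⟨S.Om hG, fun i u => Iff.rfl, S.Om_comm hG⟩

end RKC2
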