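import Mathlib
import Pool.Agent.Helper82.RK.PNStar
import Pool.Agent.Helper60.RK.Dim

/-! Project RK (MP_aa96c4_al): the series `P_t = D_(p^t k)` and `PN` for it, from STAR. -/

namespace RKC2

open scoped commutatorElement
open Pool.Agent.Helper27.BE Pool.Agent.Helper60.RK

/-- `P_t = D_(p^t k)`. -/
noncomputable def PP (p : ℕ) [Fact p.Prime] (G : Type) [Group G] (k t : ℕ) : Subgroup G :=
  dimSub p G (p ^ t * k)

variable {G : Type} [Group G] [Finite G] {p : ℕ} [hp : Fact p.Prime]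

omit [Finite G] in
lemma PP_anti (k : ℕ) : Antitone (PP p G k) := by
  intro s t h
  exact dimSub_anti (Nat.mul_le_mul_right _ (Nat.pow_le_pow_right hp.out.pos h))

omit [Finite G] in
lemma PP_normal (k t : ℕ) : (PP p G k t).Normal := dimSub_normal _

omit [Finite G] in
lemma PP_pow {k t : ℕ} {x : G} (hx : x ∈ PP p G k t) : x ^ p ∈ PP p G k (t + 1) := by
  have h := dimSub_pow_prime hx
  have e : p * (p ^ t * k) = p ^ (t + 1) * k := by rw [pow_succ]; ring
  rwa [e] at h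

/-- D5: `P_(s+c)` is generated by `p^c`-th powers of elements of `P_s`. -/
lemma PP_clos (hG : IsPGroup p G) {k : ℕ} (hk1 : 1 ≤ k) (hk : gam G (k + 1) = ⊥) (s c : ℕ) :
    PP p G k (s + c) ≤ RKP.pw (p ^ c) (PP p G k s) := by
  have hpos : 0 < p ^ (s + c) * k := Nat.mul_pos (pow_pos hp.out.pos _) hk1
  rw [PP, dimSub_eq_closure_class hG hk hpos, Subgroup.closure_le]
  rintro _ ⟨j, i, x, hj1, hjk, hx, hle, rfl⟩
  -- `p ^ i >= p ^ (s + c)`
  have h1 : p ^ (s + c) ≤ p ^ i := by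
    have h2 : p ^ (s + c) * k ≤ k * p ^ i := hle.trans (Nat.mul_le_mul_right _ hjk)
    rw [mul_comm k] at h2
    exact Nat.le_of_mul_le_mul_right h2 hk1
  have h3 : s + c ≤ i := (Nat.pow_le_pow_iff_right hp.out.one_lt).1 h1
  obtain ⟨d, rfl⟩ := Nat.exists_eq_add_of_le h3
  have e1 : x ^ p ^ (s + c + d) = (x ^ p ^ (s + d)) ^ p ^ c := by
    rw [← pow_mul, ← pow_add]; congr 2; ring
  rw [e1]
  apply RKP.mem_pw
  have h4 := dimSub_pow_prime_pow (gam_le_dimSub (p := p) j hx) (s + d)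
  refine dimSub_anti ?_ h4
  have h5 : p ^ c * (p ^ s * k) ≤ p ^ c * (j * p ^ (s + d)) := by
    calc p ^ c * (p ^ s * k) = p ^ (s + c) * k := by rw [pow_add]; ring
      _ ≤ j * p ^ (s + c + d) := hle
      _ = p ^ c * (j * p ^ (s + d)) := by rw [pow_add, pow_add, pow_add]; ring
  exact Nat.le_of_mul_le_mul_left h5 (pow_pos hp.out.pos c)

/-- `PN` for `P_t = D_(p^t k)`, from STAR. -/
theorem PN_dim (hG : IsPGroup p G) {k : ℕ} (hk1 : 1 ≤ k) (hk : gam G (k + 1) = ⊥)
    (hstar : ∀ t, 2 ≤ t → ∀ R : Subgroup G, R.Normal → R ≤ PP p G k t →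
      ⁅R, PP p G k t⁆ ≤ RKP.pw (p ^ t) R) : PN p (PP p G k) 2 :=
  PN.of_star hG (PP_normal k) (PP_anti k) (fun _ _ hx => PP_pow hx) hstar
    (fun s _ c => PP_clos hG hk1 hk s c)

omit [Finite G] in
/-- the dimension series is an `N`-series. -/
theorem NSer_dim : NSer p (dimSub p G) where
  one := dimSub_one
  anti := fun _ _ h => dimSub_anti h
  comm := dimSub_commutator
  pow := by
    intro i _ x hx
    exact dimSub_anti (Nat.mul_le_mul_right _ hp.out.two_le) (dimSub_pow_prime hx)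

/-- **count**: `|G : C_j D_(2^m)(G)| <= p ^ (m r_j)`. -/
theorem index_Cj_dim (hG : IsPGroup p G) {k : ℕ} (S : PN p (PP p G k) 2) {j : ℕ} (hj : 16 ≤ j)
    (m : ℕ) : (dimSub p G (2 ^ m) ⊔ Cj (PP p G k) j).index ≤ p ^ (m * rj p (PP p G k) j) := by
  have hn := PP_normal (p := p) (G := G) k j
  have : (Cj (PP p G k) j).Normal := by
    unfold Cj; infer_instance
  exact NSer_dim.index_le (Cj (PP p G k) j) (fun i => dimSub_normal i)
    (fun D' N hN h1 h2 => S.rank' hG (by omega) hj D' N hN h1 h2) m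

end RKC2
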