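import Mathlib
import Pool.Agent.Helper82.RK.PDim
import Pool.Agent.Helper60.RK.Star

/-! Project RK (MP_aa96c4_al): `PN`, `Star` and the rank bound for `P_t = D_(p^t k)`,
unconditionally. -/

namespace RKC2

open scoped commutatorElement
open Pool.Agent.Helper27.BE Pool.Agent.Helper60.RK

variable {G : Type} [Group G] [Finite G] {p : ℕ} [hp : Fact p.Prime]

/-- STAR for `P_t`. -/
theorem star_PP (hG : IsPGroup p G) {k : ℕ} (hk1 : 1 ≤ k) (hk : gam G (k + 1) = ⊥) {t : ℕ}
    (ht : 2 ≤ t) : RKP.Star p (PP p G k t) t where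
  normal := PP_normal k t
  two := ht
  star := by
    intro R hR hRP
    exact star_le hG hk1 hk hR (RKP.pw_normal hR) (fun r hr => RKP.mem_pw hr)

/-- **`PN` for `P_t = D_(p^t k)`**, `k` at least the class of `G`. -/
theorem PN_PP (hG : IsPGroup p G) {k : ℕ} (hk1 : 1 ≤ k) (hk : gam G (k + 1) = ⊥) :
    PN p (PP p G k) 2 :=
  PN_dim hG hk1 hk (fun _ ht R hR hRP => (star_PP hG hk1 hk ht).star R hR hRP)

end RKC2
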