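import Mathlib

/-! Project RK (MP_aa96c4_al): the number of monomials of small weight. -/

namespace RKT

open Finset

/-- blocks: a product over letters whose factors only depend on the dyadic block. -/
lemma prod_blocks {L : Type*} [Fintype L] (b : L → ℕ) (r : ℕ)
    (hr : ∀ i, (univ.filter (fun l => b l = i)).card ≤ r) (c : ℕ → ℝ) (hc : ∀ i, 1 ≤ c i)
    {N : ℕ} (hN : ∀ l, b l < N) : ∏ l, c (b l) ≤ (∏ i ∈ range N, c i) ^ r := by
  have h1 : ∏ l, c (b l) = ∏ i ∈ range N, ∏ l ∈ univ.filter (fun l => b l = i), c (b l) := by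
    rw [Finset.prod_fiberwise_of_maps_to]
    intro l _
    exact mem_range.2 (hN l)
  rw [h1, ← Finset.prod_pow]
  apply Finset.prod_le_prod
  · intro i _
    exact Finset.prod_nonneg (fun l _ => zero_le_one.trans (hc _))
  · intro i _
    have h2 : ∏ l ∈ univ.filter (fun l => b l = i), c (b l) =
        c i ^ (univ.filter (fun l => b l = i)).card := by
      rw [Finset.prod_congr rfl (g := fun _ => c i), Finset.prod_const]
      intro l hl
      rw [(mem_filter.1 hl).2]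
    rw [h2]
    exact pow_le_pow_right₀ (hc i) (hr i)

/-- the factor of one letter. -/
lemma factor_le {p : ℕ} {y : ℝ} (h0 : 0 ≤ y) (h1 : y ≤ 1 / 2) :
    ∑ a ∈ range p, y ^ a ≤ Real.exp (2 * y) := by
  have h2 : ∑ a ∈ range p, y ^ a ≤ (1 - y)⁻¹ := by
    have hs : Summable (fun a : ℕ => y ^ a) := summable_geometric_of_lt_one h0 (by linarith)
    rw [← tsum_geometric_of_lt_one h0 (by linarith)]
    exact hs.sum_le_tsum _ (fun a _ => pow_nonneg h0 a)
  refine h2.trans ?_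
  rw [inv_le_comm₀ (by linarith) (Real.exp_pos _), ← Real.exp_neg]
  -- exp (-2y) <= 1 - y on [0, 1/2]
  have h3 : Real.exp (2 * y) ≥ 1 + 2 * y := by linarith [Real.add_one_le_exp (2 * y)]
  rw [Real.exp_neg, inv_le_comm₀ (Real.exp_pos _) (by linarith)]
  refine le_trans ?_ h3
  rw [inv_le_iff_one_le_mul₀ (by linarith)]
  nlinarith

lemma sum_half (N : ℕ) : ∑ s ∈ range N, (2 : ℝ) * (1 / 2) ^ (s + 1) ≤ 2 := by
  have h : ∑ s ∈ range N, (2 : ℝ) * (1 / 2) ^ (s + 1) = 2 - 2 * (1 / 2) ^ N := by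
    induction N with
    | zero => simp
    | succ N ih => rw [Finset.sum_range_succ, ih]; ring
  rw [h]
  have : (0 : ℝ) ≤ (1 / 2) ^ N := by positivity
  linarith

/-- **monomial count**: at most `r` letters in every dyadic block of weights. -/
theorem count_monomials {p : ℕ} (hp : 2 ≤ p) {L : Type*} [Fintype L] [DecidableEq L] (w : L → ℕ)
    (hw : ∀ l, 1 ≤ w l) (r : ℕ)
    (hr : ∀ i, (univ.filter (fun l => Nat.log 2 (w l) = i)).card ≤ r) (m : ℕ) {β : ℝ}
    (hβ : 0 < β) (hm : 1 ≤ 2 ^ m * β) (R : ℕ) :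
    ((univ.filter (fun α : L → Fin p => ∑ l, (α l : ℕ) * w l < R)).card : ℝ) ≤
      (p : ℝ) ^ (β * R + r * m + 3 * r) := by
  have hp0 : (0 : ℝ) < p := by positivity
  have hp2 : (2 : ℝ) ≤ p := by exact_mod_cast hp
  set x : ℝ := (p : ℝ) ^ (-β) with hx
  have hx0 : 0 < x := Real.rpow_pos_of_pos hp0 _
  have hx1 : x ≤ 1 := Real.rpow_le_one_of_one_le_of_nonpos (by linarith) (by linarith)
  -- generating function
  have h1 : ∑ α : L → Fin p, x ^ (∑ l, (α l : ℕ) * w l) = ∏ l, ∑ a ∈ range p, (x ^ w l) ^ a := by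
    have e1 : ∀ l, ∑ a ∈ range p, (x ^ w l) ^ a = ∑ a : Fin p, (x ^ w l) ^ (a : ℕ) := fun l =>
      (Fin.sum_univ_eq_sum_range (fun a => (x ^ w l) ^ a) p).symm
    simp_rw [e1]
    rw [Finset.prod_univ_sum]
    simp only [Fintype.piFinset_univ]
    refine Finset.sum_congr rfl (fun α _ => ?_)
    rw [← Finset.prod_pow_eq_pow_sum]
    refine Finset.prod_congr rfl (fun l _ => ?_)
    rw [← pow_mul, mul_comm]
  have h2 : ((univ.filter (fun α : L → Fin p => ∑ l, (α l : ℕ) * w l < R)).card : ℝ) * x ^ R ≤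
      ∏ l, ∑ a ∈ range p, (x ^ w l) ^ a := by
    rw [← h1, ← nsmul_eq_mul, ← Finset.sum_const]
    refine le_trans (Finset.sum_le_sum (fun α hα => ?_)) (Finset.sum_le_sum_of_subset_of_nonneg
      (Finset.filter_subset _ _) (fun α _ _ => pow_nonneg hx0.le _))
    exact pow_le_pow_of_le_one hx0.le hx1 (mem_filter.1 hα).2.le
  -- blocks
  set c : ℕ → ℝ := fun i => if i < m then (p : ℝ) else Real.exp (2 * (1 / 2) ^ (i - m + 1)) with hc
  have hc1 : ∀ i, 1 ≤ c i := by
    intro i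
    simp only [hc]
    split_ifs
    · linarith
    · exact Real.one_le_exp (by positivity)
  have h3 : ∀ l, ∑ a ∈ range p, (x ^ w l) ^ a ≤ c (Nat.log 2 (w l)) := by
    intro l
    simp only [hc]
    split_ifs with hlt
    · calc ∑ a ∈ range p, (x ^ w l) ^ a ≤ ∑ a ∈ range p, (1 : ℝ) :=
            Finset.sum_le_sum (fun a _ => pow_le_one₀ (pow_nonneg hx0.le _)
              (pow_le_one₀ hx0.le hx1))
        _ = p := by simp
    · push Not at hlt
      set i := Nat.log 2 (w l) with hi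
      have h4 : 2 ^ i ≤ w l := Nat.pow_log_le_self 2 (by have := hw l; omega)
      have h5 : x ^ w l ≤ (1 / 2) ^ (i - m + 1) := by
        have e1 : x ^ (2 ^ m) ≤ 1 / 2 := by
          rw [hx, ← Real.rpow_natCast, ← Real.rpow_mul hp0.le]
          have e2 : -β * ((2 ^ m : ℕ) : ℝ) ≤ -1 := by push_cast; nlinarith
          calc (p : ℝ) ^ (-β * ((2 ^ m : ℕ) : ℝ)) ≤ (p : ℝ) ^ (-1 : ℝ) :=
                Real.rpow_le_rpow_of_exponent_le (by linarith) e2
            _ = (p : ℝ)⁻¹ := Real.rpow_neg_one _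
            _ ≤ 1 / 2 := by
              rw [one_div]
              exact inv_anti₀ (by norm_num) hp2
        have e3 : 2 ^ m * (i - m + 1) ≤ w l := by
          calc 2 ^ m * (i - m + 1) ≤ 2 ^ m * 2 ^ (i - m) :=
                Nat.mul_le_mul_left _ (Nat.lt_two_pow_self (n := i - m))
            _ = 2 ^ i := by rw [← pow_add]; congr 1; omega
            _ ≤ w l := h4
        calc x ^ w l ≤ x ^ (2 ^ m * (i - m + 1)) := pow_le_pow_of_le_one hx0.le hx1 e3
          _ = (x ^ (2 ^ m)) ^ (i - m + 1) := pow_mul _ _ _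
          _ ≤ (1 / 2) ^ (i - m + 1) := pow_le_pow_left₀ (pow_nonneg hx0.le _) e1 _
      have h6 : (1 / 2 : ℝ) ^ (i - m + 1) ≤ 1 / 2 := by
        rw [pow_succ]
        have : (1 / 2 : ℝ) ^ (i - m) ≤ 1 := pow_le_one₀ (by norm_num) (by norm_num)
        nlinarith
      refine (factor_le (pow_nonneg hx0.le _) (h5.trans h6)).trans ?_
      exact Real.exp_le_exp.2 (by linarith)
  have h4 : ∏ l, ∑ a ∈ range p, (x ^ w l) ^ a ≤ ∏ l, c (Nat.log 2 (w l)) :=
    Finset.prod_le_prod (fun l _ => Finset.sum_nonneg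
      (fun a _ => pow_nonneg (pow_nonneg hx0.le _) _)) (fun l _ => h3 l)
  obtain ⟨N, hN⟩ : ∃ N, ∀ l, Nat.log 2 (w l) < m + N := by
    refine ⟨(∑ l, Nat.log 2 (w l)) + 1, fun l => ?_⟩
    have h5 : Nat.log 2 (w l) ≤ ∑ l, Nat.log 2 (w l) :=
      Finset.single_le_sum (f := fun l => Nat.log 2 (w l)) (fun i _ => Nat.zero_le _)
        (Finset.mem_univ l)
    omega
  have h5 := prod_blocks (fun l => Nat.log 2 (w l)) r hr c hc1 hN
  have h6 : ∏ i ∈ range (m + N), c i ≤ (p : ℝ) ^ m * Real.exp 2 := by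
    rw [Finset.prod_range_add]
    apply mul_le_mul
    · rw [Finset.prod_congr rfl (g := fun _ => (p : ℝ))]
      · simp
      · intro i hi
        simp only [hc]
        rw [if_pos (mem_range.1 hi)]
    · rw [Finset.prod_congr rfl (g := fun s => Real.exp (2 * (1 / 2) ^ (s + 1)))]
      · rw [← Real.exp_sum]
        exact Real.exp_le_exp.2 (sum_half N)
      · intro s _
        simp only [hc]
        rw [if_neg (by omega)]
        congr 4
        omega
    · exact Finset.prod_nonneg (fun i _ => zero_le_one.trans (hc1 _))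
    · positivity
  have h7 : Real.exp 2 ≤ (p : ℝ) ^ 3 := by
    have e1 : Real.exp 1 < 2.7182818286 := Real.exp_one_lt_d9
    have e2 : Real.exp 2 = Real.exp 1 * Real.exp 1 := by rw [← Real.exp_add]; norm_num
    have e3 : (0 : ℝ) < Real.exp 1 := Real.exp_pos 1
    have e4 : Real.exp 2 ≤ 8 := by rw [e2]; nlinarith
    calc Real.exp 2 ≤ 8 := e4
      _ = 2 ^ 3 := by norm_num
      _ ≤ (p : ℝ) ^ 3 := pow_le_pow_left₀ (by norm_num) hp2 3
  have h8 : (∏ i ∈ range (m + N), c i) ^ r ≤ (p : ℝ) ^ (r * m + 3 * r) := by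
    have h0 : 0 ≤ ∏ i ∈ range (m + N), c i :=
      Finset.prod_nonneg (fun i _ => zero_le_one.trans (hc1 _))
    calc (∏ i ∈ range (m + N), c i) ^ r ≤ ((p : ℝ) ^ m * (p : ℝ) ^ 3) ^ r :=
          pow_le_pow_left₀ h0 (h6.trans (mul_le_mul_of_nonneg_left h7 (by positivity))) r
      _ = (p : ℝ) ^ (r * m + 3 * r) := by
        rw [← pow_add, ← pow_mul]; congr 1; ring
  have h9 : ((univ.filter (fun α : L → Fin p => ∑ l, (α l : ℕ) * w l < R)).card : ℝ) * x ^ R ≤
      (p : ℝ) ^ (r * m + 3 * r) := h2.trans (h4.trans (h5.trans h8))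
  have h10 : x ^ R = (p : ℝ) ^ (-(β * R)) := by
    rw [hx, ← Real.rpow_natCast, ← Real.rpow_mul hp0.le]
    congr 1; ring
  have h11 : (p : ℝ) ^ (β * R + r * m + 3 * r) =
      (p : ℝ) ^ (β * R) * (p : ℝ) ^ (r * m + 3 * r) := by
    rw [← Real.rpow_natCast (p : ℝ) (r * m + 3 * r), ← Real.rpow_add hp0]
    push_cast
    congr 1; ring
  rw [h11]
  rw [h10, Real.rpow_neg hp0.le, ← div_eq_mul_inv, div_le_iff₀ (Real.rpow_pos_of_pos hp0 _)] at h9
  rw [mul_comm]
  exact h9

end RKT
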