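import Mathlib

/-! Project RK (MP_aa96c4_al): words, the span of digit monomials along a chain of subgroups, and the
module generated by a functional which kills the heavy words. -/

namespace RKT

open MonoidAlgebra

variable {G : Type*} [Group G]

/-- `x - 1` in `ℤ[G]`. -/
noncomputable def dl (x : G) : MonoidAlgebra ℤ G := MonoidAlgebra.of ℤ G x - 1

/-- ordered product of powers. -/
def op {M : Type*} [Monoid M] {r : ℕ} (x : Fin r → M) (a : Fin r → ℕ) : M :=
  (List.ofFn (fun l => x l ^ a l)).prod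

lemma op_zero {M : Type*} [Monoid M] (x : Fin 0 → M) (a : Fin 0 → ℕ) : op x a = 1 := by
  simp [op]

lemma op_succ {M : Type*} [Monoid M] {r : ℕ} (x : Fin (r + 1) → M) (a : Fin (r + 1) → ℕ) :
    op x a = x 0 ^ a 0 * op (fun l => x l.succ) (fun l => a l.succ) := by
  simp [op, List.ofFn_succ]

/-- heavy words: the additive span of `(x_1 - 1) ⋯ (x_q - 1) g`, `x_i` of weight `m_i`,
`∑ m_i ≥ R`. -/
noncomputable def JJ (F : ℕ → Subgroup G) (R : ℕ) : AddSubgroup (MonoidAlgebra ℤ G) :=
  AddSubgroup.closure {a | ∃ (L : List (ℕ × G)) (g : G), (∀ q ∈ L, q.2 ∈ F q.1) ∧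
    R ≤ (L.map Prod.fst).sum ∧ a = (L.map (fun q => dl q.2)).prod * MonoidAlgebra.of ℤ G g}

/-- `ℤ[X]`. -/
noncomputable def ZS (X : Subgroup G) : AddSubgroup (MonoidAlgebra ℤ G) :=
  AddSubgroup.closure {a | ∃ x ∈ X, a = MonoidAlgebra.of ℤ G x}

lemma ZS_mono {X Y : Subgroup G} (h : X ≤ Y) : ZS X ≤ ZS Y :=
  AddSubgroup.closure_mono (fun _ ⟨x, hx, e⟩ => ⟨x, h hx, e⟩)

lemma top_le_ZS : (⊤ : AddSubgroup (MonoidAlgebra ℤ G)) ≤ ZS (⊤ : Subgroup G) := by
  intro a _
  induction a using MonoidAlgebra.induction_on with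
  | of g => exact AddSubgroup.subset_closure ⟨g, trivial, rfl⟩
  | add a b ha hb => exact (ZS _).add_mem (ha trivial) (hb trivial)
  | smul r a ha => exact (ZS _).zsmul_mem (ha trivial) r

/-- products of generators of two additive subgroups. -/
lemma closure_mul_mem {A : Type*} [Ring A] {S T : Set A} {K : AddSubgroup A}
    (h : ∀ s ∈ S, ∀ t ∈ T, s * t ∈ K) {a b : A} (ha : a ∈ AddSubgroup.closure S)
    (hb : b ∈ AddSubgroup.closure T) : a * b ∈ K := by
  have h1 : ∀ s ∈ S, ∀ b ∈ AddSubgroup.closure T, s * b ∈ K := by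
    intro s hs b hb
    induction hb using AddSubgroup.closure_induction with
    | mem t ht => exact h s hs t ht
    | zero => rw [mul_zero]; exact K.zero_mem
    | add x y _ _ hx hy => rw [mul_add]; exact K.add_mem hx hy
    | neg x _ hx => rw [mul_neg]; exact K.neg_mem hx
  induction ha using AddSubgroup.closure_induction with
  | mem s hs => exact h1 s hs b hb
  | zero => rw [zero_mul]; exact K.zero_mem
  | add x y _ _ hx hy => rw [add_mul]; exact K.add_mem hx hy
  | neg x _ hx => rw [neg_mul]; exact K.neg_mem hx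

lemma mem_top_ZS (b : MonoidAlgebra ℤ G) : b ∈ ZS (⊤ : Subgroup G) := top_le_ZS trivial

lemma JJ_mul_right {F : ℕ → Subgroup G} {R : ℕ} {a : MonoidAlgebra ℤ G} (ha : a ∈ JJ F R)
    (b : MonoidAlgebra ℤ G) : a * b ∈ JJ F R := by
  refine closure_mul_mem (K := JJ F R) ?_ ha (mem_top_ZS b)
  rintro _ ⟨L, g, hL, hR, rfl⟩ _ ⟨x, _, rfl⟩
  refine AddSubgroup.subset_closure ⟨L, g * x, hL, hR, ?_⟩
  rw [map_mul, mul_assoc]

lemma JJ_mul_left {F : ℕ → Subgroup G} {R : ℕ} {a b : MonoidAlgebra ℤ G} (ha : a ∈ ZS (F 0))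
    (hb : b ∈ JJ F R) : a * b ∈ JJ F R := by
  refine closure_mul_mem (K := JJ F R) ?_ ha hb
  rintro _ ⟨x, hx, rfl⟩ _ ⟨L, g, hL, hR, rfl⟩
  have h1 : MonoidAlgebra.of ℤ G x * ((L.map (fun q => dl q.2)).prod * MonoidAlgebra.of ℤ G g) =
      (((0, x) :: L).map (fun q => dl q.2)).prod * MonoidAlgebra.of ℤ G g +
      (L.map (fun q => dl q.2)).prod * MonoidAlgebra.of ℤ G g := by
    simp only [List.map_cons, List.prod_cons, dl]
    rw [sub_mul, one_mul, sub_mul, mul_assoc]
    abel
  rw [h1]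
  refine AddSubgroup.add_mem _ (AddSubgroup.subset_closure ⟨(0, x) :: L, g, ?_, ?_, rfl⟩)
    (AddSubgroup.subset_closure ⟨L, g, hL, hR, rfl⟩)
  · intro q hq
    rcases List.mem_cons.1 hq with rfl | hq
    · exact hx
    · exact hL q hq
  · simpa using hR

/-- `(x_1 - 1)^(b_1) ⋯ (x_r - 1)^(b_r)` is a heavy word if its weight is `≥ R`. -/
lemma op_mem_JJ {F : ℕ → Subgroup G} {R r : ℕ} {x : Fin r → G} {w : Fin r → ℕ}
    (hx : ∀ l, x l ∈ F (w l)) {b : Fin r → ℕ} (hb : R ≤ ∑ l, b l * w l) :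
    op (fun l => dl (x l)) b ∈ JJ F R := by
  have key : ∀ (r : ℕ) (x : Fin r → G) (w : Fin r → ℕ), (∀ l, x l ∈ F (w l)) →
      ∀ b : Fin r → ℕ, ∃ L : List (ℕ × G), (∀ q ∈ L, q.2 ∈ F q.1) ∧
        (L.map Prod.fst).sum = ∑ l, b l * w l ∧
        op (fun l => dl (x l)) b = (L.map (fun q => dl q.2)).prod := by
    intro r
    induction r with
    | zero =>
      intro x w _ b
      exact ⟨[], by simp, by simp, by simp [op_zero]⟩
    | succ r ih =>
      intro x w hx b
      obtain ⟨L, h1, h2, h3⟩ := ih (fun l => x l.succ) (fun l => w l.succ) (fun l => hx l.succ)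
        (fun l => b l.succ)
      refine ⟨List.replicate (b 0) (w 0, x 0) ++ L, ?_, ?_, ?_⟩
      · intro q hq
        rcases List.mem_append.1 hq with hq | hq
        · rw [List.eq_of_mem_replicate hq]
          exact hx 0
        · exact h1 q hq
      · rw [List.map_append, List.sum_append, h2, List.map_replicate, List.sum_replicate,
          Fin.sum_univ_succ, smul_eq_mul]
      · rw [op_succ, h3, List.map_append, List.prod_append, List.map_replicate,
          List.prod_replicate]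
  obtain ⟨L, h1, h2, h3⟩ := key r x w hx b
  refine AddSubgroup.subset_closure ⟨L, 1, h1, by rw [h2]; exact hb, ?_⟩
  rw [h3, map_one, mul_one]

/-- digits: `x_1^(a_1) ⋯ x_r^(a_r)` is a combination of `(x_1 - 1)^(b_1) ⋯ (x_r - 1)^(b_r)`,
`b ≤ a`. -/
lemma of_op_mem {r : ℕ} (x : Fin r → G) (a : Fin r → ℕ) :
    MonoidAlgebra.of ℤ G (op x a) ∈ AddSubgroup.closure {m : MonoidAlgebra ℤ G |
      ∃ b : Fin r → ℕ, (∀ l, b l ≤ a l) ∧ m = op (fun l => dl (x l)) b} := by
  induction r with
  | zero =>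
    apply AddSubgroup.subset_closure
    exact ⟨a, fun l => l.elim0, by rw [op_zero, op_zero, map_one]⟩
  | succ r ih =>
    rw [op_succ, map_mul, map_pow]
    have h1 : MonoidAlgebra.of ℤ G (x 0) ^ a 0 ∈ AddSubgroup.closure
        {m : MonoidAlgebra ℤ G | ∃ c, c ≤ a 0 ∧ m = dl (x 0) ^ c} := by
      have h2 : MonoidAlgebra.of ℤ G (x 0) = dl (x 0) + 1 := by rw [dl, sub_add_cancel]
      rw [h2, (Commute.one_right (dl (x 0))).add_pow]
      refine AddSubgroup.sum_mem _ (fun c hc => ?_)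
      rw [one_pow, mul_one, ← Nat.cast_comm, ← nsmul_eq_mul]
      have hc' : dl (x 0) ^ c ∈ AddSubgroup.closure
          {m : MonoidAlgebra ℤ G | ∃ c, c ≤ a 0 ∧ m = dl (x 0) ^ c} :=
        AddSubgroup.subset_closure ⟨c, Nat.lt_succ_iff.1 (Finset.mem_range.1 hc), rfl⟩
      exact AddSubgroup.nsmul_mem _ hc' _
    refine closure_mul_mem ?_ h1 (ih (fun l => x l.succ) (fun l => a l.succ))
    rintro _ ⟨c, hc, rfl⟩ _ ⟨b, hb, rfl⟩
    refine AddSubgroup.subset_closure ⟨Fin.cons c b, ?_, ?_⟩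
    · intro l
      refine Fin.cases ?_ (fun l => ?_) l
      · simpa using hc
      · simpa using hb l
    · rw [op_succ]
      simp

/-- Data of a chain `1 = X_0 ≤ X_1 ≤ … ≤ X_s = G` with letters and weights. -/
structure ChainData (p : ℕ) (G : Type*) [Group G] where
  /-- number of stages -/
  s : ℕ
  /-- the chain -/
  X : ℕ → Subgroup G
  bot : X 0 = ⊥
  top : X s = ⊤
  /-- the weights on `X (i+1)` -/
  F : ℕ → ℕ → Subgroup G
  F0 : ∀ i < s, F i 0 = X (i + 1)
  mono : ∀ i < s, X i ≤ X (i + 1)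
  /-- number of letters -/
  r : ℕ → ℕ
  /-- letters -/
  x : (i : ℕ) → Fin (r i) → G
  /-- weights of the letters -/
  w : (i : ℕ) → Fin (r i) → ℕ
  mem : ∀ i < s, ∀ l, x i l ∈ F i (w i l)
  digits : ∀ i < s, ∀ g ∈ X (i + 1), ∃ y ∈ X i, ∃ a : Fin (r i) → ℕ, (∀ l, a l < p) ∧
    g = y * op (x i) a
  /-- the bounds -/
  R : ℕ → ℕ

namespace ChainData

variable {p : ℕ} (D : ChainData p G)

/-- number of light monomials of stage `i` -/
noncomputable def cnt (i : ℕ) : ℕ :=
  (Finset.univ.filter (fun α : Fin (D.r i) → Fin p => ∑ l, (α l : ℕ) * D.w i l < D.R i)).card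

open Classical in
/-- light monomials of stage `i`. -/
noncomputable def low (i : ℕ) : Finset (MonoidAlgebra ℤ G) :=
  (Finset.univ.filter (fun α : Fin (D.r i) → Fin p => ∑ l, (α l : ℕ) * D.w i l < D.R i)).image
    (fun α => op (fun l => dl (D.x i l)) (fun l => (α l : ℕ)))

open Classical in
/-- products of light monomials of the stages `< i`. -/
noncomputable def mon : ℕ → Finset (MonoidAlgebra ℤ G)
  | 0 => {1}
  | i + 1 => Finset.image₂ (· * ·) (mon i) (D.low i)

lemma card_mon (i : ℕ) : (D.mon i).card ≤ ∏ j ∈ Finset.range i, D.cnt j := by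
  classical
  induction i with
  | zero => simp [mon]
  | succ i ih =>
    rw [Finset.prod_range_succ, mon]
    refine (Finset.card_image₂_le _ _ _).trans (Nat.mul_le_mul ih ?_)
    exact Finset.card_image_le

/-- all heavy words. -/
noncomputable def KK : AddSubgroup (MonoidAlgebra ℤ G) :=
  ⨆ i : Fin D.s, JJ (D.F i) (D.R i)

lemma KK_mul_right {a : MonoidAlgebra ℤ G} (ha : a ∈ D.KK) (b : MonoidAlgebra ℤ G) :
    a * b ∈ D.KK := by
  unfold KK at ha ⊢
  induction ha using AddSubgroup.iSup_induction' with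
  | hp i x hx => exact AddSubgroup.mem_iSup_of_mem i (JJ_mul_right hx b)
  | h1 => rw [zero_mul]; exact AddSubgroup.zero_mem _
  | hadd x y _ _ hx hy => rw [add_mul]; exact AddSubgroup.add_mem _ hx hy

theorem span_mon (i : ℕ) (hi : i ≤ D.s) :
    ZS (D.X i) ≤ AddSubgroup.closure (D.mon i : Set (MonoidAlgebra ℤ G)) ⊔ D.KK := by
  classical
  induction i with
  | zero =>
    rw [D.bot, ZS, AddSubgroup.closure_le]
    rintro _ ⟨x, hx, rfl⟩
    rw [Subgroup.mem_bot.1 hx, map_one]
    apply AddSubgroup.mem_sup_left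
    apply AddSubgroup.subset_closure
    simp [mon]
  | succ i ih =>
    have his : i < D.s := by omega
    have ih' := ih (by omega)
    have step : ∀ c ∈ ZS (D.X i), ∀ b : Fin (D.r i) → ℕ, (∀ l, b l < p) →
        c * op (fun l => dl (D.x i l)) b ∈
          AddSubgroup.closure (D.mon (i + 1) : Set (MonoidAlgebra ℤ G)) ⊔ D.KK := by
      intro c hc b hb
      by_cases hR : ∑ l, b l * D.w i l < D.R i
      · have hc' := ih' hc
        rw [AddSubgroup.mem_sup] at hc'
        obtain ⟨u, hu, v, hv, rfl⟩ := hc'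
        rw [add_mul]
        refine AddSubgroup.add_mem _ ?_ (AddSubgroup.mem_sup_right (D.KK_mul_right hv _))
        apply AddSubgroup.mem_sup_left
        have h1 : op (fun l => dl (D.x i l)) b ∈ AddSubgroup.closure
            (D.low i : Set (MonoidAlgebra ℤ G)) := by
          apply AddSubgroup.subset_closure
          rw [Finset.mem_coe, low, Finset.mem_image]
          exact ⟨fun l => ⟨b l, hb l⟩, by simpa using hR, rfl⟩
        refine closure_mul_mem ?_ hu h1
        intro s hs t ht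
        apply AddSubgroup.subset_closure
        rw [Finset.mem_coe, mon]
        exact Finset.mem_image₂_of_mem hs ht
      · push Not at hR
        apply AddSubgroup.mem_sup_right
        refine AddSubgroup.mem_iSup_of_mem ⟨i, his⟩ ?_
        apply JJ_mul_left
        · change c ∈ ZS (D.F i 0)
          rw [D.F0 i his]
          exact ZS_mono (D.mono i his) hc
        · exact op_mem_JJ (D.mem i his) hR
    rw [ZS, AddSubgroup.closure_le]
    rintro _ ⟨g, hg, rfl⟩
    obtain ⟨y, hy, a, ha, rfl⟩ := D.digits i his g hg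
    rw [map_mul]
    have hyZ : MonoidAlgebra.of ℤ G y ∈ AddSubgroup.closure
        {m : MonoidAlgebra ℤ G | m = MonoidAlgebra.of ℤ G y} :=
      AddSubgroup.subset_closure rfl
    refine closure_mul_mem ?_ hyZ (of_op_mem (D.x i) a)
    rintro _ rfl _ ⟨b, hb, rfl⟩
    exact step _ (AddSubgroup.subset_closure ⟨y, hy, rfl⟩) b (fun l => (hb l).trans_lt (ha l))

theorem top_le_span :
    (⊤ : AddSubgroup (MonoidAlgebra ℤ G)) ≤
      AddSubgroup.closure (D.mon D.s : Set (MonoidAlgebra ℤ G)) ⊔ D.KK := by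
  have h := D.span_mon D.s le_rfl
  rw [D.top] at h
  exact top_le_ZS.trans h

end ChainData

end RKT
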