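import Mathlib
import Pool.Agent.Helper82.RK.Span

/-! Project RK (MP_aa96c4_al): a functional which kills the heavy words detects a central element in
a small module. -/

namespace RKT

open MonoidAlgebra

variable {G : Type} [Group G] {T : Type} [AddCommGroup T]

/-- additive extension of a function on `G` to `ℤ[G]`. -/
noncomputable def ext (f : G → T) : MonoidAlgebra ℤ G →+ T :=
  (Finsupp.liftAddHom fun x => zmultiplesHom T (f x)).comp
    (MonoidAlgebra.coeffAddEquiv (R := ℤ) (M := G)).toAddMonoidHom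

lemma ext_of (f : G → T) (x : G) : ext f (MonoidAlgebra.of ℤ G x) = f x := by
  change Finsupp.liftAddHom (fun x => zmultiplesHom T (f x)) (Finsupp.single x (1 : ℤ)) = f x
  rw [Finsupp.liftAddHom_apply_single]
  simp

lemma ext_one (f : G → T) : ext f 1 = f 1 := by
  rw [← map_one (MonoidAlgebra.of ℤ G), ext_of]

/-- two additive maps agreeing on the group elements agree. -/
lemma hom_ext {φ ψ : MonoidAlgebra ℤ G →+ T}
    (h : ∀ x, φ (MonoidAlgebra.of ℤ G x) = ψ (MonoidAlgebra.of ℤ G x)) : φ = ψ := by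
  refine AddMonoidHom.ext fun a => ?_
  have ha := mem_top_ZS a
  induction ha using AddSubgroup.closure_induction with
  | mem x hx =>
    obtain ⟨x, _, rfl⟩ := hx
    exact h x
  | zero => simp
  | add x y _ _ hx hy => rw [map_add, map_add, hx, hy]
  | neg x _ hx => rw [map_neg, map_neg, hx]

/-- right translate -/
def tr (g : G) (f : G → T) : G → T := fun x => f (x * g)

lemma ext_tr (g : G) (f : G → T) (a : MonoidAlgebra ℤ G) :
    ext (tr g f) a = ext f (a * MonoidAlgebra.of ℤ G g) := by
  have h : ext (tr g f) = (ext f).comp (AddMonoidHom.mulRight (MonoidAlgebra.of ℤ G g)) := by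
    apply hom_ext
    intro x
    simp only [AddMonoidHom.comp_apply, AddMonoidHom.mulRight_apply]
    rw [← map_mul, ext_of, ext_of, tr]
  rw [h]
  rfl

/-- the module of the translates. -/
def TM (f : G → T) : AddSubgroup (G → T) := AddSubgroup.closure (Set.range (fun g => tr g f))

lemma tr_mem (f : G → T) {a : G → T} (ha : a ∈ TM f) (g : G) : tr g a ∈ TM f := by
  induction ha using AddSubgroup.closure_induction with
  | mem x hx =>
    obtain ⟨h, rfl⟩ := hx
    apply AddSubgroup.subset_closure
    refine ⟨g * h, ?_⟩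
    funext x
    simp [tr, mul_assoc]
  | zero => exact (TM f).zero_mem
  | add x y _ _ hx hy => exact (TM f).add_mem hx hy
  | neg x _ hx => exact (TM f).neg_mem hx

noncomputable instance (f : G → T) : DistribMulAction G (TM f) where
  smul g a := ⟨tr g a.1, tr_mem f a.2 g⟩
  one_smul a := by
    apply Subtype.ext
    funext x
    change a.1 (x * 1) = a.1 x
    rw [mul_one]
  mul_smul g h a := by
    apply Subtype.ext
    funext x
    change a.1 (x * (g * h)) = a.1 (x * g * h)
    rw [mul_assoc]
  smul_zero g := rfl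
  smul_add g a b := rfl

lemma ext_add (f g : G → T) (a : MonoidAlgebra ℤ G) : ext (f + g) a = ext f a + ext g a := by
  have h : ext (f + g) = ext f + ext g := by
    apply hom_ext
    intro x
    rw [AddMonoidHom.add_apply, ext_of, ext_of, ext_of]; rfl
  rw [h]; rfl

lemma ext_neg (f : G → T) (a : MonoidAlgebra ℤ G) : ext (-f) a = -ext f a := by
  have h : ext (-f) = -ext f := by
    apply hom_ext
    intro x
    rw [AddMonoidHom.neg_apply, ext_of, ext_of]; rfl
  rw [h]; rfl

lemma ext_zero (a : MonoidAlgebra ℤ G) : ext (0 : G → T) a = 0 := by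
  have h : ext (0 : G → T) = 0 := by
    apply hom_ext
    intro x
    rw [ext_of]; rfl
  rw [h]; rfl

/-- a right ideal killed by `f` is killed by the module. -/
lemma kills_TM {f : G → T} {K : AddSubgroup (MonoidAlgebra ℤ G)}
    (hK : ∀ a ∈ K, ∀ b, a * b ∈ K) (hf : K ≤ (ext f).ker) {a : G → T} (ha : a ∈ TM f) :
    K ≤ (ext a).ker := by
  intro k hk
  rw [AddMonoidHom.mem_ker]
  induction ha using AddSubgroup.closure_induction with
  | mem x hx =>
    obtain ⟨h, rfl⟩ := hx
    change ext (tr h f) k = 0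
    rw [ext_tr]
    exact hf (hK _ hk _)
  | zero => exact ext_zero k
  | add x y _ _ hx hy => rw [ext_add, hx, hy, add_zero]
  | neg x _ hx => rw [ext_neg, hx, neg_zero]

/-- **detection**: if `f` kills a right ideal modulo which `ℤ[G]` is generated by the finite set
`S`, then the module of translates has at most `|T| ^ |S|` elements. -/
theorem detect_span {p e : ℕ} (hp : p.Prime) (hT : Nat.card T = p ^ e)
    {K : AddSubgroup (MonoidAlgebra ℤ G)} (hK : ∀ a ∈ K, ∀ b, a * b ∈ K)
    (S : Finset (MonoidAlgebra ℤ G))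
    (hS : (⊤ : AddSubgroup (MonoidAlgebra ℤ G)) ≤
      AddSubgroup.closure (S : Set (MonoidAlgebra ℤ G)) ⊔ K)
    {f : G → T} (hf : K ≤ (ext f).ker) {z : G} (hz : f z ≠ f 1) :
    ∃ (V : Type) (_ : AddCommGroup V) (_ : DistribMulAction G V) (m : ℕ),
      m ≤ e * S.card ∧ Nat.card V = p ^ m ∧ ∃ v : V, z • v ≠ v := by
  have hTf : Finite T := Nat.finite_of_card_ne_zero (by rw [hT]; exact pow_ne_zero _ hp.ne_zero)
  let φ : TM f →+ (S → T) :=
    { toFun := fun a m => ext a.1 m.1
      map_zero' := by funext m; exact ext_zero _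
      map_add' := fun a b => by funext m; exact ext_add _ _ _ }
  have hφ : Function.Injective φ := by
    rw [injective_iff_map_eq_zero]
    intro a ha
    have h1 : ∀ m ∈ S, ext a.1 m = 0 := fun m hm => congrFun ha ⟨m, hm⟩
    have h2 : AddSubgroup.closure (S : Set (MonoidAlgebra ℤ G)) ⊔ K ≤ (ext a.1).ker := by
      apply sup_le
      · rw [AddSubgroup.closure_le]
        intro m hm
        exact h1 m hm
      · exact kills_TM hK hf a.2
    apply Subtype.ext
    funext x
    have h3 := h2 (hS (trivial : MonoidAlgebra.of ℤ G x ∈ ⊤))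
    rw [AddMonoidHom.mem_ker, ext_of] at h3
    exact h3
  have h4 := AddSubgroup.card_dvd_of_injective φ hφ
  have h5 : Nat.card (S → T) = p ^ (e * S.card) := by
    rw [Nat.card_fun, hT, ← pow_mul, Nat.card_eq_fintype_card, Fintype.card_coe]
  rw [h5, Nat.dvd_prime_pow hp] at h4
  obtain ⟨m, hm, hV⟩ := h4
  refine ⟨TM f, inferInstance, inferInstance, m, hm, hV, ?_⟩
  refine ⟨⟨f, ?_⟩, ?_⟩
  · apply AddSubgroup.subset_closure
    refine ⟨1, ?_⟩
    funext x
    simp [tr]
  · intro h
    apply hz
    have h6 := congrFun (congrArg Subtype.val h) 1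
    change f (1 * z) = f 1 at h6
    rwa [one_mul] at h6

/-- **detection for chains**. -/
theorem ChainData.detect {p e : ℕ} (hp : p.Prime) (hT : Nat.card T = p ^ e) (D : ChainData p G)
    {f : G → T} (hf : ∀ i < D.s, JJ (D.F i) (D.R i) ≤ (ext f).ker) {z : G} (hz : f z ≠ f 1) :
    ∃ (V : Type) (_ : AddCommGroup V) (_ : DistribMulAction G V) (m : ℕ),
      m ≤ e * ∏ i ∈ Finset.range D.s, D.cnt i ∧ Nat.card V = p ^ m ∧ ∃ v : V, z • v ≠ v := by
  obtain ⟨V, i1, i2, m, h1, h2, h3⟩ := detect_span hp hT (K := D.KK)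
    (fun a ha b => D.KK_mul_right ha b) (D.mon D.s) D.top_le_span (f := f)
    (iSup_le fun i => hf i.1 i.2) hz
  exact ⟨V, i1, i2, m, h1.trans (Nat.mul_le_mul_left _ (D.card_mon D.s)), h2, h3⟩

end RKT
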