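import Mathlib
import Pool.Agent.Helper82.RK.Span

/-! Project RK (MP_aa96c4_al): letters adapted to a weight filtration, modulo a subgroup. -/

namespace RKT

open scoped commutatorElement

variable {G : Type*} [Group G]

lemma op_append {M : Type*} [Monoid M] {r s : ℕ} (x : Fin r → M) (y : Fin s → M) (a : Fin r → ℕ)
    (b : Fin s → ℕ) : op (Fin.append x y) (Fin.append a b) = op x a * op y b := by
  unfold op
  rw [← List.prod_append, ← List.ofFn_fin_append]
  congr 2
  funext l
  refine Fin.addCases (fun l => ?_) (fun l => ?_) l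
  · simp
  · simp

/-- `B <x>` for `x` normalising `B`. -/
def adj (B : Subgroup G) (x : G) (h : ∀ m : ℤ, ∀ b ∈ B, x ^ m * b * (x ^ m)⁻¹ ∈ B) : Subgroup G where
  carrier := {g | ∃ y ∈ B, ∃ m : ℤ, g = y * x ^ m}
  one_mem' := ⟨1, B.one_mem, 0, by simp⟩
  mul_mem' := by
    rintro _ _ ⟨y, hy, m, rfl⟩ ⟨y', hy', m', rfl⟩
    refine ⟨y * (x ^ m * y' * (x ^ m)⁻¹), B.mul_mem hy (h m y' hy'), m + m', ?_⟩
    rw [zpow_add]; group
  inv_mem' := by
    rintro _ ⟨y, hy, m, rfl⟩
    refine ⟨x ^ (-m) * y⁻¹ * (x ^ (-m))⁻¹, h _ _ (B.inv_mem hy), -m, ?_⟩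
    group

/-- the index of `B` in `B <x>`. -/
lemma card_adj {p : ℕ} (hp : p.Prime) [Finite G] {B : Subgroup G} {x : G}
    (h : ∀ m : ℤ, ∀ b ∈ B, x ^ m * b * (x ^ m)⁻¹ ∈ B) (hx : x ∉ B) (hxp : x ^ p ∈ B) :
    (∀ g ∈ adj B x h, ∃ y ∈ B, ∃ a : ℕ, a < p ∧ g = y * x ^ a) ∧
      B.relIndex (adj B x h) = p := by
  have hmem : ∀ g ∈ adj B x h, ∃ y ∈ B, ∃ a : ℕ, a < p ∧ g = y * x ^ a := by
    rintro _ ⟨b, hb, m, rfl⟩
    have hp0 : (p : ℤ) ≠ 0 := by exact_mod_cast hp.ne_zero
    have h2 := Int.emod_nonneg m hp0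
    have h1 : m % p < p := Int.emod_lt_of_pos _ (by exact_mod_cast hp.pos)
    refine ⟨b * x ^ ((p : ℤ) * (m / p)), B.mul_mem hb ?_, (m % p).toNat, by omega, ?_⟩
    · rw [zpow_mul, zpow_natCast]
      exact B.zpow_mem hxp _
    · rw [← zpow_natCast x ((m % (p : ℤ)).toNat), Int.toNat_of_nonneg h2, mul_assoc, ← zpow_add,
        Int.mul_ediv_add_emod]
  refine ⟨hmem, ?_⟩
  have hle : B ≤ adj B x h := fun b hb => ⟨b, hb, 0, by simp⟩
  have hinj : ∀ a b : ℕ, a < b → b < p → x ^ (b - a) ∉ B := by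
    intro a b hab hbp hmemB
    apply hx
    have hcop : Nat.Coprime (b - a) p := by
      rw [Nat.coprime_comm, hp.coprime_iff_not_dvd]
      intro hdvd
      have := Nat.le_of_dvd (by omega) hdvd
      omega
    have hbez : ((b - a : ℕ) : ℤ) * Nat.gcdA (b - a) p + (p : ℤ) * Nat.gcdB (b - a) p = 1 := by
      rw [← Nat.gcd_eq_gcd_ab, hcop.gcd_eq_one, Nat.cast_one]
    have e : x = (x ^ (b - a)) ^ (Nat.gcdA (b - a) p) * (x ^ p) ^ (Nat.gcdB (b - a) p) := by
      rw [← zpow_natCast x (b - a), ← zpow_natCast x p, ← zpow_mul, ← zpow_mul, ← zpow_add, hbez,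
        zpow_one]
    rw [e]
    exact B.mul_mem (B.zpow_mem hmemB _) (B.zpow_mem hxp _)
  let f : B × Fin p → adj B x h := fun q => ⟨q.1 * x ^ (q.2 : ℕ), q.1, q.1.2, (q.2 : ℕ), by
    rw [zpow_natCast]⟩
  have hf : Function.Bijective f := by
    constructor
    · have key : ∀ (y y' : B) (a b : Fin p), a < b → (y : G) * x ^ (a : ℕ) = y' * x ^ (b : ℕ) →
          False := by
        intro y y' a b hab e
        apply hinj a b hab b.2
        have e2 : x ^ ((b : ℕ) - (a : ℕ)) = (y' : G)⁻¹ * y := by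
          have e3 : x ^ (b : ℕ) = x ^ ((b : ℕ) - (a : ℕ)) * x ^ (a : ℕ) := by
            rw [← pow_add]; congr 1
            have : (a : ℕ) < b := hab
            omega
          rw [e3, ← mul_assoc] at e
          have e4 := mul_right_cancel e
          rw [e4]; group
        rw [e2]
        exact B.mul_mem (B.inv_mem y'.2) y.2
      rintro ⟨y, a⟩ ⟨y', b⟩ hab
      have e : (y : G) * x ^ (a : ℕ) = y' * x ^ (b : ℕ) := congrArg Subtype.val hab
      rcases lt_trichotomy a b with hlt | heq | hgt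
      · exact (key y y' a b hlt e).elim
      · subst heq
        have e2 := mul_right_cancel e
        rw [Prod.mk.injEq]
        exact ⟨Subtype.ext e2, rfl⟩
      · exact (key y' y b a hgt e.symm).elim
    · rintro ⟨g, hg⟩
      obtain ⟨y, hy, a, ha, rfl⟩ := hmem g hg
      exact ⟨(⟨y, hy⟩, ⟨a, ha⟩), rfl⟩
  have h1 : Nat.card (adj B x h) = Nat.card B * p := by
    rw [← Nat.card_congr (Equiv.ofBijective f hf), Nat.card_prod, Nat.card_eq_fintype_card (α := Fin p),
      Fintype.card_fin]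
  have h2 : (⊥ : Subgroup G).relIndex B * B.relIndex (adj B x h) =
      (⊥ : Subgroup G).relIndex (adj B x h) := Subgroup.relIndex_mul_relIndex _ _ _ bot_le hle
  rw [Subgroup.relIndex_bot_left, Subgroup.relIndex_bot_left, h1] at h2
  exact Nat.eq_of_mul_eq_mul_left Nat.card_pos h2

/-- one layer `A / B`, elementary abelian: letters from `H`, `A = H B`. -/
theorem layer {p : ℕ} (hp : p.Prime) [Finite G] (H A : Subgroup G) (hHA : H ≤ A) :
    ∀ (n : ℕ) (B : Subgroup G), B.relIndex A ≤ n → B ≤ A → A ≤ H ⊔ B → ⁅A, A⁆ ≤ B →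
      (∀ x ∈ A, x ^ p ∈ B) →
      ∃ (r : ℕ) (x : Fin r → G), (∀ l, x l ∈ H) ∧ p ^ r = B.relIndex A ∧
        ∀ g ∈ A, ∃ y ∈ B, ∃ a : Fin r → ℕ, (∀ l, a l < p) ∧ g = y * op x a := by
  intro n
  induction n with
  | zero =>
    intro B hn hBA
    exfalso
    have : B.relIndex A ≠ 0 := Subgroup.index_ne_zero_of_finite
    omega
  | succ n ih =>
    intro B hn hBA hgen hc hpw
    by_cases hAB : A ≤ B
    · refine ⟨0, fun l => l.elim0, fun l => l.elim0, ?_, fun g hg => ⟨g, hAB hg, fun l => l.elim0,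
        fun l => l.elim0, by rw [op_zero, mul_one]⟩⟩
      rw [pow_zero, Subgroup.relIndex_eq_one.2 hAB]
    · -- a letter outside `B`
      have hex : ∃ x ∈ H, x ∉ B := by
        by_contra hcon
        push Not at hcon
        exact hAB (hgen.trans (sup_le hcon le_rfl))
      obtain ⟨x, hxH, hxB⟩ := hex
      have hxA : x ∈ A := hHA hxH
      have hconj : ∀ u ∈ A, ∀ b ∈ B, u * b * u⁻¹ ∈ B := by
        intro u hu b hb
        have h1 : ⁅u, b⁆ ∈ B := hc (Subgroup.commutator_mem_commutator hu (hBA hb))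
        have h2 : u * b * u⁻¹ = ⁅u, b⁆ * b := by rw [commutatorElement_def]; group
        rw [h2]
        exact B.mul_mem h1 hb
      have hx : ∀ m : ℤ, ∀ b ∈ B, x ^ m * b * (x ^ m)⁻¹ ∈ B := fun m b hb =>
        hconj _ (A.zpow_mem hxA m) b hb
      obtain ⟨h1, h2⟩ := card_adj hp hx hxB (hpw x hxA)
      set B' := adj B x hx with hB'
      have hBB' : B ≤ B' := fun b hb => ⟨b, hb, 0, by simp⟩
      have hB'A : B' ≤ A := by
        rintro _ ⟨b, hb, m, rfl⟩
        exact A.mul_mem (hBA hb) (A.zpow_mem hxA m)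
      have h3 : B.relIndex B' * B'.relIndex A = B.relIndex A :=
        Subgroup.relIndex_mul_relIndex _ _ _ hBB' hB'A
      rw [h2] at h3
      have h4 : B'.relIndex A ≤ n := by
        have h5 : B'.relIndex A ≠ 0 := Subgroup.index_ne_zero_of_finite
        have h6 := hp.two_le
        have h7 : 2 * B'.relIndex A ≤ p * B'.relIndex A := Nat.mul_le_mul_right _ h6
        omega
      obtain ⟨r, y, hy1, hy2, hy3⟩ := ih B' h4 hB'A (hgen.trans (sup_le_sup_left hBB' H))
        (hc.trans hBB') (fun g hg => hBB' (hpw g hg))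
      refine ⟨r + 1, Fin.cons x y, ?_, ?_, ?_⟩
      · intro l
        refine Fin.cases ?_ (fun l => ?_) l
        · simpa using hxH
        · simpa using hy1 l
      · rw [pow_succ, hy2, mul_comm, h3]
      · intro g hg
        obtain ⟨b', hb', a, ha, rfl⟩ := hy3 g hg
        obtain ⟨b, hb, c, hc', rfl⟩ := h1 b' hb'
        refine ⟨b, hb, Fin.cons c a, ?_, ?_⟩
        · intro l
          refine Fin.cases ?_ (fun l => ?_) l
          · simpa using hc'
          · simpa using ha l
        · rw [op_succ]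
          simp [mul_assoc]

/-- **letters** adapted to a filtration `H m`, with `A m = H m Y` and `A N = Y`. -/
theorem letters {p : ℕ} (hp : p.Prime) [Finite G] (H A : ℕ → Subgroup G) (hHA : ∀ m, H m ≤ A m)
    (hanti : ∀ m, A (m + 1) ≤ A m) (hgen : ∀ m, A m ≤ H m ⊔ A (m + 1))
    (hc : ∀ m, ⁅A m, A m⁆ ≤ A (m + 1)) (hpw : ∀ m, ∀ x ∈ A m, x ^ p ∈ A (m + 1)) (N : ℕ) :
    ∃ (r : ℕ) (x : Fin r → G) (w : Fin r → ℕ), (∀ l, x l ∈ H (w l)) ∧ (∀ l, w l < N) ∧
      (∀ m, m < N → p ^ (Finset.univ.filter (fun l => w l = m)).card = (A (m + 1)).relIndex (A m)) ∧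
      ∀ g ∈ A 0, ∃ y ∈ A N, ∃ a : Fin r → ℕ, (∀ l, a l < p) ∧ g = y * op x a := by
  induction N with
  | zero =>
    exact ⟨0, fun l => l.elim0, fun l => l.elim0, fun l => l.elim0, fun l => l.elim0,
      fun m hm => absurd hm (Nat.not_lt_zero _),
      fun g hg => ⟨g, hg, fun l => l.elim0, fun l => l.elim0, by rw [op_zero, mul_one]⟩⟩
  | succ N ih =>
    obtain ⟨r, x, w, h1, h2, h3, h4⟩ := ih
    obtain ⟨s, y, k1, k2, k3⟩ := layer hp (H N) (A N) (hHA N) _ (A (N + 1)) le_rfl (hanti N)
      (hgen N) (hc N) (hpw N)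
    refine ⟨s + r, Fin.append y x, Fin.append (fun _ => N) w, ?_, ?_, ?_, ?_⟩
    · intro l
      refine Fin.addCases (fun l => ?_) (fun l => ?_) l
      · simpa using k1 l
      · simpa using h1 l
    · intro l
      refine Fin.addCases (fun l => ?_) (fun l => ?_) l
      · simp
      · have := h2 l
        simp
        omega
    · intro m hm
      have hcard : (Finset.univ.filter (fun l => (Fin.append (fun _ : Fin s => N) w) l = m)).card =
          (Finset.univ.filter (fun _ : Fin s => N = m)).card +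
          (Finset.univ.filter (fun l => w l = m)).card := by
        rw [Finset.card_filter, Finset.card_filter, Finset.card_filter, Fin.sum_univ_add]
        congr 1
        · simp
        · simp
      rw [hcard]
      rcases Nat.lt_succ_iff_lt_or_eq.1 hm with hlt | heq
      · have e1 : (Finset.univ.filter (fun _ : Fin s => N = m)).card = 0 := by
          rw [Finset.card_eq_zero, Finset.filter_eq_empty_iff]
          intro _ _
          omega
        rw [e1, zero_add]
        exact h3 m hlt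
      · subst heq
        have e1 : (Finset.univ.filter (fun _ : Fin s => m = m)).card = s := by simp
        have e2 : (Finset.univ.filter (fun l => w l = m)).card = 0 := by
          rw [Finset.card_eq_zero, Finset.filter_eq_empty_iff]
          intro l _
          have := h2 l
          omega
        rw [e1, e2, add_zero]
        exact k2
    · intro g hg
      obtain ⟨u, hu, a, ha, rfl⟩ := h4 g hg
      obtain ⟨v, hv, b, hb, rfl⟩ := k3 u hu
      refine ⟨v, hv, Fin.append b a, ?_, ?_⟩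
      · intro l
        refine Fin.addCases (fun l => ?_) (fun l => ?_) l
        · simpa using hb l
        · simpa using ha l
      · rw [op_append, mul_assoc]

end RKT
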