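import Mathlib
import Pool.Agent.Helper82.RK.Letters
import Pool.Agent.Helper82.RK.Detect

/-! Project RK (MP_aa96c4_al): generators of `ℤ[X]` modulo ideals. -/

namespace RKT

open MonoidAlgebra

section Gen

variable {G : Type*} [Group G]

/-- `ℤ[X]` is generated by at most `N` elements modulo `I`. -/
def Gen (X : Subgroup G) (I : AddSubgroup (MonoidAlgebra ℤ G)) (N : ℕ) : Prop :=
  ∃ S : Finset (MonoidAlgebra ℤ G), S.card ≤ N ∧
    ZS X ≤ AddSubgroup.closure (S : Set (MonoidAlgebra ℤ G)) ⊔ I

lemma Gen.mono {X : Subgroup G} {I J : AddSubgroup (MonoidAlgebra ℤ G)} {N M : ℕ}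
    (h : Gen X I N) (hI : I ≤ J) (hN : N ≤ M) : Gen X J M := by
  obtain ⟨S, h1, h2⟩ := h
  exact ⟨S, h1.trans hN, h2.trans (sup_le_sup_left hI _)⟩

/-- one stage: `X = Y {op x a}`. -/
theorem gen_stage {p : ℕ} {X Y : Subgroup G} {I : AddSubgroup (MonoidAlgebra ℤ G)}
    (hIl : ∀ a ∈ ZS Y, ∀ b ∈ I, a * b ∈ I) (hIr : ∀ a ∈ I, ∀ b ∈ ZS X, a * b ∈ I)
    {N : ℕ} (hY : Gen Y I N) {r : ℕ} {x : Fin r → G} {w : Fin r → ℕ} {R : ℕ}
    (hx : ∀ l, x l ∈ X)
    (hdig : ∀ g ∈ X, ∃ y ∈ Y, ∃ a : Fin r → ℕ, (∀ l, a l < p) ∧ g = y * op x a)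
    (hheavy : ∀ b : Fin r → ℕ, (∀ l, b l < p) → R ≤ ∑ l, b l * w l →
      op (fun l => dl (x l)) b ∈ I) :
    Gen X I (N * (Finset.univ.filter
      (fun α : Fin r → Fin p => ∑ l, (α l : ℕ) * w l < R)).card) := by
  classical
  obtain ⟨S, hS1, hS2⟩ := hY
  set low : Finset (MonoidAlgebra ℤ G) :=
    (Finset.univ.filter (fun α : Fin r → Fin p => ∑ l, (α l : ℕ) * w l < R)).image
      (fun α => op (fun l => dl (x l)) (fun l => (α l : ℕ))) with hlow
  have hdlX : ∀ g ∈ X, dl g ∈ ZS X := fun g hg => (ZS X).sub_mem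
    (AddSubgroup.subset_closure ⟨g, hg, rfl⟩) (AddSubgroup.subset_closure ⟨1, X.one_mem, (map_one _).symm⟩)
  have hone : (1 : MonoidAlgebra ℤ G) ∈ ZS X :=
    AddSubgroup.subset_closure ⟨1, X.one_mem, (map_one _).symm⟩
  have hmulX : ∀ a ∈ ZS X, ∀ b ∈ ZS X, a * b ∈ ZS X := by
    intro a ha b hb
    refine closure_mul_mem ?_ ha hb
    rintro _ ⟨u, hu, rfl⟩ _ ⟨v, hv, rfl⟩
    exact AddSubgroup.subset_closure ⟨u * v, X.mul_mem hu hv, by rw [map_mul]⟩
  have hopX : ∀ (r : ℕ) (x : Fin r → G), (∀ l, x l ∈ X) → ∀ b : Fin r → ℕ,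
      op (fun l => dl (x l)) b ∈ ZS X := by
    intro r
    induction r with
    | zero => intro x _ b; rw [op_zero]; exact hone
    | succ r ih =>
      intro x hx b
      rw [op_succ]
      apply hmulX
      · have : ∀ m : ℕ, dl (x 0) ^ m ∈ ZS X := by
          intro m
          induction m with
          | zero => rw [pow_zero]; exact hone
          | succ m ihm => rw [pow_succ]; exact hmulX _ ihm _ (hdlX _ (hx 0))
        exact this _
      · exact ih (fun l => x l.succ) (fun l => hx l.succ) _
  refine ⟨Finset.image₂ (· * ·) S low, ?_, ?_⟩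
  · refine (Finset.card_image₂_le _ _ _).trans (Nat.mul_le_mul hS1 Finset.card_image_le)
  · have step : ∀ c ∈ ZS Y, ∀ b : Fin r → ℕ, (∀ l, b l < p) →
        c * op (fun l => dl (x l)) b ∈ AddSubgroup.closure
          ((Finset.image₂ (· * ·) S low : Finset _) : Set (MonoidAlgebra ℤ G)) ⊔ I := by
      intro c hc b hb
      by_cases hR : ∑ l, b l * w l < R
      · have hc' := hS2 hc
        rw [AddSubgroup.mem_sup] at hc'
        obtain ⟨u, hu, v, hv, rfl⟩ := hc'
        rw [add_mul]
        refine AddSubgroup.add_mem _ ?_ (AddSubgroup.mem_sup_right (hIr _ hv _ (hopX r x hx b)))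
        apply AddSubgroup.mem_sup_left
        have h1 : op (fun l => dl (x l)) b ∈ AddSubgroup.closure
            (low : Set (MonoidAlgebra ℤ G)) := by
          apply AddSubgroup.subset_closure
          rw [Finset.mem_coe, hlow, Finset.mem_image]
          exact ⟨fun l => ⟨b l, hb l⟩, by simpa using hR, rfl⟩
        refine closure_mul_mem ?_ hu h1
        intro s hs t ht
        apply AddSubgroup.subset_closure
        rw [Finset.mem_coe]
        exact Finset.mem_image₂_of_mem hs ht
      · push Not at hR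
        exact AddSubgroup.mem_sup_right (hIl c hc _ (hheavy b hb hR))
    conv_lhs => rw [ZS]
    rw [AddSubgroup.closure_le]
    rintro _ ⟨g, hg, rfl⟩
    obtain ⟨y, hy, a, ha, rfl⟩ := hdig g hg
    rw [map_mul]
    have hyZ : MonoidAlgebra.of ℤ G y ∈ AddSubgroup.closure
        {m : MonoidAlgebra ℤ G | m = MonoidAlgebra.of ℤ G y} :=
      AddSubgroup.subset_closure rfl
    refine closure_mul_mem ?_ hyZ (of_op_mem x a)
    rintro _ rfl _ ⟨b, hb, rfl⟩
    exact step _ (AddSubgroup.subset_closure ⟨y, hy, rfl⟩) b (fun l => (hb l).trans_lt (ha l))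

/-- words of length `b` in `P`, times an element of `P`. -/
noncomputable def JL (P : Subgroup G) (b : ℕ) : AddSubgroup (MonoidAlgebra ℤ G) :=
  AddSubgroup.closure {a | ∃ (L : List G) (g : G), g ∈ P ∧ (∀ x ∈ L, x ∈ P) ∧ L.length = b ∧
    a = (L.map dl).prod * MonoidAlgebra.of ℤ G g}

/-- every group of order dividing `p ^ n` is generated by `n` elements. -/
theorem exists_generators {p : ℕ} (hp : p.Prime) [Finite G] (P : Subgroup G) {n : ℕ}
    (hP : Nat.card P ∣ p ^ n) :
    ∃ S : Finset G, S.card ≤ n ∧ Subgroup.closure (S : Set G) = P := by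
  classical
  have key : ∀ t, t ≤ n → (∃ S : Finset G, S.card ≤ t ∧ Subgroup.closure (S : Set G) = P) ∨
      ∃ S : Finset G, S.card ≤ t ∧ Subgroup.closure (S : Set G) ≤ P ∧
        p ^ t ≤ Nat.card (Subgroup.closure (S : Set G)) := by
    intro t
    induction t with
    | zero =>
      intro _
      refine Or.inr ⟨∅, by simp, by simp, ?_⟩
      rw [pow_zero]
      exact Nat.card_pos
    | succ t ih =>
      intro ht
      rcases ih (by omega) with ⟨S, h1, h2⟩ | ⟨S, h1, h2, h3⟩
      · exact Or.inl ⟨S, by omega, h2⟩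
      · by_cases hSP : Subgroup.closure (S : Set G) = P
        · exact Or.inl ⟨S, by omega, hSP⟩
        · obtain ⟨x, hxP, hxS⟩ := SetLike.exists_of_lt (lt_of_le_of_ne h2 hSP)
          refine Or.inr ⟨insert x S, ?_, ?_, ?_⟩
          · exact (Finset.card_insert_le _ _).trans (by omega)
          · rw [Subgroup.closure_le]
            intro y hy
            rcases Finset.mem_insert.1 (Finset.mem_coe.1 hy) with rfl | hy
            · exact hxP
            · exact h2 (Subgroup.subset_closure hy)
          · have hle : Subgroup.closure (S : Set G) ≤ Subgroup.closure ((insert x S : Finset G) : Set G) :=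
              Subgroup.closure_mono (by simp)
            have hle2 : Subgroup.closure ((insert x S : Finset G) : Set G) ≤ P := by
              rw [Subgroup.closure_le]
              intro y hy
              rcases Finset.mem_insert.1 (Finset.mem_coe.1 hy) with rfl | hy
              · exact hxP
              · exact h2 (Subgroup.subset_closure hy)
            have hlt : Subgroup.closure (S : Set G) < Subgroup.closure ((insert x S : Finset G) : Set G) := by
              refine lt_of_le_of_ne hle (fun h => hxS ?_)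
              rw [h]
              exact Subgroup.subset_closure (by simp)
            have hd1 : Nat.card (Subgroup.closure (S : Set G)) ∣ p ^ n :=
              (Subgroup.card_dvd_of_le h2).trans hP
            have hd2 : Nat.card (Subgroup.closure ((insert x S : Finset G) : Set G)) ∣ p ^ n :=
              (Subgroup.card_dvd_of_le hle2).trans hP
            obtain ⟨a, _, ha⟩ := (Nat.dvd_prime_pow hp).1 hd1
            obtain ⟨b, _, hb⟩ := (Nat.dvd_prime_pow hp).1 hd2
            have hcard : Nat.card (Subgroup.closure (S : Set G)) <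
                Nat.card (Subgroup.closure ((insert x S : Finset G) : Set G)) := by
              refine lt_of_le_of_ne (Nat.le_of_dvd Nat.card_pos (Subgroup.card_dvd_of_le hle)) ?_
              intro h
              exact hlt.ne (Subgroup.eq_of_le_of_card_ge hle h.ge)
            rw [ha] at h3
            rw [ha, hb] at hcard
            rw [hb]
            have h4 : t ≤ a := (Nat.pow_le_pow_iff_right hp.one_lt).1 h3
            have h5 : a < b := (Nat.pow_lt_pow_iff_right hp.one_lt).1 hcard
            exact Nat.pow_le_pow_right hp.pos (by omega)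
  rcases key n le_rfl with h | ⟨S, h1, h2, h3⟩
  · exact h
  · refine ⟨S, h1, Subgroup.eq_of_le_of_card_ge h2 ?_⟩
    exact (Nat.le_of_dvd (pow_pos hp.pos n) hP).trans h3

/-- `ℤ[P]` modulo the words of length `b`. -/
theorem gen_JL {p : ℕ} (hp : p.Prime) [Finite G] (P : Subgroup G) {n : ℕ}
    (hP : Nat.card P ∣ p ^ n) (b : ℕ) : Gen P (JL P b) ((n + 1) ^ b) := by
  classical
  obtain ⟨S, hS1, hS2⟩ := exists_generators hp P hP
  -- `dl x` is a combination of `dl g * of y`
  have key : ∀ x ∈ P, dl x ∈ AddSubgroup.closure {a : MonoidAlgebra ℤ G |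
      ∃ g ∈ S, ∃ y ∈ P, a = dl g * MonoidAlgebra.of ℤ G y} := by
    have hSP : ∀ g ∈ S, g ∈ P := fun g hg => by
      rw [← hS2]; exact Subgroup.subset_closure hg
    intro x hx
    rw [← hS2] at hx
    refine (Subgroup.closure_induction_left (p := fun x _ => x ∈ P ∧
      dl x ∈ AddSubgroup.closure {a : MonoidAlgebra ℤ G |
      ∃ g ∈ S, ∃ y ∈ P, a = dl g * MonoidAlgebra.of ℤ G y}) ?_ ?_ ?_ hx).2
    · refine ⟨P.one_mem, ?_⟩
      have : dl (1 : G) = 0 := by rw [dl, map_one, sub_self]
      rw [this]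
      exact AddSubgroup.zero_mem _
    · rintro g hg y _ ⟨hy, ih⟩
      refine ⟨P.mul_mem (hSP g hg) hy, ?_⟩
      have : dl (g * y) = dl g * MonoidAlgebra.of ℤ G y + dl y := by
        simp only [dl, map_mul, sub_mul, one_mul]; abel
      rw [this]
      exact AddSubgroup.add_mem _ (AddSubgroup.subset_closure ⟨g, hg, y, hy, rfl⟩) ih
    · rintro g hg y _ ⟨hy, ih⟩
      have hgy := P.mul_mem (P.inv_mem (hSP g hg)) hy
      refine ⟨hgy, ?_⟩
      have : dl (g⁻¹ * y) = -(dl g * MonoidAlgebra.of ℤ G (g⁻¹ * y)) + dl y := by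
        simp only [dl, sub_mul, one_mul]
        rw [← map_mul, mul_inv_cancel_left]
        abel
      rw [this]
      exact AddSubgroup.add_mem _ (AddSubgroup.neg_mem _
        (AddSubgroup.subset_closure ⟨g, hg, _, hgy, rfl⟩)) ih
  have hSP : ∀ g ∈ S, g ∈ P := fun g hg => by
    rw [← hS2]; exact Subgroup.subset_closure hg
  induction b with
  | zero =>
    refine ⟨∅, by simp, ?_⟩
    refine le_trans ?_ le_sup_right
    rw [ZS, AddSubgroup.closure_le]
    rintro _ ⟨x, hx, rfl⟩
    exact AddSubgroup.subset_closure ⟨[], x, hx, by simp, rfl, by simp⟩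
  | succ b ih =>
    obtain ⟨T, hT1, hT2⟩ := ih
    refine ⟨insert 1 (Finset.image₂ (fun g t => dl g * t) S T), ?_, ?_⟩
    · refine (Finset.card_insert_le _ _).trans ?_
      have h1 : (Finset.image₂ (fun g t => dl g * t) S T).card ≤ n * (n + 1) ^ b :=
        (Finset.card_image₂_le _ _ _).trans (Nat.mul_le_mul hS1 hT1)
      have h2 : 1 ≤ (n + 1) ^ b := Nat.one_le_pow _ _ (by omega)
      calc _ ≤ n * (n + 1) ^ b + (n + 1) ^ b := Nat.add_le_add h1 h2
        _ = (n + 1) ^ (b + 1) := by ring
    · conv_lhs => rw [ZS]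
      rw [AddSubgroup.closure_le]
      rintro _ ⟨x, hx, rfl⟩
      have h1 : MonoidAlgebra.of ℤ G x = 1 + dl x := by simp [dl]
      rw [h1]
      refine AddSubgroup.add_mem _ (AddSubgroup.mem_sup_left (AddSubgroup.subset_closure
        (by simp))) ?_
      refine (AddSubgroup.closure_le _).2 ?_ (key x hx)
      rintro _ ⟨g, hg, y, hy, rfl⟩
      have hy' := hT2 (AddSubgroup.subset_closure ⟨y, hy, rfl⟩ :
        MonoidAlgebra.of ℤ G y ∈ ZS P)
      rw [AddSubgroup.mem_sup] at hy'
      obtain ⟨u, hu, v, hv, e⟩ := hy'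
      rw [SetLike.mem_coe, ← e, mul_add]
      refine AddSubgroup.add_mem _ (AddSubgroup.mem_sup_left ?_) (AddSubgroup.mem_sup_right ?_)
      · have hgc : dl g ∈ AddSubgroup.closure {a : MonoidAlgebra ℤ G | a = dl g} :=
          AddSubgroup.subset_closure rfl
        refine closure_mul_mem ?_ hgc hu
        rintro _ rfl t ht
        apply AddSubgroup.subset_closure
        rw [Finset.mem_coe, Finset.mem_insert]
        exact Or.inr (Finset.mem_image₂_of_mem hg ht)
      · have hgc : dl g ∈ AddSubgroup.closure {a : MonoidAlgebra ℤ G | a = dl g} :=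
          AddSubgroup.subset_closure rfl
        refine closure_mul_mem ?_ hgc hv
        rintro _ rfl _ ⟨L, h, hh, hL, hlen, rfl⟩
        refine AddSubgroup.subset_closure ⟨g :: L, h, hh, ?_, by simp [hlen], ?_⟩
        · intro z hz
          rcases List.mem_cons.1 hz with rfl | hz
          · exact hSP _ hg
          · exact hL z hz
        · simp [mul_assoc]

end Gen

end RKT
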