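import Mathlib
import Pool.Agent.Helper82.RK.PGen

/-! Project RK (MP_aa96c4_al): the ideal of a stage. -/

namespace RKT

open MonoidAlgebra

variable {G : Type} [Group G] {T : Type} [AddCommGroup T]

/-- augmentation -/
noncomputable def aug : MonoidAlgebra ℤ G →ₐ[ℤ] ℤ := MonoidAlgebra.lift ℤ ℤ G (1 : G →* ℤ)

lemma aug_of (x : G) : aug (MonoidAlgebra.of ℤ G x) = 1 := by
  rw [aug, MonoidAlgebra.lift_of]; rfl

lemma aug_dl (x : G) : aug (dl x) = 0 := by
  rw [dl, map_sub, aug_of, map_one, sub_self]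

lemma aug_prod {L : List (MonoidAlgebra ℤ G)} (h : L ≠ []) (hL : ∀ a ∈ L, aug a = 0) :
    aug L.prod = 0 := by
  cases L with
  | nil => exact absurd rfl h
  | cons a L =>
    rw [List.prod_cons, map_mul, hL a (by simp), zero_mul]

/-- conjugation by a group element -/
noncomputable def cjg (g : G) (a : MonoidAlgebra ℤ G) : MonoidAlgebra ℤ G :=
  MonoidAlgebra.of ℤ G g * a * MonoidAlgebra.of ℤ G g⁻¹

lemma cjg_of (g x : G) : cjg g (MonoidAlgebra.of ℤ G x) = MonoidAlgebra.of ℤ G (g * x * g⁻¹) := by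
  rw [cjg, ← map_mul, ← map_mul]

lemma of_inv_mul (g : G) : MonoidAlgebra.of ℤ G g⁻¹ * MonoidAlgebra.of ℤ G g = 1 := by
  rw [← map_mul, inv_mul_cancel, map_one]

lemma of_mul_inv (g : G) : MonoidAlgebra.of ℤ G g * MonoidAlgebra.of ℤ G g⁻¹ = 1 := by
  rw [← map_mul, mul_inv_cancel, map_one]

lemma cjg_mul (g : G) (a b : MonoidAlgebra ℤ G) : cjg g (a * b) = cjg g a * cjg g b := by
  unfold cjg
  calc _ = MonoidAlgebra.of ℤ G g * a * 1 * b * MonoidAlgebra.of ℤ G g⁻¹ := by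
        simp only [mul_one, mul_assoc]
    _ = _ := by rw [← of_inv_mul g]; simp only [mul_assoc]

lemma cjg_one (g : G) : cjg g (1 : MonoidAlgebra ℤ G) = 1 := by
  rw [cjg, mul_one, of_mul_inv]

lemma cjg_sub (g : G) (a b : MonoidAlgebra ℤ G) : cjg g (a - b) = cjg g a - cjg g b := by
  unfold cjg; rw [mul_sub, sub_mul]

lemma cjg_dl (g x : G) : cjg g (dl x) = dl (g * x * g⁻¹) := by
  rw [dl, cjg_sub, cjg_of, cjg_one]; rfl

lemma cjg_prod (g : G) (L : List (MonoidAlgebra ℤ G)) :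
    cjg g L.prod = (L.map (cjg g)).prod := by
  induction L with
  | nil => simp [cjg_one]
  | cons a L ih => rw [List.prod_cons, cjg_mul, ih, List.map_cons, List.prod_cons]

lemma cjg_list (g : G) (L : List G) :
    cjg g (L.map dl).prod = ((L.map (fun x => g * x * g⁻¹)).map dl).prod := by
  rw [cjg_prod, List.map_map, List.map_map]
  congr 1
  apply List.map_congr_left
  intro x _
  exact cjg_dl g x

lemma aug_cjg (g : G) (a : MonoidAlgebra ℤ G) : aug (cjg g a) = aug a := by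
  rw [cjg, map_mul, map_mul, aug_of, aug_of, one_mul, mul_one]

lemma mul_of_eq (g : G) (a : MonoidAlgebra ℤ G) :
    a * MonoidAlgebra.of ℤ G g = MonoidAlgebra.of ℤ G g * cjg g⁻¹ a := by
  unfold cjg
  rw [inv_inv]
  calc _ = 1 * a * MonoidAlgebra.of ℤ G g := by rw [one_mul]
    _ = _ := by rw [← of_mul_inv g]; simp only [mul_assoc]

/-- A two-sided, `G`-stable ideal of `ℤ[X]` inside the augmentation ideal and the kernel of `f`. -/
structure Good (X : Subgroup G) (f : G → T) (I : AddSubgroup (MonoidAlgebra ℤ G)) : Prop where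
  sub : I ≤ ZS X
  left : ∀ a ∈ ZS X, ∀ b ∈ I, a * b ∈ I
  right : ∀ a ∈ I, ∀ b ∈ ZS X, a * b ∈ I
  conj : ∀ g : G, ∀ a ∈ I, cjg g a ∈ I
  aug0 : ∀ a ∈ I, aug a = 0
  ker : ∀ a ∈ I, ext f a = 0

lemma of_mem_ZS {X : Subgroup G} {x : G} (hx : x ∈ X) : MonoidAlgebra.of ℤ G x ∈ ZS X :=
  AddSubgroup.subset_closure ⟨x, hx, rfl⟩

lemma one_mem_ZS (X : Subgroup G) : (1 : MonoidAlgebra ℤ G) ∈ ZS X :=
  AddSubgroup.subset_closure ⟨1, X.one_mem, (map_one _).symm⟩

lemma dl_mem_ZS {X : Subgroup G} {x : G} (hx : x ∈ X) : dl x ∈ ZS X :=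
  (ZS X).sub_mem (of_mem_ZS hx) (one_mem_ZS X)

lemma mul_mem_ZS {X : Subgroup G} {a b : MonoidAlgebra ℤ G} (ha : a ∈ ZS X) (hb : b ∈ ZS X) :
    a * b ∈ ZS X := by
  refine closure_mul_mem ?_ ha hb
  rintro _ ⟨u, hu, rfl⟩ _ ⟨v, hv, rfl⟩
  exact AddSubgroup.subset_closure ⟨u * v, X.mul_mem hu hv, by rw [map_mul]⟩

lemma prod_mem_ZS {X : Subgroup G} {L : List G} (hL : ∀ x ∈ L, x ∈ X) : (L.map dl).prod ∈ ZS X := by
  induction L with
  | nil => exact one_mem_ZS X
  | cons a L ih =>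
    rw [List.map_cons, List.prod_cons]
    exact mul_mem_ZS (dl_mem_ZS (hL a (by simp))) (ih (fun x hx => hL x (by simp [hx])))

lemma cjg_mem_ZS {X : Subgroup G} (hX : X.Normal) (g : G) {a : MonoidAlgebra ℤ G}
    (ha : a ∈ ZS X) : cjg g a ∈ ZS X := by
  induction ha using AddSubgroup.closure_induction with
  | mem x hx =>
    obtain ⟨x, hx, rfl⟩ := hx
    rw [cjg_of]
    exact of_mem_ZS (hX.conj_mem _ hx g)
  | zero => rw [cjg, mul_zero, zero_mul]; exact AddSubgroup.zero_mem _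
  | add x y _ _ hx hy =>
    have : cjg g (x + y) = cjg g x + cjg g y := by unfold cjg; rw [mul_add, add_mul]
    rw [this]; exact AddSubgroup.add_mem _ hx hy
  | neg x _ hx =>
    have : cjg g (-x) = -cjg g x := by unfold cjg; rw [mul_neg, neg_mul]
    rw [this]; exact AddSubgroup.neg_mem _ hx

/-- the two-sided ideal of `ℤ[X]` generated by `S`. -/
noncomputable def gid (X : Subgroup G) (S : Set (MonoidAlgebra ℤ G)) :
    AddSubgroup (MonoidAlgebra ℤ G) :=
  AddSubgroup.closure {c | ∃ x ∈ X, ∃ s ∈ S, c = MonoidAlgebra.of ℤ G x * s}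

lemma subset_gid {X : Subgroup G} {S : Set (MonoidAlgebra ℤ G)} {s : MonoidAlgebra ℤ G}
    (hs : s ∈ S) : s ∈ gid X S :=
  AddSubgroup.subset_closure ⟨1, X.one_mem, s, hs, by rw [map_one, one_mul]⟩

lemma gid_left {X : Subgroup G} {S : Set (MonoidAlgebra ℤ G)} {a b : MonoidAlgebra ℤ G}
    (ha : a ∈ ZS X) (hb : b ∈ gid X S) : a * b ∈ gid X S := by
  refine closure_mul_mem ?_ ha hb
  rintro _ ⟨u, hu, rfl⟩ _ ⟨x, hx, s, hs, rfl⟩
  exact AddSubgroup.subset_closure ⟨u * x, X.mul_mem hu hx, s, hs, by rw [map_mul, mul_assoc]⟩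

lemma gid_right {X : Subgroup G} {S : Set (MonoidAlgebra ℤ G)}
    (hS : ∀ g : G, ∀ s ∈ S, cjg g s ∈ S) {a b : MonoidAlgebra ℤ G} (ha : a ∈ gid X S)
    (hb : b ∈ ZS X) : a * b ∈ gid X S := by
  refine closure_mul_mem ?_ ha hb
  rintro _ ⟨x, hx, s, hs, rfl⟩ _ ⟨u, hu, rfl⟩
  refine AddSubgroup.subset_closure ⟨x * u, X.mul_mem hx hu, cjg u⁻¹ s, hS _ _ hs, ?_⟩
  rw [mul_assoc, mul_of_eq u s, map_mul, mul_assoc]

lemma gid_conj {X : Subgroup G} (hX : X.Normal) {S : Set (MonoidAlgebra ℤ G)}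
    (hS : ∀ g : G, ∀ s ∈ S, cjg g s ∈ S) (g : G) {a : MonoidAlgebra ℤ G} (ha : a ∈ gid X S) :
    cjg g a ∈ gid X S := by
  induction ha using AddSubgroup.closure_induction with
  | mem x hx =>
    obtain ⟨x, hx, s, hs, rfl⟩ := hx
    rw [cjg_mul, cjg_of]
    exact AddSubgroup.subset_closure ⟨_, hX.conj_mem _ hx g, _, hS g s hs, rfl⟩
  | zero => rw [cjg, mul_zero, zero_mul]; exact AddSubgroup.zero_mem _
  | add x y _ _ hx hy =>
    have : cjg g (x + y) = cjg g x + cjg g y := by unfold cjg; rw [mul_add, add_mul]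
    rw [this]; exact AddSubgroup.add_mem _ hx hy
  | neg x _ hx =>
    have : cjg g (-x) = -cjg g x := by unfold cjg; rw [mul_neg, neg_mul]
    rw [this]; exact AddSubgroup.neg_mem _ hx

/-- an ideal generated by a conjugation stable set. -/
theorem good_gid {X : Subgroup G} (hX : X.Normal) {S : Set (MonoidAlgebra ℤ G)} {f : G → T}
    (hS : ∀ g : G, ∀ s ∈ S, cjg g s ∈ S) (hsub : ∀ s ∈ S, s ∈ ZS X) (haug : ∀ s ∈ S, aug s = 0)
    (hker : ∀ x ∈ X, ∀ s ∈ S, ext f (MonoidAlgebra.of ℤ G x * s) = 0) : Good X f (gid X S) where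
  sub := by
    rw [gid, AddSubgroup.closure_le]
    rintro _ ⟨x, hx, s, hs, rfl⟩
    exact mul_mem_ZS (of_mem_ZS hx) (hsub s hs)
  left := fun a ha b hb => gid_left ha hb
  right := fun a ha b hb => gid_right hS ha hb
  conj := fun g a ha => gid_conj hX hS g ha
  aug0 := by
    intro a ha
    induction ha using AddSubgroup.closure_induction with
    | mem x hx =>
      obtain ⟨x, hx, s, hs, rfl⟩ := hx
      rw [map_mul, haug s hs, mul_zero]
    | zero => exact map_zero _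
    | add x y _ _ hx hy => rw [map_add, hx, hy, add_zero]
    | neg x _ hx => rw [map_neg, hx, neg_zero]
  ker := by
    intro a ha
    induction ha using AddSubgroup.closure_induction with
    | mem x hx =>
      obtain ⟨x, hx, s, hs, rfl⟩ := hx
      exact hker x hx s hs
    | zero => exact map_zero _
    | add x y _ _ hx hy => rw [map_add, hx, hy, add_zero]
    | neg x _ hx => rw [map_neg, hx, neg_zero]

/-- the bilinear formula: `f_Y (c u) = f_C c + f_P u`. -/
lemma ext_mul {C P : Subgroup G} {fY fC fP : G → T}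
    (h : ∀ c ∈ C, ∀ u ∈ P, fY (c * u) = fC c + fP u) {a b : MonoidAlgebra ℤ G}
    (ha : a ∈ ZS C) (hb : b ∈ ZS P) : ext fY (a * b) = aug b • ext fC a + aug a • ext fP b := by
  have h1 : ∀ c ∈ C, ∀ b ∈ ZS P, ext fY (MonoidAlgebra.of ℤ G c * b) = aug b • fC c + ext fP b := by
    intro c hc b hb
    induction hb using AddSubgroup.closure_induction with
    | mem x hx =>
      obtain ⟨u, hu, rfl⟩ := hx
      rw [← map_mul, ext_of, h c hc u hu, aug_of, one_smul, ext_of]
    | zero => rw [mul_zero, map_zero, map_zero, zero_smul, map_zero, add_zero]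
    | add x y _ _ hx hy =>
      rw [mul_add, map_add, hx, hy, map_add, map_add, add_smul]; abel
    | neg x _ hx => rw [mul_neg, map_neg, hx, map_neg, map_neg, neg_smul]; abel
  induction ha using AddSubgroup.closure_induction with
  | mem x hx =>
    obtain ⟨c, hc, rfl⟩ := hx
    rw [h1 c hc b hb, ext_of, aug_of, one_smul]
  | zero => rw [zero_mul, map_zero, map_zero, map_zero, zero_smul, smul_zero, add_zero]
  | add x y _ _ hx hy =>
    rw [add_mul, map_add, hx, hy, map_add, map_add, add_smul, smul_add]; abel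
  | neg x _ hx =>
    rw [neg_mul, map_neg, hx, map_neg, map_neg, neg_smul, smul_neg]; abel

/-- translation: `f_X (x0 y) = f_Y y - t0`. -/
lemma ext_translate {Y : Subgroup G} {fX fY : G → T} {x0 : G} {t0 : T}
    (h : ∀ y ∈ Y, fX (x0 * y) = fY y - t0) {a : MonoidAlgebra ℤ G} (ha : a ∈ ZS Y) :
    ext fX (MonoidAlgebra.of ℤ G x0 * a) = ext fY a - aug a • t0 := by
  induction ha using AddSubgroup.closure_induction with
  | mem x hx =>
    obtain ⟨y, hy, rfl⟩ := hx
    rw [← map_mul, ext_of, h y hy, aug_of, one_smul, ext_of]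
  | zero => rw [mul_zero, map_zero, map_zero, map_zero, zero_smul, sub_zero]
  | add x y _ _ hx hy =>
    rw [mul_add, map_add, hx, hy, map_add, map_add, add_smul]; abel
  | neg x _ hx => rw [mul_neg, map_neg, hx, map_neg, map_neg, neg_smul]; abel

/-- **the ideal of a stage**, with its number of generators. -/
theorem stage_ideal {p : ℕ} (hp : p.Prime) [Finite G] {n : ℕ} (hG : Nat.card G ∣ p ^ n)
    {X Y C P : Subgroup G} (hX : X.Normal) (hC : C.Normal) (hP : P.Normal)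
    (hYX : Y ≤ X) (hCY : C ≤ Y) (hPY : P ≤ Y)
    (hcomm : ∀ c ∈ C, ∀ u ∈ P, c * u = u * c) (hY : ∀ y ∈ Y, ∃ c ∈ C, ∃ u ∈ P, y = c * u)
    {fX fY fC fP : G → T}
    -- (i)
    (hi : ∀ x ∈ X, ∃ x0, ∃ y0 ∈ Y, ∃ t0 : T, x = x0 * y0 ∧ ∀ y ∈ Y, fX (x0 * y) = fY y - t0)
    -- (ii)
    (hii : ∀ c ∈ C, ∀ u ∈ P, fY (c * u) = fC c + fP u)
    -- (iii)
    {b0 : ℕ} (hb0 : 1 ≤ b0)
    (hiii : ∀ L : List G, (∀ x ∈ L, x ∈ P) → b0 ≤ L.length → ext fP (L.map dl).prod = 0)
    -- (iv)
    {IC : AddSubgroup (MonoidAlgebra ℤ G)} (hIC : Good C fC IC) {ρ : ℕ} (hρ : Gen C IC ρ)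
    -- (v)
    {F : ℕ → Subgroup G} (hFn : ∀ v, (F v).Normal) (hFX : ∀ v, F v ≤ X) (hF0 : X ≤ F 0)
    {H R : ℕ} (hR : 1 ≤ R)
    (hK : ∀ L : List (ℕ × G), (∀ q ∈ L, q.1 ≤ H ∧ q.2 ∈ F q.1) → R ≤ (L.map Prod.fst).sum →
      ext fX (L.map (fun q => dl q.2)).prod = 0)
    -- letters
    {r : ℕ} {x : Fin r → G} {w : Fin r → ℕ} (hwH : ∀ l, w l ≤ H) (hxw : ∀ l, x l ∈ F (w l))
    (hdig : ∀ g ∈ X, ∃ y ∈ Y, ∃ a : Fin r → ℕ, (∀ l, a l < p) ∧ g = y * op x a) :
    ∃ I : AddSubgroup (MonoidAlgebra ℤ G), Good X fX I ∧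
      Gen X I ((ρ + (n + 1) ^ b0) * (Finset.univ.filter
        (fun α : Fin r → Fin p => ∑ l, (α l : ℕ) * w l < R)).card) := by
  classical
  -- the generators
  set Sa : Set (MonoidAlgebra ℤ G) := {s | ∃ L : List (ℕ × G),
    (∀ q ∈ L, q.1 ≤ H ∧ q.2 ∈ F q.1) ∧ R ≤ (L.map Prod.fst).sum ∧
      s = (L.map (fun q => dl q.2)).prod} with hSa
  set Sb : Set (MonoidAlgebra ℤ G) := {s | ∃ L : List G, (∀ x ∈ L, x ∈ P) ∧ L.length = b0 ∧
    s = (L.map dl).prod} with hSb
  set Sc : Set (MonoidAlgebra ℤ G) := {s | ∃ c ∈ C, ∃ u ∈ P, s = dl c * dl u} with hSc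
  set S : Set (MonoidAlgebra ℤ G) := Sa ∪ Sb ∪ Sc ∪ (IC : Set (MonoidAlgebra ℤ G)) with hS
  have hneL : ∀ L : List (ℕ × G), R ≤ (L.map Prod.fst).sum →
      L.map (fun q => dl q.2) ≠ [] := by
    intro L hL h
    rw [List.map_eq_nil_iff] at h
    subst h
    simp at hL
    omega
  -- stability
  have hSconj : ∀ g : G, ∀ s ∈ S, cjg g s ∈ S := by
    rintro g s (((⟨L, h1, h2, rfl⟩ | ⟨L, h1, h2, rfl⟩) | ⟨c, hc, u, hu, rfl⟩) | hs)
    · refine Or.inl (Or.inl (Or.inl ⟨L.map (fun q => (q.1, g * q.2 * g⁻¹)), ?_, ?_, ?_⟩))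
      · intro q hq
        obtain ⟨q', hq', rfl⟩ := List.mem_map.1 hq
        exact ⟨(h1 q' hq').1, (hFn _).conj_mem _ (h1 q' hq').2 g⟩
      · rw [List.map_map]
        exact h2
      · rw [cjg_prod, List.map_map, List.map_map]
        congr 1
        apply List.map_congr_left
        intro q _
        exact cjg_dl g q.2
    · refine Or.inl (Or.inl (Or.inr ⟨L.map (fun x => g * x * g⁻¹), ?_, ?_, cjg_list g L⟩))
      · intro q hq
        obtain ⟨q', hq', rfl⟩ := List.mem_map.1 hq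
        exact hP.conj_mem _ (h1 q' hq') g
      · rw [List.length_map, h2]
    · refine Or.inl (Or.inr ⟨_, hC.conj_mem _ hc g, _, hP.conj_mem _ hu g, ?_⟩)
      rw [cjg_mul, cjg_dl, cjg_dl]
    · exact Or.inr (hIC.conj g s hs)
  have hSsub : ∀ s ∈ S, s ∈ ZS X := by
    rintro s (((⟨L, h1, h2, rfl⟩ | ⟨L, h1, h2, rfl⟩) | ⟨c, hc, u, hu, rfl⟩) | hs)
    · have : (L.map (fun q => dl q.2)) = (L.map Prod.snd).map dl := by rw [List.map_map]; rfl
      rw [this]
      apply prod_mem_ZS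
      intro y hy
      obtain ⟨q, hq, rfl⟩ := List.mem_map.1 hy
      exact hFX _ (h1 q hq).2
    · exact prod_mem_ZS (fun y hy => hYX (hPY (h1 y hy)))
    · exact mul_mem_ZS (dl_mem_ZS (hYX (hCY hc))) (dl_mem_ZS (hYX (hPY hu)))
    · exact ZS_mono (hCY.trans hYX) (hIC.sub hs)
  have hSaug : ∀ s ∈ S, aug s = 0 := by
    rintro s (((⟨L, h1, h2, rfl⟩ | ⟨L, h1, h2, rfl⟩) | ⟨c, hc, u, hu, rfl⟩) | hs)
    · refine aug_prod (hneL L h2) ?_
      intro a ha
      obtain ⟨q, _, rfl⟩ := List.mem_map.1 ha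
      exact aug_dl _
    · refine aug_prod ?_ ?_
      · intro h
        rw [List.map_eq_nil_iff] at h
        subst h
        simp at h2
        omega
      · intro a ha
        obtain ⟨q, _, rfl⟩ := List.mem_map.1 ha
        exact aug_dl _
    · rw [map_mul, aug_dl, zero_mul]
    · exact hIC.aug0 s hs
  -- the kernel
  have hYker : ∀ s : MonoidAlgebra ℤ G, s ∈ ZS Y → aug s = 0 →
      (∀ c ∈ C, ∀ u ∈ P, ext fY (MonoidAlgebra.of ℤ G (c * u) * s) = 0) → ∀ z ∈ X,
      ext fX (MonoidAlgebra.of ℤ G z * s) = 0 := by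
    intro s hs hs0 hcu z hz
    obtain ⟨x0, y0, hy0, t0, rfl, ht⟩ := hi z hz
    rw [map_mul (MonoidAlgebra.of ℤ G), mul_assoc,
      ext_translate ht (mul_mem_ZS (of_mem_ZS hy0) hs), map_mul aug, hs0,
      mul_zero, zero_smul, sub_zero]
    obtain ⟨c, hc, u, hu, rfl⟩ := hY y0 hy0
    exact hcu c hc u hu
  have hSker : ∀ z ∈ X, ∀ s ∈ S, ext fX (MonoidAlgebra.of ℤ G z * s) = 0 := by
    rintro z hz s (((⟨L, h1, h2, rfl⟩ | ⟨L, h1, h2, rfl⟩) | ⟨c, hc, u, hu, rfl⟩) | hs)
    · -- (a)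
      have e : MonoidAlgebra.of ℤ G z * (L.map (fun q => dl q.2)).prod =
          ((((0, z) :: L).map (fun q => dl q.2)).prod) + (L.map (fun q => dl q.2)).prod := by
        simp only [List.map_cons, List.prod_cons, dl]
        rw [sub_mul, one_mul, sub_add_cancel]
      rw [e, map_add, hK L h1 h2, add_zero]
      apply hK
      · intro q hq
        rcases List.mem_cons.1 hq with rfl | hq
        · exact ⟨Nat.zero_le _, hF0 hz⟩
        · exact h1 q hq
      · simpa using h2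
    · -- (b)
      have hne : (L.map dl) ≠ [] := by
        intro h
        rw [List.map_eq_nil_iff] at h
        subst h
        simp at h2
        omega
      have haug : aug (L.map dl).prod = 0 := aug_prod hne (fun a ha => by
        obtain ⟨q, _, rfl⟩ := List.mem_map.1 ha
        exact aug_dl _)
      refine hYker _ (prod_mem_ZS (fun y hy => hPY (h1 y hy))) haug ?_ z hz
      intro c hc u hu
      rw [map_mul (MonoidAlgebra.of ℤ G), mul_assoc, ext_mul hii (of_mem_ZS hc)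
        (mul_mem_ZS (of_mem_ZS hu) (prod_mem_ZS h1)), map_mul aug, haug, mul_zero, zero_smul,
        zero_add, aug_of, one_smul]
      have e : MonoidAlgebra.of ℤ G u * (L.map dl).prod = ((u :: L).map dl).prod +
          (L.map dl).prod := by
        simp only [List.map_cons, List.prod_cons, dl]
        rw [sub_mul, one_mul, sub_add_cancel]
      rw [e, map_add, hiii L h1 h2.ge, add_zero]
      apply hiii
      · intro q hq
        rcases List.mem_cons.1 hq with rfl | hq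
        · exact hu
        · exact h1 q hq
      · simp; omega
    · -- (c)
      refine hYker _ (mul_mem_ZS (dl_mem_ZS (hCY hc)) (dl_mem_ZS (hPY hu)))
        (by rw [map_mul, aug_dl, zero_mul]) ?_ z hz
      intro c' hc' u' hu'
      have e : MonoidAlgebra.of ℤ G (c' * u') * (dl c * dl u) =
          (MonoidAlgebra.of ℤ G c' * dl c) * (MonoidAlgebra.of ℤ G u' * dl u) := by
        have e1 : MonoidAlgebra.of ℤ G u' * dl c = dl c * MonoidAlgebra.of ℤ G u' := by
          simp only [dl, mul_sub, sub_mul, mul_one, one_mul]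
          rw [← map_mul, ← map_mul, hcomm c hc u' hu']
        rw [map_mul]
        calc _ = MonoidAlgebra.of ℤ G c' * (MonoidAlgebra.of ℤ G u' * dl c) * dl u := by
              simp only [mul_assoc]
          _ = _ := by rw [e1]; simp only [mul_assoc]
      rw [e, ext_mul hii (mul_mem_ZS (of_mem_ZS hc') (dl_mem_ZS hc))
        (mul_mem_ZS (of_mem_ZS hu') (dl_mem_ZS hu)), map_mul aug, map_mul aug, aug_dl, aug_dl,
        mul_zero, mul_zero, zero_smul, zero_smul, add_zero]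
    · -- (d)
      refine hYker _ (ZS_mono hCY (hIC.sub hs)) (hIC.aug0 s hs) ?_ z hz
      intro c hc u hu
      have hcs : MonoidAlgebra.of ℤ G c * s ∈ IC := hIC.left _ (of_mem_ZS hc) s hs
      have e1 : MonoidAlgebra.of ℤ G u * s = s * MonoidAlgebra.of ℤ G u := by
        have : ∀ a ∈ ZS C, MonoidAlgebra.of ℤ G u * a = a * MonoidAlgebra.of ℤ G u := by
          intro a ha
          induction ha using AddSubgroup.closure_induction with
          | mem x hx =>
            obtain ⟨c, hc, rfl⟩ := hx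
            rw [← map_mul, ← map_mul, hcomm c hc u hu]
          | zero => rw [mul_zero, zero_mul]
          | add x y _ _ hx hy => rw [mul_add, add_mul, hx, hy]
          | neg x _ hx => rw [mul_neg, neg_mul, hx]
        exact this s (hIC.sub hs)
      have e : MonoidAlgebra.of ℤ G (c * u) * s =
          (MonoidAlgebra.of ℤ G c * s) * MonoidAlgebra.of ℤ G u := by
        rw [map_mul, mul_assoc, e1, mul_assoc]
      rw [e, ext_mul hii (hIC.sub hcs) (of_mem_ZS hu), hIC.ker _ hcs, hIC.aug0 _ hcs, smul_zero,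
        zero_smul, add_zero]
  have hgood := good_gid hX hSconj hSsub hSaug hSker
  refine ⟨gid X S, hgood, ?_⟩
  -- generators of `ℤ[Y]`
  have hGenP := gen_JL hp P ((Subgroup.card_subgroup_dvd_card P).trans hG) b0
  have hGenY : Gen Y (gid X S) (ρ + (n + 1) ^ b0) := by
    obtain ⟨S1, k1, k2⟩ := hρ
    obtain ⟨S2, m1, m2⟩ := hGenP
    refine ⟨S1 ∪ S2, (Finset.card_union_le _ _).trans (Nat.add_le_add k1 m1), ?_⟩
    set V := AddSubgroup.closure ((S1 ∪ S2 : Finset _) : Set (MonoidAlgebra ℤ G)) ⊔ gid X S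
    have hC' : ZS C ≤ V := by
      refine k2.trans (sup_le_sup (AddSubgroup.closure_mono (by simp)) ?_)
      intro a ha
      exact subset_gid (Or.inr ha)
    have hP' : ZS P ≤ V := by
      refine m2.trans (sup_le_sup (AddSubgroup.closure_mono (by simp)) ?_)
      rw [JL, AddSubgroup.closure_le]
      rintro _ ⟨L, g, hg, hL, hlen, rfl⟩
      exact gid_right hSconj (subset_gid (Or.inl (Or.inl (Or.inr ⟨L, hL, hlen, rfl⟩))))
        (of_mem_ZS (hYX (hPY hg)))
    conv_lhs => rw [ZS]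
    rw [AddSubgroup.closure_le]
    rintro _ ⟨y, hy, rfl⟩
    obtain ⟨c, hc, u, hu, rfl⟩ := hY y hy
    have e : MonoidAlgebra.of ℤ G (c * u) = dl c * dl u + MonoidAlgebra.of ℤ G c +
        MonoidAlgebra.of ℤ G u - 1 := by
      rw [map_mul, dl, dl, sub_mul, mul_sub, mul_one, one_mul]
      abel
    rw [SetLike.mem_coe, e]
    refine V.sub_mem (V.add_mem (V.add_mem ?_ (hC' (of_mem_ZS hc))) (hP' (of_mem_ZS hu)))
      (hC' (one_mem_ZS C))
    exact AddSubgroup.mem_sup_right (subset_gid (Or.inl (Or.inr ⟨c, hc, u, hu, rfl⟩)))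
  refine gen_stage (fun a ha b hb => gid_left (ZS_mono hYX ha) hb)
    (fun a ha b hb => gid_right hSconj ha hb) hGenY (fun l => hFX _ (hxw l)) hdig ?_
  -- heavy monomials
  intro b _ hbR
  have key : ∀ (r : ℕ) (x : Fin r → G) (w : Fin r → ℕ), (∀ l, w l ≤ H ∧ x l ∈ F (w l)) →
      ∀ b : Fin r → ℕ, ∃ L : List (ℕ × G), (∀ q ∈ L, q.1 ≤ H ∧ q.2 ∈ F q.1) ∧
        (L.map Prod.fst).sum = ∑ l, b l * w l ∧
        op (fun l => dl (x l)) b = (L.map (fun q => dl q.2)).prod := by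
    intro r
    induction r with
    | zero =>
      intro x w _ b
      exact ⟨[], by simp, by simp, by simp [op_zero]⟩
    | succ r ih =>
      intro x w hx b
      obtain ⟨L, h1, h2, h3⟩ := ih (fun l => x l.succ) (fun l => w l.succ) (fun l => hx l.succ)
        (fun l => b l.succ)
      refine ⟨List.replicate (b 0) (w 0, x 0) ++ L, ?_, ?_, ?_⟩
      · intro q hq
        rcases List.mem_append.1 hq with hq | hq
        · rw [List.eq_of_mem_replicate hq]
          exact hx 0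
        · exact h1 q hq
      · rw [List.map_append, List.sum_append, h2, List.map_replicate, List.sum_replicate,
          Fin.sum_univ_succ, smul_eq_mul]
      · rw [op_succ, h3, List.map_append, List.prod_append, List.map_replicate,
          List.prod_replicate]
  obtain ⟨L, h1, h2, h3⟩ := key r x w (fun l => ⟨hwH l, hxw l⟩) b
  rw [h3]
  exact subset_gid (Or.inl (Or.inl (Or.inl ⟨L, h1, by rw [h2]; exact hbR, rfl⟩)))

end RKT
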