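import Mathlib
import Pool.Agent.Helper82.RK.Letters
import Pool.Agent.Helper82.RK.Jen

/-! Project RK (MP_aa96c4_al): letters of `X / Y` with dyadic blocks bounded by the rank. -/

namespace RKT

open scoped commutatorElement
open RKC2 (NSer)

variable {G : Type*} [Group G]

/-- product of the relative indices along a decreasing sequence. -/
lemma relIndex_prod [Finite G] {A : ℕ → Subgroup G} (hA : ∀ m, A (m + 1) ≤ A m) (a d : ℕ) :
    ∏ m ∈ Finset.range d, (A (a + m + 1)).relIndex (A (a + m)) = (A (a + d)).relIndex (A a) := by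
  have hanti : Antitone A := antitone_nat_of_succ_le hA
  induction d with
  | zero => simp
  | succ d ih =>
    rw [Finset.prod_range_succ, ih, mul_comm]
    exact Subgroup.relIndex_mul_relIndex _ _ _ (hA _) (hanti (by omega))

/-- **letters of `X / Y`** for an `N`-series `D`. -/
theorem letters_XY {p : ℕ} (hp : p.Prime) [Finite G] {n : ℕ} (hG : Nat.card G ∣ p ^ n)
    {D : ℕ → Subgroup G} (T : NSer p D) (hDn : ∀ i, (D i).Normal) {X Y : Subgroup G}
    (hX : X.Normal) (hY : Y.Normal) (hYX : Y ≤ X) (N : ℕ) (hN : X ⊓ D N ≤ Y) {ρ : ℕ}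
    (hr : ∀ D' N : Subgroup G, Y ≤ N → ⁅D', D'⁆ ≤ N → (∀ x ∈ D', x ^ (p ^ 2) ∈ N) →
      N.relIndex D' ≤ p ^ ρ) :
    ∃ (r : ℕ) (x : Fin r → G) (w : Fin r → ℕ), r ≤ n ∧ (∀ l, x l ∈ X ⊓ D (w l)) ∧
      (∀ l, 1 ≤ w l ∧ w l < N) ∧
      (∀ i, (Finset.univ.filter (fun l => Nat.log 2 (w l) = i)).card ≤ ρ) ∧
      ∀ g ∈ X, ∃ y ∈ Y, ∃ a : Fin r → ℕ, (∀ l, a l < p) ∧ g = y * op x a := by
  classical
  set H : ℕ → Subgroup G := fun m => X ⊓ D m with hH
  set A : ℕ → Subgroup G := fun m => H m ⊔ Y with hA
  have hHn : ∀ m, (H m).Normal := fun m => by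
    have := hDn m
    exact Subgroup.normal_inf_normal _ _
  have hAn : ∀ m, (A m).Normal := fun m => by
    have := hHn m
    exact Subgroup.sup_normal _ _
  have hHA : ∀ m, H m ≤ A m := fun m => le_sup_left
  have hHanti : Antitone H := fun a b h => inf_le_inf_left X (T.anti h)
  have hAanti : Antitone A := fun a b h => sup_le_sup_right (hHanti h) Y
  have hYA : ∀ m, Y ≤ A m := fun m => le_sup_right
  -- commutators
  have hcomm : ∀ m m', ⁅A m, A m'⁆ ≤ A (m + m') := by
    intro m m'
    rw [Subgroup.commutator_le]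
    intro x hx y hy
    have hHm := hHn m
    rw [hA] at hx hy
    simp only at hx hy
    rw [Subgroup.mem_sup_of_normal_right] at hx hy
    obtain ⟨a, ha, b, hb, rfl⟩ := hx
    obtain ⟨c, hc, d, hd, rfl⟩ := hy
    have hAm := hAn (m + m')
    have hac : ⁅a, c⁆ ∈ A (m + m') := by
      apply hHA
      refine ⟨?_, T.comm _ _ (Subgroup.commutator_mem_commutator ha.2 hc.2)⟩
      rw [commutatorElement_def]
      exact X.mul_mem (X.mul_mem (X.mul_mem ha.1 hc.1) (X.inv_mem ha.1)) (X.inv_mem hc.1)
    have hmk : ∀ g : G, g ∈ A (m + m') ↔ (QuotientGroup.mk g : G ⧸ A (m + m')) = 1 := fun g =>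
      (QuotientGroup.eq_one_iff g).symm
    rw [hmk]
    have hb2 : QuotientGroup.mk' (A (m + m')) b = 1 := (hmk b).1 (hYA _ hb)
    have hd2 : QuotientGroup.mk' (A (m + m')) d = 1 := (hmk d).1 (hYA _ hd)
    have hac1 : QuotientGroup.mk' (A (m + m')) ⁅a, c⁆ = 1 := (hmk _).1 hac
    change QuotientGroup.mk' (A (m + m')) ⁅a * b, c * d⁆ = 1
    rw [map_commutatorElement, map_mul, map_mul, hb2, hd2, mul_one, mul_one,
      ← map_commutatorElement]
    exact hac1
  have hD0 : D 0 = ⊤ := top_le_iff.1 (T.one ▸ T.anti (Nat.zero_le 1))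
  have hA0 : A 0 = X := by
    simp only [hA, hH, hD0, inf_top_eq]
    exact sup_eq_left.2 hYX
  have hA1 : A 1 = X := by
    simp only [hA, hH, T.one, inf_top_eq]
    exact sup_eq_left.2 hYX
  have hAX : ∀ m, A m ≤ X := fun m => sup_le inf_le_left hYX
  have hAN : A N = Y := sup_eq_right.2 hN
  -- powers
  have hpow : ∀ m, 1 ≤ m → ∀ x ∈ A m, x ^ p ∈ A (2 * m) := by
    intro m hm x hx
    have hHm := hHn m
    rw [hA] at hx
    simp only at hx
    rw [Subgroup.mem_sup_of_normal_right] at hx
    obtain ⟨a, ha, b, hb, rfl⟩ := hx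
    have h1 : a ^ p ∈ A (2 * m) := hHA _ ⟨X.pow_mem ha.1 p, T.pow m hm a ha.2⟩
    have hb2 : QuotientGroup.mk' (A (2 * m)) b = 1 :=
      (QuotientGroup.eq_one_iff b).2 (hYA _ hb)
    have h3 : QuotientGroup.mk' (A (2 * m)) ((a * b) ^ p) = 1 := by
      rw [map_pow, map_mul, hb2, mul_one, ← map_pow]
      exact (QuotientGroup.eq_one_iff _).2 h1
    exact (QuotientGroup.eq_one_iff _).1 h3
  obtain ⟨r, x, w, h1, h2, h3, h4⟩ := letters hp H A hHA (fun m => hAanti (Nat.le_succ m))
    (fun m => sup_le_sup_left (hYA (m + 1)) (H m))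
    (fun m => by
      rcases Nat.eq_zero_or_pos m with rfl | hm
      · rw [zero_add, hA1]
        exact (Subgroup.commutator_le_left (A 0) (A 0)).trans (hAX 0)
      · exact (hcomm m m).trans (hAanti (by omega)))
    (fun m y hy => by
      rcases Nat.eq_zero_or_pos m with rfl | hm
      · rw [zero_add, hA1]
        exact X.pow_mem (hAX 0 hy) p
      · exact hAanti (by omega) (hpow m hm y hy)) N
  rw [hAN, hA0] at h4
  have hw1 : ∀ l, 1 ≤ w l := by
    intro l
    by_contra hlt
    have h0 : w l = 0 := by omega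
    have h5 := h3 0 (h0 ▸ h2 l)
    rw [hA1, hA0, Subgroup.relIndex_self] at h5
    have h6 : 0 < (Finset.univ.filter (fun l => w l = 0)).card :=
      Finset.card_pos.2 ⟨l, by simp [h0]⟩
    have h7 := Nat.one_lt_pow h6.ne' hp.one_lt
    omega
  -- number of letters in an interval of weights
  have hint : ∀ a d, p ^ (Finset.univ.filter (fun l => a ≤ w l ∧ w l < a + d)).card ≤
      (A (a + d)).relIndex (A a) := by
    intro a d
    rw [← relIndex_prod (fun m => hAanti (Nat.le_succ m)) a d]
    have e1 : (Finset.univ.filter (fun l => a ≤ w l ∧ w l < a + d)).card =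
        ∑ m ∈ Finset.range d, (Finset.univ.filter (fun l => w l = a + m)).card := by
      have := Finset.card_eq_sum_card_fiberwise (f := fun l => w l - a)
        (s := Finset.univ.filter (fun l => a ≤ w l ∧ w l < a + d)) (t := Finset.range d)
        (fun l hl => by
          have := (Finset.mem_filter.1 (Finset.mem_coe.1 hl)).2
          simp only [Finset.coe_range, Set.mem_Iio]
          omega)
      rw [this]
      apply Finset.sum_congr rfl
      intro m hm
      have hm' := Finset.mem_range.1 hm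
      congr 1
      ext l
      simp only [Finset.mem_filter, Finset.mem_univ, true_and]
      constructor
      · rintro ⟨⟨k1, k2⟩, k3⟩; omega
      · intro k; omega
    rw [e1, ← Finset.prod_pow_eq_pow_sum]
    apply Finset.prod_le_prod' 
    intro m _
    by_cases hmN : a + m < N
    · exact (h3 (a + m) hmN).le
    · have : (Finset.univ.filter (fun l => w l = a + m)).card = 0 := by
        rw [Finset.card_eq_zero, Finset.filter_eq_empty_iff]
        intro l _
        have := h2 l
        omega
      rw [this, pow_zero]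
      exact Nat.one_le_iff_ne_zero.2 Subgroup.index_ne_zero_of_finite
  refine ⟨r, x, w, ?_, h1, fun l => ⟨hw1 l, h2 l⟩, ?_, h4⟩
  · -- total number
    have h5 := hint 0 N
    have e : (Finset.univ.filter (fun l => 0 ≤ w l ∧ w l < 0 + N)).card = r := by
      rw [Finset.filter_true_of_mem]
      · simp
      · intro l _
        have := h2 l
        omega
    rw [e] at h5
    have h6 : (A (0 + N)).relIndex (A 0) ≤ p ^ n := by
      have h7 : (A (0 + N)).relIndex (A 0) ∣ Nat.card G :=
        (Subgroup.relIndex_dvd_card _ _).trans (Subgroup.card_subgroup_dvd_card _)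
      exact Nat.le_of_dvd (pow_pos hp.pos n) (h7.trans hG)
    exact (Nat.pow_le_pow_iff_right hp.one_lt).1 (h5.trans h6)
  · intro i
    have e : (Finset.univ.filter (fun l => Nat.log 2 (w l) = i)).card ≤
        (Finset.univ.filter (fun l => 2 ^ i ≤ w l ∧ w l < 2 ^ i + 2 ^ i)).card := by
      apply Finset.card_le_card
      intro l hl
      rw [Finset.mem_filter] at hl ⊢
      refine ⟨hl.1, ?_⟩
      have h5 := Nat.pow_log_le_self 2 (x := w l) (by have := hw1 l; omega)
      have h6 := Nat.lt_pow_succ_log_self (b := 2) (by norm_num) (w l)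
      rw [hl.2] at h5 h6
      rw [pow_succ] at h6
      omega
    have h5 := hint (2 ^ i) (2 ^ i)
    have h6 := hr (A (2 ^ i)) (A (2 ^ i + 2 ^ i)) (hYA _) (hcomm _ _) (fun y hy => by
      have := hpow (2 ^ i) Nat.one_le_two_pow y hy
      rw [two_mul] at this
      rw [pow_two, pow_mul]
      exact (A _).pow_mem this p)
    exact e.trans ((Nat.pow_le_pow_iff_right hp.one_lt).1 (h5.trans h6))

end RKT
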