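import Mathlib
import Pool.Agent.Helper82.RK.LettersXY
import Pool.Agent.Helper82.RK.Ideal
import Pool.Agent.Helper82.RK.Count
import Pool.Agent.Helper82.RK.PAll
import Pool.Agent.Helper43.RK.Defs
import Pool.Agent.Helper32.RK.End5

/-! Project RK (MP_aa96c4_al): from the final functional to a small module (count of the monomials,
product version). -/

namespace RKT

open MonoidAlgebra
open RKC2 (PP Cj rj PN NSer)
open Pool.Agent.Helper27.BE Pool.Agent.Helper60.RK
open Pool.Agent.Helper32.RK (Det)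
open RK43 (TT XW HH)

/-- the number of monomials of degree `< K` in `r` letters. -/
theorem card_small (p r K : ℕ) (w : Fin r → ℕ) (hw : ∀ s, 1 ≤ w s) :
    (Finset.univ.filter (fun α : Fin r → Fin p => ∑ l, (α l : ℕ) * w l < K)).card ≤
      (r + K).choose K := by
  classical
  rw [← Fintype.card_subtype]
  have hle : ∀ α : {α : Fin r → Fin p // ∑ l, (α l : ℕ) * w l < K}, ∑ s, (α.1 s : ℕ) ≤ K := by
    intro α
    refine le_trans ?_ α.2.le
    refine Finset.sum_le_sum fun s _ => ?_
    exact Nat.le_mul_of_pos_right _ (hw s)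
  let f : {α : Fin r → Fin p // ∑ l, (α l : ℕ) * w l < K} → Sym (Option (Fin r)) K := fun α =>
    ⟨∑ s, Multiset.replicate (α.1 s : ℕ) (some s) +
      Multiset.replicate (K - ∑ s, (α.1 s : ℕ)) none, by
        rw [Multiset.card_add, Multiset.card_sum, Multiset.card_replicate]
        simp only [Multiset.card_replicate]
        exact Nat.add_sub_cancel' (hle α)⟩
  have hcount : ∀ α s, Multiset.count (some s) (f α).1 = (α.1 s : ℕ) := by
    intro α s
    simp only [f, Multiset.count_add, Multiset.count_sum', Multiset.count_replicate]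
    simp
  have hf : Function.Injective f := by
    intro α β h
    apply Subtype.ext
    funext s
    apply Fin.ext
    rw [← hcount α s, ← hcount β s, h]
  have := Fintype.card_le_of_injective f hf
  rw [Sym.card_sym_eq_choose, Fintype.card_option, Fintype.card_fin] at this
  have e : r + 1 + K - 1 = r + K := by omega
  rwa [e] at this

section

variable {G : Type} [Group G]

/-- `ℤ[P]` modulo the words of length `b + 1`. -/
theorem gen_JL' {p : ℕ} (hp : p.Prime) [Finite G] (P : Subgroup G) {n : ℕ}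
    (hP : Nat.card P ∣ p ^ n) (b : ℕ) : Gen P (JL P (b + 1)) ((n + 1) ^ b) := by
  classical
  obtain ⟨S, hS1, hS2⟩ := exists_generators hp P hP
  have hSP : ∀ g ∈ S, g ∈ P := fun g hg => by
    rw [← hS2]; exact Subgroup.subset_closure hg
  -- `dl x` is a combination of `dl g * of y`
  have key : ∀ x ∈ P, dl x ∈ AddSubgroup.closure {a : MonoidAlgebra ℤ G |
      ∃ g ∈ S, ∃ y ∈ P, a = dl g * MonoidAlgebra.of ℤ G y} := by
    intro x hx
    rw [← hS2] at hx
    refine (Subgroup.closure_induction_left (p := fun x _ => x ∈ P ∧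
      dl x ∈ AddSubgroup.closure {a : MonoidAlgebra ℤ G |
      ∃ g ∈ S, ∃ y ∈ P, a = dl g * MonoidAlgebra.of ℤ G y}) ?_ ?_ ?_ hx).2
    · refine ⟨P.one_mem, ?_⟩
      have : dl (1 : G) = 0 := by rw [dl, map_one, sub_self]
      rw [this]
      exact AddSubgroup.zero_mem _
    · rintro g hg y _ ⟨hy, ih⟩
      refine ⟨P.mul_mem (hSP g hg) hy, ?_⟩
      have : dl (g * y) = dl g * MonoidAlgebra.of ℤ G y + dl y := by
        simp only [dl, map_mul, sub_mul, one_mul]; abel
      rw [this]
      exact AddSubgroup.add_mem _ (AddSubgroup.subset_closure ⟨g, hg, y, hy, rfl⟩) ih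
    · rintro g hg y _ ⟨hy, ih⟩
      have hgy := P.mul_mem (P.inv_mem (hSP g hg)) hy
      refine ⟨hgy, ?_⟩
      have : dl (g⁻¹ * y) = -(dl g * MonoidAlgebra.of ℤ G (g⁻¹ * y)) + dl y := by
        simp only [dl, sub_mul, one_mul]
        rw [← map_mul, mul_inv_cancel_left]
        abel
      rw [this]
      exact AddSubgroup.add_mem _ (AddSubgroup.neg_mem _
        (AddSubgroup.subset_closure ⟨g, hg, _, hgy, rfl⟩)) ih
  induction b with
  | zero =>
    refine ⟨{1}, by simp, ?_⟩
    conv_lhs => rw [ZS]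
    rw [AddSubgroup.closure_le]
    rintro _ ⟨x, hx, rfl⟩
    have h1 : MonoidAlgebra.of ℤ G x = 1 + dl x := by simp [dl]
    rw [h1]
    refine AddSubgroup.add_mem _ (AddSubgroup.mem_sup_left (AddSubgroup.subset_closure
      (by simp))) (AddSubgroup.mem_sup_right (AddSubgroup.subset_closure ⟨[x], 1, P.one_mem, ?_,
        rfl, ?_⟩))
    · intro y hy
      rw [List.mem_singleton] at hy
      rw [hy]; exact hx
    · rw [map_one, mul_one]; simp
  | succ b ih =>
    obtain ⟨T, hT1, hT2⟩ := ih
    refine ⟨insert 1 (Finset.image₂ (fun g t => dl g * t) S T), ?_, ?_⟩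
    · refine (Finset.card_insert_le _ _).trans ?_
      have h1 : (Finset.image₂ (fun g t => dl g * t) S T).card ≤ n * (n + 1) ^ b :=
        (Finset.card_image₂_le _ _ _).trans (Nat.mul_le_mul hS1 hT1)
      have h2 : 1 ≤ (n + 1) ^ b := Nat.one_le_pow _ _ (by omega)
      calc _ ≤ n * (n + 1) ^ b + (n + 1) ^ b := Nat.add_le_add h1 h2
        _ = (n + 1) ^ (b + 1) := by ring
    · conv_lhs => rw [ZS]
      rw [AddSubgroup.closure_le]
      rintro _ ⟨x, hx, rfl⟩
      have h1 : MonoidAlgebra.of ℤ G x = 1 + dl x := by simp [dl]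
      rw [h1]
      refine AddSubgroup.add_mem _ (AddSubgroup.mem_sup_left (AddSubgroup.subset_closure
        (by simp))) ?_
      refine (AddSubgroup.closure_le _).2 ?_ (key x hx)
      rintro _ ⟨g, hg, y, hy, rfl⟩
      have hy' := hT2 (AddSubgroup.subset_closure ⟨y, hy, rfl⟩ :
        MonoidAlgebra.of ℤ G y ∈ ZS P)
      rw [AddSubgroup.mem_sup] at hy'
      obtain ⟨u, hu, v, hv, e⟩ := hy'
      rw [SetLike.mem_coe, ← e, mul_add]
      have hgc : dl g ∈ AddSubgroup.closure {a : MonoidAlgebra ℤ G | a = dl g} :=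
        AddSubgroup.subset_closure rfl
      refine AddSubgroup.add_mem _ (AddSubgroup.mem_sup_left ?_) (AddSubgroup.mem_sup_right ?_)
      · refine closure_mul_mem ?_ hgc hu
        rintro _ rfl t ht
        apply AddSubgroup.subset_closure
        rw [Finset.mem_coe, Finset.mem_insert]
        exact Or.inr (Finset.mem_image₂_of_mem hg ht)
      · refine closure_mul_mem ?_ hgc hv
        rintro _ rfl _ ⟨L, h, hh, hL, hlen, rfl⟩
        refine AddSubgroup.subset_closure ⟨g :: L, h, hh, ?_, by simp [hlen], ?_⟩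
        · intro z hz
          rcases List.mem_cons.1 hz with rfl | hz
          · exact hSP _ hg
          · exact hL z hz
        · simp [mul_assoc]

/-- two-sided ideal of `ℤ[G]` generated by a set of words. -/
noncomputable def KW (W : Set (List G)) : AddSubgroup (MonoidAlgebra ℤ G) :=
  AddSubgroup.closure {a | ∃ g h : G, ∃ l ∈ W,
    a = MonoidAlgebra.of ℤ G g * (l.map dl).prod * MonoidAlgebra.of ℤ G h}

lemma KW_left {W : Set (List G)} {a b : MonoidAlgebra ℤ G} (hb : b ∈ KW W) : a * b ∈ KW W := by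
  refine closure_mul_mem ?_ (mem_top_ZS a) hb
  rintro _ ⟨x, _, rfl⟩ _ ⟨g, h, l, hl, rfl⟩
  exact AddSubgroup.subset_closure ⟨x * g, h, l, hl, by rw [map_mul]; simp only [mul_assoc]⟩

lemma KW_right {W : Set (List G)} {a b : MonoidAlgebra ℤ G} (ha : a ∈ KW W) : a * b ∈ KW W := by
  refine closure_mul_mem ?_ ha (mem_top_ZS b)
  rintro _ ⟨g, h, l, hl, rfl⟩ _ ⟨x, _, rfl⟩
  exact AddSubgroup.subset_closure ⟨g, h * x, l, hl, by rw [map_mul]; simp only [mul_assoc]⟩

lemma word_mem_KW {W : Set (List G)} {l : List G} (hl : l ∈ W) : (l.map dl).prod ∈ KW W :=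
  AddSubgroup.subset_closure ⟨1, 1, l, hl, by rw [map_one, one_mul, mul_one]⟩

/-- `Y = C P`. -/
theorem gen_mul {C P Y : Subgroup G} {W : Set (List G)} {N M : ℕ} (hC : Gen C (KW W) N)
    (hP : Gen P (KW W) M) (hY : ∀ y ∈ Y, ∃ c ∈ C, ∃ u ∈ P, y = c * u) :
    Gen Y (KW W) (N * M) := by
  classical
  obtain ⟨S, h1, h2⟩ := hC
  obtain ⟨T, k1, k2⟩ := hP
  refine ⟨Finset.image₂ (· * ·) S T,
    (Finset.card_image₂_le _ _ _).trans (Nat.mul_le_mul h1 k1), ?_⟩
  conv_lhs => rw [ZS]
  rw [AddSubgroup.closure_le]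
  rintro _ ⟨y, hy, rfl⟩
  obtain ⟨c, hc, u, hu, rfl⟩ := hY y hy
  have hc' := h2 (of_mem_ZS hc)
  have hu' := k2 (of_mem_ZS hu)
  rw [AddSubgroup.mem_sup] at hc' hu'
  obtain ⟨a, ha, b, hb, e1⟩ := hc'
  obtain ⟨a', ha', b', hb', e2⟩ := hu'
  rw [SetLike.mem_coe, map_mul, ← e1, ← e2, add_mul, mul_add]
  refine AddSubgroup.add_mem _ (AddSubgroup.add_mem _ (AddSubgroup.mem_sup_left ?_)
    (AddSubgroup.mem_sup_right (KW_left hb'))) (AddSubgroup.mem_sup_right (KW_right hb))
  refine closure_mul_mem ?_ ha ha'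
  intro s hs t ht
  exact AddSubgroup.subset_closure (Finset.mem_coe.2 (Finset.mem_image₂_of_mem hs ht))

/-- monomials as words. -/
lemma op_eq_word {r : ℕ} {Q : ℕ → G → Prop} {x : Fin r → G} {w : Fin r → ℕ}
    (hx : ∀ l, Q (w l) (x l)) (b : Fin r → ℕ) : ∃ L : List (G × ℕ),
      (∀ a ∈ L, Q a.2 a.1) ∧ (L.map Prod.snd).sum = ∑ l, b l * w l ∧
        op (fun l => dl (x l)) b = ((L.map Prod.fst).map dl).prod := by
  have key : ∀ (r : ℕ) (x : Fin r → G) (w : Fin r → ℕ), (∀ l, Q (w l) (x l)) →
      ∀ b : Fin r → ℕ, ∃ L : List (G × ℕ), (∀ a ∈ L, Q a.2 a.1) ∧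
        (L.map Prod.snd).sum = ∑ l, b l * w l ∧
        op (fun l => dl (x l)) b = ((L.map Prod.fst).map dl).prod := by
    intro r
    induction r with
    | zero =>
      intro x w _ b
      exact ⟨[], by simp, by simp, by simp [op_zero]⟩
    | succ r ih =>
      intro x w hx b
      obtain ⟨L, h1, h2, h3⟩ := ih (fun l => x l.succ) (fun l => w l.succ) (fun l => hx l.succ)
        (fun l => b l.succ)
      refine ⟨List.replicate (b 0) (x 0, w 0) ++ L, ?_, ?_, ?_⟩
      · intro q hq
        rcases List.mem_append.1 hq with hq | hq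
        · rw [List.eq_of_mem_replicate hq]
          exact hx 0
        · exact h1 q hq
      · rw [List.map_append, List.sum_append, h2, List.map_replicate, List.sum_replicate,
          Fin.sum_univ_succ, smul_eq_mul]
      · rw [op_succ, h3, List.map_append, List.map_append, List.prod_append, List.map_replicate,
          List.map_replicate, List.prod_replicate]
  exact key r x w hx b

end

end RKT
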