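import Mathlib
import Pool.Agent.Helper82.RK.FinalCount

/-! Project RK (MP_aa96c4_al): stage count, base count, and the small module. -/

namespace RKT

open MonoidAlgebra
open RKC2 (PP Cj rj PN NSer)
open Pool.Agent.Helper27.BE Pool.Agent.Helper60.RK
open Pool.Agent.Helper32.RK (Det)
open RK43 (TT XW HH)

variable {G : Type} [Group G] [Finite G] {p : ℕ} [hp : Fact p.Prime]

omit [Finite G] in
lemma Cj_normal (k j : ℕ) : (Cj (PP p G k) j).Normal := by
  have := RKC2.PP_normal (p := p) (G := G) k j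
  unfold Cj
  infer_instance

omit [Finite G] in
lemma XW_normal (k j w : ℕ) : (XW p G k j w).Normal := by
  have h1 := Cj_normal (p := p) (G := G) k j
  have h2 := dimSub_normal (p := p) (B := G) w
  exact Subgroup.normal_inf_normal _ _

/-- **stage count**. -/
theorem stage_count {n k : ℕ} (hG : Nat.card G = p ^ n) (S : PN p (PP p G k) 2) {j j' : ℕ}
    (hj : 16 ≤ j) (hjj : j ≤ j') {W : Set (List G)} {R b : ℕ}
    (hWA : RK43.WA p G k j' (HH p k j) R ⊆ W) (hWB : RK43.WB p G k j j' (b + 1) ⊆ W) {N : ℕ}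
    (hN : Gen (Cj (PP p G k) j) (KW W) N) {m : ℕ} {β : ℝ} (hβ : 0 < β) (hm : 1 ≤ 2 ^ m * β) :
    ∃ c : ℕ, Gen (Cj (PP p G k) j') (KW W) (N * (n + 1) ^ b * c) ∧
      (c : ℝ) ≤ (p : ℝ) ^ (β * R + (rj p (PP p G k) j : ℝ) * m + 3 * (rj p (PP p G k) j : ℝ)) := by
  have hGp : IsPGroup p G := IsPGroup.of_card hG
  set X := Cj (PP p G k) j' with hX
  set C := Cj (PP p G k) j with hC
  set P := XW p G k j' (HH p k j) with hP
  have hXn : X.Normal := Cj_normal k j'
  have hCn : C.Normal := Cj_normal k j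
  have hPn : P.Normal := XW_normal k j' _
  have hCX : C ≤ X := S.Cj_mono hjj
  have hPX : P ≤ X := inf_le_left
  set Y := C ⊔ P with hY
  have hYn : Y.Normal := Subgroup.sup_normal _ _
  have hYX : Y ≤ X := sup_le hCX hPX
  obtain ⟨r, x, w, hr, hx, hw, hblock, hdig⟩ := letters_XY hp.out (n := n) (by rw [hG])
    (RKC2.NSer_dim (p := p) (G := G)) (fun i => dimSub_normal i) hXn hYn hYX (HH p k j)
    (by rw [hY]; exact le_sup_right)
    (ρ := rj p (PP p G k) j) (fun D' N' hN' h1 h2 =>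
      S.rank' hGp (by omega) hj D' N' ((le_sup_left : C ≤ Y).trans hN') h1 h2)
  refine ⟨(Finset.univ.filter (fun α : Fin r → Fin p => ∑ l, (α l : ℕ) * w l < R)).card, ?_,
    count_monomials hp.out.two_le w (fun l => (hw l).1) _ hblock m hβ hm R⟩
  -- `ℤ[Y]`
  have hGenP : Gen P (KW W) ((n + 1) ^ b) := by
    refine (gen_JL' hp.out P (n := n) (by rw [← hG]; exact Subgroup.card_subgroup_dvd_card P)
      b).mono ?_ le_rfl
    rw [JL, AddSubgroup.closure_le]
    rintro _ ⟨L, g, hg, hL, hlen, rfl⟩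
    exact KW_right (word_mem_KW (hWB ⟨hlen, hL⟩))
  have hGenY : Gen Y (KW W) (N * (n + 1) ^ b) := by
    refine gen_mul hN hGenP (fun y hy => ?_)
    rw [hY, Subgroup.mem_sup_of_normal_right] at hy
    obtain ⟨c, hc, u, hu, e⟩ := hy
    exact ⟨c, hc, u, hu, e.symm⟩
  refine gen_stage (fun a _ b hb => KW_left hb) (fun a ha b _ => KW_right ha) hGenY
    (fun l => (hx l).1) hdig ?_
  intro a _ hR
  obtain ⟨L, h1, h2, h3⟩ := op_eq_word (Q := fun v y => y ∈ XW p G k j' v ∧ v ≤ HH p k j)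
    (fun l => ⟨hx l, (hw l).2.le⟩) a
  rw [h3]
  exact word_mem_KW (hWA ⟨L, h1, by rw [RK43.wt, h2]; exact hR, rfl⟩)

/-- **base count**. -/
theorem base_count {n k : ℕ} (hG : Nat.card G = p ^ n) {j : ℕ} {Y : Subgroup G} (hYn : Y.Normal)
    (hY1 : XW p G k j (HH p k j) ≤ Y) (hY2 : Y ≤ Cj (PP p G k) j) {W : Set (List G)} {K : ℕ}
    (hWA : RK43.WA p G k j (HH p k j) K ⊆ W)
    (hWY : {l : List G | l.length = 2 ∧ ∀ x ∈ l, x ∈ Y} ⊆ W) :
    Gen (Cj (PP p G k) j) (KW W) ((n + 1) * (n + K).choose n) := by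
  have hXn : (Cj (PP p G k) j).Normal := Cj_normal k j
  obtain ⟨r, x, w, hr, hx, hw, -, hdig⟩ := letters_XY hp.out (n := n) (by rw [hG])
    (RKC2.NSer_dim (p := p) (G := G)) (fun i => dimSub_normal i) hXn hYn hY2 (HH p k j) hY1
    (ρ := n) (fun D' N' _ _ _ => by
      have h7 : N'.relIndex D' ∣ Nat.card G :=
        (Subgroup.relIndex_dvd_card _ _).trans (Subgroup.card_subgroup_dvd_card _)
      rw [hG] at h7
      exact Nat.le_of_dvd (pow_pos hp.out.pos n) h7)
  have hGenY : Gen Y (KW W) (n + 1) := by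
    have := (gen_JL' hp.out Y (n := n) (by rw [← hG]; exact Subgroup.card_subgroup_dvd_card Y)
      1).mono (J := KW W) ?_ le_rfl
    · rwa [pow_one] at this
    · rw [JL, AddSubgroup.closure_le]
      rintro _ ⟨L, g, hg, hL, hlen, rfl⟩
      exact KW_right (word_mem_KW (hWY ⟨hlen, hL⟩))
  refine (gen_stage (fun a _ b hb => KW_left hb) (fun a ha b _ => KW_right ha) hGenY
    (fun l => (hx l).1) hdig (w := w) (R := K) ?_).mono le_rfl (Nat.mul_le_mul_left _ ?_)
  · intro a _ hR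
    obtain ⟨L, h1, h2, h3⟩ := op_eq_word (Q := fun v y => y ∈ XW p G k j v ∧ v ≤ HH p k j)
      (fun l => ⟨hx l, (hw l).2.le⟩) a
    rw [h3]
    exact word_mem_KW (hWA ⟨L, h1, by rw [RK43.wt, h2]; exact hR, rfl⟩)
  · refine (card_small p r K w (fun l => (hw l).1)).trans ?_
    refine (Nat.choose_le_choose K (Nat.add_le_add_right hr K)).trans ?_
    rw [Nat.choose_symm_add]

omit [Finite G] in
/-- the module of a functional which kills a set of words. -/
theorem det_of_gen {N e : ℕ} {W : Set (List G)} (hW : Gen (⊤ : Subgroup G) (KW W) N)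
    {f : G → TT} (he : ∀ g, p ^ e • f g = 0)
    (hk : ∀ (g h : G), ∀ l ∈ W,
      RK43.ext f (MonoidAlgebra.of ℤ G g * RK43.wd l * MonoidAlgebra.of ℤ G h) = 0) {z : G}
    (hz : f z ≠ f 1) : Det p (N * e) G z := by
  classical
  obtain ⟨S, hS1, hS2⟩ := hW
  have hker : ∀ a ∈ KW W, RK43.ext f a = 0 := by
    intro a ha
    induction ha using AddSubgroup.closure_induction with
    | mem x hx =>
      obtain ⟨g, h, l, hl, rfl⟩ := hx
      exact hk g h l hl
    | zero => exact map_zero _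
    | add x y _ _ hx hy => rw [map_add, hx, hy, add_zero]
    | neg x _ hx => rw [map_neg, hx, neg_zero]
  -- the map `a ↦ (x ↦ f (x a))`
  let Φ : MonoidAlgebra ℤ G →+ (G → TT) :=
    { toFun := fun a x => RK43.ext f (MonoidAlgebra.of ℤ G x * a)
      map_zero' := by funext x; simp
      map_add' := fun a b => by funext x; simp [mul_add] }
  have hΦof : ∀ b : G, Φ (MonoidAlgebra.of ℤ G b) = fun x => f (x * b) := by
    intro b
    funext x
    change RK43.ext f (MonoidAlgebra.of ℤ G x * MonoidAlgebra.of ℤ G b) = f (x * b)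
    rw [← map_mul]
    exact ext_of f (x * b)
  have hrange : ∀ a, Φ a ∈ AddSubgroup.closure (Set.range fun (b : G) (x : G) => f (x * b)) := by
    intro a
    have ha := mem_top_ZS a
    induction ha using AddSubgroup.closure_induction with
    | mem x hx =>
      obtain ⟨b, _, rfl⟩ := hx
      rw [hΦof]
      exact AddSubgroup.subset_closure ⟨b, rfl⟩
    | zero => rw [map_zero]; exact AddSubgroup.zero_mem _
    | add x y _ _ hx hy => rw [map_add]; exact AddSubgroup.add_mem _ hx hy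
    | neg x _ hx => rw [map_neg]; exact AddSubgroup.neg_mem _ hx
  refine Pool.Agent.Helper32.RK.det_of_fun' hp.out f he (S.image Φ)
    (Finset.card_image_le.trans hS1) ?_ ?_ 1 (by rwa [one_mul])
  · intro t ht
    obtain ⟨s, _, rfl⟩ := Finset.mem_image.1 ht
    exact hrange s
  · intro b
    rw [← hΦof]
    apply AddSubgroup.mem_sup_left
    have hb := hS2 (of_mem_ZS (Subgroup.mem_top b))
    rw [AddSubgroup.mem_sup] at hb
    obtain ⟨u, hu, v, hv, e⟩ := hb
    have hv0 : Φ v = 0 := by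
      funext x
      exact hker _ (KW_left hv)
    rw [← e, map_add, hv0, add_zero]
    have h1 : AddSubgroup.closure (S : Set (MonoidAlgebra ℤ G)) ≤
        (AddSubgroup.closure ((S.image Φ : Finset _) : Set (G → TT))).comap Φ := by
      rw [AddSubgroup.closure_le]
      intro s hs
      exact AddSubgroup.subset_closure (Finset.mem_coe.2 (Finset.mem_image_of_mem Φ hs))
    exact h1 hu

/-- **from the final functional to a small module**. -/
theorem final_det (hF : RK43.FinalThm p) {n k : ℕ} (hG : Nat.card G = p ^ n) (hk1 : 1 ≤ k)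
    (hk : gam G (k + 1) = ⊥) (hkn : k ≤ n) {s : ℕ} {js : ℕ → ℕ} (hj0 : 16 ≤ js 0)
    (hjs : ∀ i < s, 2 * js i ≤ js (i + 1)) (hs : js s = n) {β : ℕ → ℝ} {m : ℕ → ℕ}
    (hβ : ∀ i < s, 0 < β i ∧ 1 ≤ 2 ^ (m i) * β i) {z : G} (hz : z ∈ Subgroup.center G)
    (hz1 : z ≠ 1) :
    ∃ ρ : ℕ → ℝ, ρ 0 = (((n + 1) * (n + p ^ 3 * HH p k (js 0)).choose n : ℕ) : ℝ) ∧
      (∀ i < s, ρ (i + 1) = (p : ℝ) ^ (β i * (RK43.RR p k (RK43.kap p js i) (js i) (js (i + 1)) : ℕ)
        + (rj p (PP p G k) (js i) : ℝ) * m i + 3 * (rj p (PP p G k) (js i) : ℝ)) *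
        (ρ i * ((n + 1 : ℕ) : ℝ) ^ (RK43.b0 (js i) (js (i + 1)) - 1))) ∧
      ∃ N : ℕ, (N : ℝ) ≤ ρ s ∧ Det p (N * (2 * n + 3)) G z := by
  have hGp : IsPGroup p G := IsPGroup.of_card hG
  have S := RKC2.PN_PP hGp hk1 hk
  have hpow : ∀ g : G, g ^ p ^ n = 1 := fun g => by rw [← hG]; exact pow_card_eq_one'
  have hbot : PP p G k (js s) = ⊥ := by
    rw [hs, eq_bot_iff]
    have h1 := RKC2.PP_clos (G := G) hGp hk1 hk 0 n
    rw [zero_add] at h1
    refine h1.trans ?_
    rw [RKP.pw_le]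
    intro r _
    rw [hpow r]
    exact Subgroup.one_mem _
  have hkp : k ≤ p ^ n := hkn.trans (Nat.lt_pow_self hp.out.one_lt).le
  obtain ⟨Y, hYn, hY1, hY2, hfz⟩ := hF hGp k hk1 hk js s (2 * n + 3) (by omega) hjs hbot
    (by
      rw [hs, HH]
      calc p ^ 3 * (p ^ n * k) ≤ p ^ 3 * (p ^ n * p ^ n) :=
            Nat.mul_le_mul_left _ (Nat.mul_le_mul_left _ hkp)
        _ = p ^ (2 * n + 3) := by rw [← pow_add, ← pow_add]; congr 1; ring)
    (fun g => by
      have : 2 * n + 3 = n + (n + 3) := by ring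
      rw [this, pow_add, pow_mul, hpow, one_pow])
  obtain ⟨f, hf1, hfz0, hfe, hfk⟩ := hfz z hz hz1
  set W : Set (List G) := {l | l ∈ RK43.WA p G k (js 0) (HH p k (js 0)) (p ^ 3 * HH p k (js 0)) ∨
        (l.length = 2 ∧ ∀ x ∈ l, x ∈ Y) ∨
        ∃ i < s, l ∈ RK43.WA p G k (js (i + 1)) (HH p k (js i))
            (RK43.RR p k (RK43.kap p js i) (js i) (js (i + 1))) ∨
          l ∈ RK43.WB p G k (js i) (js (i + 1)) (RK43.b0 (js i) (js (i + 1)))} with hWdef
  set ρ : ℕ → ℝ := fun i => Nat.rec (((n + 1) * (n + p ^ 3 * HH p k (js 0)).choose n : ℕ) : ℝ)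
    (fun i v => (p : ℝ) ^ (β i * (RK43.RR p k (RK43.kap p js i) (js i) (js (i + 1)) : ℕ)
        + (rj p (PP p G k) (js i) : ℝ) * m i + 3 * (rj p (PP p G k) (js i) : ℝ)) *
        (v * ((n + 1 : ℕ) : ℝ) ^ (RK43.b0 (js i) (js (i + 1)) - 1))) i with hρ
  refine ⟨ρ, rfl, fun i _ => rfl, ?_⟩
  have hjmono : ∀ i, i ≤ s → 16 ≤ js i := by
    intro i
    induction i with
    | zero => intro _; exact hj0
    | succ i ih =>
      intro hi
      have h1 := ih (by omega)
      have h2 := hjs i (by omega)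
      omega
  have key : ∀ i, i ≤ s → ∃ N : ℕ, (N : ℝ) ≤ ρ i ∧ Gen (Cj (PP p G k) (js i)) (KW W) N := by
    intro i
    induction i with
    | zero =>
      intro _
      refine ⟨_, le_rfl, base_count hG hYn hY1 hY2 ?_ ?_⟩
      · intro l hl; exact Or.inl hl
      · intro l hl; exact Or.inr (Or.inl hl)
    | succ i ih =>
      intro hi
      obtain ⟨N, hN1, hN2⟩ := ih (by omega)
      have hb : RK43.b0 (js i) (js (i + 1)) - 1 + 1 = RK43.b0 (js i) (js (i + 1)) := by
        unfold RK43.b0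
        generalize (js (i + 1) - js i) / js i = q
        omega
      obtain ⟨c, hc1, hc2⟩ := stage_count (k := k) hG S (hjmono i (by omega))
        (j' := js (i + 1)) (by have := hjs i (by omega); omega) (W := W)
        (R := RK43.RR p k (RK43.kap p js i) (js i) (js (i + 1)))
        (b := RK43.b0 (js i) (js (i + 1)) - 1)
        (fun l hl => Or.inr (Or.inr ⟨i, by omega, Or.inl hl⟩))
        (fun l hl => Or.inr (Or.inr ⟨i, by omega, Or.inr (by rwa [hb] at hl)⟩)) hN2
        (hβ i (by omega)).1 (hβ i (by omega)).2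
      refine ⟨_, ?_, hc1⟩
      have h1 : (0 : ℝ) ≤ (c : ℝ) := Nat.cast_nonneg c
      change ((N * (n + 1) ^ (RK43.b0 (js i) (js (i + 1)) - 1) * c : ℕ) : ℝ) ≤
        (p : ℝ) ^ (β i * (RK43.RR p k (RK43.kap p js i) (js i) (js (i + 1)) : ℕ)
        + (rj p (PP p G k) (js i) : ℝ) * m i + 3 * (rj p (PP p G k) (js i) : ℝ)) *
        (ρ i * ((n + 1 : ℕ) : ℝ) ^ (RK43.b0 (js i) (js (i + 1)) - 1))
      rw [Nat.cast_mul, Nat.cast_mul, Nat.cast_pow, mul_comm]
      exact mul_le_mul hc2 (mul_le_mul_of_nonneg_right hN1 (by positivity)) (by positivity)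
        (Real.rpow_nonneg (Nat.cast_nonneg p) _)
  obtain ⟨N, hN1, hN2⟩ := key s le_rfl
  refine ⟨N, hN1, ?_⟩
  have htop : Cj (PP p G k) (js s) = ⊤ := by
    rw [Cj, hbot]
    simp
  rw [htop] at hN2
  refine det_of_gen hN2 hfe (fun g h l hl => hfk g h l hl) (by rwa [hf1])

end RKT
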