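import Mathlib
import Pool.Agent.Helper82.RK.FinalDet

/-! Project RK (MP_aa96c4_al): the final functional from the stage theorem and the base theorem. -/

namespace RKT

open RK43
open RKC2 (PP Cj PN)
open Pool.Agent.Helper27.BE Pool.Agent.Helper60.RK

variable {p : ℕ} [hp : Fact p.Prime]

/-- the words of the first `i` stages. -/
def WW (p : ℕ) [Fact p.Prime] (G : Type) [Group G] (k : ℕ) (js : ℕ → ℕ) (Y : Subgroup G) :
    ℕ → Set (List G)
  | 0 => WA p G k (js 0) (HH p k (js 0)) (p ^ 3 * HH p k (js 0)) ∪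
      {l | l.length = 2 ∧ ∀ x ∈ l, x ∈ Y}
  | i + 1 => WW p G k js Y i ∪ WA p G k (js (i + 1)) (HH p k (js i))
      (RR p k (kap p js i) (js i) (js (i + 1))) ∪ WB p G k (js i) (js (i + 1))
      (b0 (js i) (js (i + 1)))

lemma wok_WA {G : Type} [Group G] {k j H R : ℕ} (hR : 1 ≤ R) : WOK p G k j (WA p G k j H R) := by
  rintro l ⟨L, h1, h2, rfl⟩
  refine ⟨?_, ?_, ?_⟩
  · intro h
    rw [List.map_eq_nil_iff] at h
    subst h
    simp [RK43.wt] at h2
    omega
  · intro x hx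
    obtain ⟨a, ha, rfl⟩ := List.mem_map.1 hx
    exact (h1 a ha).1.1
  · intro g
    refine ⟨L.map (fun a => (g * a.1 * g⁻¹, a.2)), ?_, ?_, ?_⟩
    · intro a ha
      obtain ⟨a', ha', rfl⟩ := List.mem_map.1 ha
      exact ⟨(XW_normal k j _).conj_mem _ (h1 a' ha').1 g, (h1 a' ha').2⟩
    · rw [RK43.wt, List.map_map]
      exact h2
    · rw [List.map_map, List.map_map]
      rfl

lemma wok_WB {G : Type} [Group G] {k j j' b : ℕ} (hb : 1 ≤ b) : WOK p G k j' (WB p G k j j' b) := by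
  rintro l ⟨h1, h2⟩
  refine ⟨?_, fun x hx => (h2 x hx).1, fun g => ⟨by rw [List.length_map, h1], ?_⟩⟩
  · rintro rfl
    simp at h1
    omega
  · intro x hx
    obtain ⟨a, ha, rfl⟩ := List.mem_map.1 hx
    exact (XW_normal k j' _).conj_mem _ (h2 a ha) g

lemma wok_union {G : Type} [Group G] {k j : ℕ} {W W' : Set (List G)} (h : WOK p G k j W)
    (h' : WOK p G k j W') : WOK p G k j (W ∪ W') := by
  rintro l (hl | hl)
  · obtain ⟨h1, h2, h3⟩ := h l hl
    exact ⟨h1, h2, fun g => Or.inl (h3 g)⟩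
  · obtain ⟨h1, h2, h3⟩ := h' l hl
    exact ⟨h1, h2, fun g => Or.inr (h3 g)⟩

lemma HH_pos {k j : ℕ} (hk : 1 ≤ k) : 1 ≤ HH p k j :=
  Nat.mul_pos (pow_pos hp.out.pos j) hk

omit hp in
lemma RR_pos (k κ j j' : ℕ) : 1 ≤ RR p k κ j j' := by unfold RR; omega

lemma b0_pos (j j' : ℕ) : 1 ≤ b0 j j' := by
  unfold b0
  generalize (j' - j) / j = q
  omega

lemma b0_le {j j' : ℕ} : b0 j j' ≤ p ^ (j' + 2) := by
  have h1 : (j' - j) / j ≤ j' := (Nat.div_le_self _ _).trans (Nat.sub_le _ _)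
  have h2 : j' + 3 ≤ 2 ^ (j' + 2) := by
    have h3 : j' + 1 ≤ 2 ^ j' := Nat.lt_two_pow_self
    have h4 : 2 ^ (j' + 2) = 4 * 2 ^ j' := by rw [pow_add]; ring
    omega
  have h5 : 2 ^ (j' + 2) ≤ p ^ (j' + 2) := Nat.pow_le_pow_left hp.out.two_le _
  unfold b0
  generalize (j' - j) / j = q at *
  omega

lemma kap_le {js : ℕ → ℕ} {s : ℕ} (h0 : 2 ≤ js 0) (hjs : ∀ i < s, 2 * js i ≤ js (i + 1)) (i : ℕ)
    (hi : i ≤ s) : 2 ≤ js i ∧ kap p js i ≤ p ^ 3 * p ^ js i := by
  induction i with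
  | zero =>
    refine ⟨h0, ?_⟩
    rw [kap]
    exact Nat.le_mul_of_pos_right _ (pow_pos hp.out.pos _)
  | succ i ih =>
    obtain ⟨h1, -⟩ := ih (by omega)
    have h2 := hjs i (by omega)
    refine ⟨by omega, ?_⟩
    rw [kap]
    refine max_le (Nat.le_mul_of_pos_right _ (pow_pos hp.out.pos _)) ?_
    calc p * b0 (js i) (js (i + 1)) ≤ p * p ^ (js (i + 1) + 2) :=
          Nat.mul_le_mul_left _ b0_le
      _ = p ^ 3 * p ^ js (i + 1) := by rw [← pow_succ', ← pow_add]; congr 1; ring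

/-- **FinalThm** from the stage theorem and the base theorem. -/
theorem finalThm (hS : StageThm p) (hB : BaseThm p) : FinalThm p := by
  intro G _ _ hG k hk1 hk js s e h0 hjs hbot he hpe
  have S := RKC2.PN_PP hG hk1 hk
  obtain ⟨Y, hYn, hY1, hY2, hY3⟩ := hB hG k hk1 hk (js 0) h0
  refine ⟨Y, hYn, hY1, hY2, fun z hz hz1 => ?_⟩
  obtain ⟨f0, χ0, hD0, hf0⟩ := hY3 z hz hz1
  have hmono : ∀ a b, a ≤ b → Cj (PP p G k) a ≤ Cj (PP p G k) b := fun a b h => S.Cj_mono h
  have hzC : ∀ j, z ∈ Cj (PP p G k) j := by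
    intro j
    rw [Cj, Subgroup.mem_centralizer_iff]
    intro x _
    exact Subgroup.mem_center_iff.1 hz x
  have hwokmono : ∀ {a b : ℕ} {W : Set (List G)}, a ≤ b → WOK p G k a W → WOK p G k b W := by
    intro a b W hab h l hl
    obtain ⟨h1, h2, h3⟩ := h l hl
    exact ⟨h1, fun x hx => hmono a b hab (h2 x hx), h3⟩
  have key : ∀ i, i ≤ s → WOK p G k (js i) (WW p G k js Y i) ∧ ∃ f χ : G → TT,
      Data p G k (js i) (kap p js i) (WW p G k js Y i) f χ ∧ f z ≠ 0 := by
    intro i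
    induction i with
    | zero =>
      intro _
      refine ⟨wok_union (wok_WA ?_) ?_, f0, χ0, hD0, hf0⟩
      · exact Nat.mul_pos (pow_pos hp.out.pos 3) (HH_pos hk1)
      · rintro l ⟨h1, h2⟩
        refine ⟨?_, fun x hx => hY2 (h2 x hx), fun g => ⟨by rw [List.length_map, h1], ?_⟩⟩
        · rintro rfl
          simp at h1
        · intro x hx
          obtain ⟨a, ha, rfl⟩ := List.mem_map.1 hx
          exact hYn.conj_mem _ (h2 a ha) g
    | succ i ih =>
      intro hi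
      obtain ⟨hW, f, χ, hD, hf⟩ := ih (by omega)
      have h1 := kap_le (p := p) h0 hjs i (by omega)
      have h2 := hjs i (by omega)
      obtain ⟨f', χ', hD', hf'⟩ := hS hG k hk1 hk (js i) (js (i + 1)) (kap p js i)
        (kap p js (i + 1)) h1.1 (by omega) (by rw [kap]; exact le_max_left _ _)
        (by rw [kap]; exact le_max_right _ _)
        (by
          have h3 : p ^ 3 ≤ kap p js (i + 1) := by rw [kap]; exact le_max_left _ _
          calc kap p js i * HH p k (js i) ≤ (p ^ 3 * p ^ js i) * HH p k (js i) :=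
                Nat.mul_le_mul_right _ h1.2
            _ = p ^ 3 * (p ^ (2 * js i) * k) := by rw [HH, two_mul, pow_add]; ring
            _ ≤ p ^ 3 * (p ^ (js (i + 1)) * k) := Nat.mul_le_mul_left _
                (Nat.mul_le_mul_right _ (Nat.pow_le_pow_right hp.out.pos h2))
            _ ≤ kap p js (i + 1) * HH p k (js (i + 1)) := Nat.mul_le_mul_right _ h3)
        (WW p G k js Y i) f χ hW hD
      refine ⟨wok_union (wok_union (hwokmono (by omega) hW) (wok_WA (RR_pos _ _ _ _)))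
        (wok_WB (b0_pos _ _)), f', χ', hD', by rw [hf' z (hzC _)]; exact hf⟩
  obtain ⟨hW, f, χ, hD, hf⟩ := key s le_rfl
  have htop : Cj (PP p G k) (js s) = ⊤ := by
    rw [Cj, hbot]
    simp
  have hχ1 : χ 1 = 0 := by
    have h1 := hD.hom 1 (Subgroup.one_mem _) 1 (Subgroup.one_mem _)
    rw [mul_one] at h1
    exact (left_eq_add.1 h1)
  refine ⟨f, hD.one, hf, ?_, ?_⟩
  · intro g
    have h1 := hD.single 1 e g (by
      rw [XW, htop, dimSub_one]
      exact ⟨trivial, trivial⟩) (by rwa [mul_one])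
    rw [h1, hpe, hχ1]
  · intro g h l hl
    have hlW : l ∈ WW p G k js Y s := by
      have hsub : ∀ i, i ≤ s → WW p G k js Y i ⊆ WW p G k js Y s := by
        intro i hi
        obtain ⟨d, rfl⟩ := Nat.exists_eq_add_of_le hi
        clear hl hf hD hW key hpe he hbot hjs htop
        induction d with
        | zero => exact le_rfl
        | succ d ih =>
          refine (ih (by omega)).trans ?_
          intro l hl
          exact Or.inl (Or.inl hl)
      rcases hl with hl | hl | ⟨i, hi, hl | hl⟩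
      · exact hsub 0 (Nat.zero_le _) (Or.inl hl)
      · exact hsub 0 (Nat.zero_le _) (Or.inr hl)
      · exact hsub (i + 1) hi (Or.inl (Or.inr hl))
      · exact hsub (i + 1) hi (Or.inr hl)
    obtain ⟨-, -, h3⟩ := hW l hlW
    have e1 : MonoidAlgebra.of ℤ G g * wd l * MonoidAlgebra.of ℤ G h =
        MonoidAlgebra.of ℤ G (g * h) * wd (l.map (fun x => h⁻¹ * x * h⁻¹⁻¹)) := by
      have e2 := cjg_list (G := G) h⁻¹ l
      have e3 := mul_of_eq h (wd l)
      change cjg h⁻¹ (wd l) = wd (l.map (fun x => h⁻¹ * x * h⁻¹⁻¹)) at e2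
      rw [mul_assoc, e3, e2, ← mul_assoc, ← map_mul]
    rw [e1]
    exact hD.kill _ (h3 h⁻¹) _ (by rw [htop]; trivial)

end RKT
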