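import Mathlib
import Pool.Agent.Helper27.BE.Half

/-! Project RK (MP_aa96c4_al): class reduction, keeping a central element. -/

namespace RKT

open scoped commutatorElement
open Pool.Agent.Helper27.BE

variable {G : Type} [Group G]

lemma comm_sup_central {A H Z : Subgroup G} (hZ : ∀ z ∈ Z, ∀ g : G, g * z = z * g) :
    ⁅A, H ⊔ Z⁆ ≤ ⁅A, H⁆ := by
  have hZn : Z.Normal := ⟨fun z hz g => by rw [hZ z hz g, mul_assoc, mul_inv_cancel, mul_one]; exact hz⟩
  rw [Subgroup.commutator_le]
  intro a ha b hb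
  rw [Subgroup.mem_sup_of_normal_right] at hb
  obtain ⟨h, hh, z, hz, rfl⟩ := hb
  have e : ⁅a, h * z⁆ = ⁅a, h⁆ := by
    rw [commutatorElement_def, commutatorElement_def, mul_inv_rev]
    calc a * (h * z) * a⁻¹ * (z⁻¹ * h⁻¹) = a * h * (z * a⁻¹) * z⁻¹ * h⁻¹ := by group
      _ = a * h * (a⁻¹ * z) * z⁻¹ * h⁻¹ := by rw [hZ z hz a⁻¹]
      _ = a * h * a⁻¹ * h⁻¹ := by group
  rw [e]
  exact Subgroup.commutator_mem_commutator ha hh

/-- the lower central series does not see central elements. -/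
lemma lcs_sup_central {H Z : Subgroup G} (hZ : ∀ z ∈ Z, ∀ g : G, g * z = z * g) (i : ℕ) :
    (H ⊔ Z).lowerCentralSeries (i + 1) ≤ H.lowerCentralSeries (i + 1) := by
  induction i with
  | zero =>
    rw [Subgroup.lowerCentralSeries_succ, Subgroup.lowerCentralSeries_succ,
      Subgroup.lowerCentralSeries_zero, Subgroup.lowerCentralSeries_zero]
    refine (comm_sup_central hZ).trans ?_
    rw [Subgroup.commutator_comm]
    refine (comm_sup_central hZ).trans ?_
    rw [Subgroup.commutator_comm]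
  | succ i ih =>
    rw [Subgroup.lowerCentralSeries_succ, Subgroup.lowerCentralSeries_succ H]
    exact (Subgroup.commutator_mono ih le_rfl).trans (comm_sup_central hZ)

/-- class reduction with a central element. -/
theorem redZ {p : ℕ} (hp : p.Prime) (δ : ℝ) (hδ : 0 < δ) :
    ∃ n₁ : ℕ, ∀ n, n₁ ≤ n → ∀ (G : Type) [Group G], Nat.card G = p ^ n →
      ∀ z ∈ Subgroup.center G, ∃ (B : Subgroup G) (_ : z ∈ B) (s k m : ℕ), B.index = p ^ s ∧
        (s : ℝ) ≤ δ * n ∧ 1 ≤ k ∧ (k : ℝ) ≤ δ * n ∧ gam B (k + 1) = ⊥ ∧ Nat.card B = p ^ m ∧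
        m + s = n := by
  obtain ⟨n₁, h1⟩ := theoremA hp δ hδ
  refine ⟨max n₁ ⌈1 / δ⌉₊, fun n hn G _ hG z hz => ?_⟩
  have hfin : Finite G := Nat.finite_of_card_ne_zero (by rw [hG]; exact pow_ne_zero _ hp.ne_zero)
  obtain ⟨H, s, k, hs, hsn, hkn, hk⟩ := h1 n ((le_max_left _ _).trans hn) G hG
  set B := H ⊔ Subgroup.zpowers z with hB
  have hZ : ∀ w ∈ Subgroup.zpowers z, ∀ g : G, g * w = w * g := by
    intro w hw g
    have : w ∈ Subgroup.center G := (Subgroup.zpowers_le.2 hz) hw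
    exact (Subgroup.mem_center_iff.1 this g)
  have hzB : z ∈ B := (le_sup_right : _ ≤ B) (Subgroup.mem_zpowers z)
  have hdvd : B.index ∣ p ^ s := by rw [← hs]; exact Subgroup.index_dvd_of_le le_sup_left
  obtain ⟨t, hts, ht⟩ := (Nat.dvd_prime_pow hp).1 hdvd
  have hcard : Nat.card B ∣ p ^ n := by rw [← hG]; exact Subgroup.card_subgroup_dvd_card B
  obtain ⟨m, hmn, hm⟩ := (Nat.dvd_prime_pow hp).1 hcard
  have hnR : (1 : ℝ) ≤ δ * n := by
    have h2 : (1 / δ : ℝ) ≤ n := (Nat.le_ceil _).trans (by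
      exact_mod_cast (le_max_right _ _).trans hn)
    rw [div_le_iff₀ hδ] at h2
    linarith
  refine ⟨B, hzB, t, max k 1, m, ht, ?_, le_max_right _ _, ?_, ?_, hm, ?_⟩
  · have : (t : ℝ) ≤ s := by exact_mod_cast hts
    linarith
  · rw [Nat.cast_max, Nat.cast_one]
    exact max_le hkn hnR
  · -- class
    have hHk : H.lowerCentralSeries k = ⊥ := by
      rw [← Subgroup.top_subtype_lowerCentralSeries, Subgroup.map_eq_bot_iff_of_injective _
        H.subtype_injective]
      exact hk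
    have hBk : B.lowerCentralSeries (max k 1) = ⊥ := by
      obtain ⟨i, hi⟩ : ∃ i, max k 1 = i + 1 := ⟨max k 1 - 1, by have := le_max_right k 1; omega⟩
      rw [hi, eq_bot_iff]
      refine (lcs_sup_central hZ i).trans ?_
      rw [← hHk, ← hi]
      exact Subgroup.lowerCentralSeries_antitone _ (le_max_left _ _)
    rw [← Subgroup.top_subtype_lowerCentralSeries, Subgroup.map_eq_bot_iff_of_injective _
        B.subtype_injective] at hBk
    exact hBk
  · have h3 : Nat.card B * B.index = Nat.card G := Subgroup.card_mul_index B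
    rw [hm, ht, hG, ← pow_add] at h3
    exact Nat.pow_right_injective hp.two_le h3

end RKT
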