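import Mathlib
import Pool.Agent.Helper82.RK.FinalOfStage
import Pool.Agent.Helper82.RK.RedZ
import Pool.Agent.Helper32.RK.End4
import Pool.Agent.Helper32.RK.Scales

/-! Project RK (MP_aa96c4_al): the detection hypothesis from the final functional. -/

namespace RKT

open RK43
open RKC2 (PP Cj PN rj)
open Pool.Agent.Helper27.BE Pool.Agent.Helper60.RK
open Pool.Agent.Helper32.RK (Det DetHyp scales)

lemma b0_le' {j j' : ℕ} (hj : 2 ≤ j) (hjj : 2 * j ≤ j') (h16 : 16 ≤ j) : b0 j j' ≤ j' := by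
  have h1 : (j' - j) / j ≤ (j' - j) / 2 := Nat.div_le_div_left hj (by norm_num)
  unfold b0
  generalize (j' - j) / j = q at *
  omega

lemma kap_le' {p : ℕ} {js : ℕ → ℕ} {s : ℕ} (h0 : 16 ≤ js 0)
    (hjs : ∀ i < s, 2 * js i ≤ js (i + 1)) (i : ℕ) (hi : i ≤ s) :
    16 ≤ js i ∧ kap p js i ≤ p ^ 3 * js i := by
  induction i with
  | zero =>
    refine ⟨h0, ?_⟩
    rw [kap]
    exact Nat.le_mul_of_pos_right _ (by omega)
  | succ i ih =>
    obtain ⟨h1, -⟩ := ih (by omega)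
    have h2 := hjs i (by omega)
    refine ⟨by omega, ?_⟩
    rw [kap]
    refine max_le (Nat.le_mul_of_pos_right _ (by omega)) ?_
    have h3 : p ≤ p ^ 3 := Nat.le_self_pow (by norm_num) p
    exact Nat.mul_le_mul h3 (b0_le' (by omega) h2 h1)

/-- the bound `R` of a stage. -/
lemma RR_le {p k κ j j' : ℕ} (hp : 2 ≤ p) (hk : 1 ≤ k) (hj : 16 ≤ j) (hjj : 2 * j ≤ j')
    (hκ : κ ≤ p ^ 3 * j) : RR p k κ j j' ≤ p ^ 10 * j' ^ 4 * p ^ j * k := by
  have hb := b0_le' (j := j) (j' := j') (by omega) hjj hj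
  have hH : 1 ≤ p ^ j * k := Nat.mul_pos (pow_pos (by omega) j) hk
  have h1 : 1 + (j' - j + 1) * p ≤ 2 * (j' * p) := by
    have : (j' - j + 1) * p ≤ j' * p := Nat.mul_le_mul_right _ (by omega)
    have h2 : 1 ≤ j' * p := Nat.mul_pos (by omega) (by omega)
    omega
  have h2 : b0 j j' * (1 + (j' - j + 1) * p) ≤ 2 * (p ^ 3 * j' ^ 2) := by
    calc b0 j j' * (1 + (j' - j + 1) * p) ≤ j' * (2 * (j' * p)) := Nat.mul_le_mul hb h1
      _ = 2 * (p * j' ^ 2) := by ring
      _ ≤ 2 * (p ^ 3 * j' ^ 2) := Nat.mul_le_mul_left _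
          (Nat.mul_le_mul_right _ (Nat.le_self_pow (by norm_num) p))
  have h3 : (j' - j + 4) * p ≤ p ^ 3 * j' ^ 2 := by
    calc (j' - j + 4) * p ≤ j' * p := Nat.mul_le_mul_right _ (by omega)
      _ = p * j' := by ring
      _ ≤ p ^ 3 * j' ^ 2 := Nat.mul_le_mul (Nat.le_self_pow (by norm_num) p)
          (Nat.le_self_pow (by norm_num) j')
  have h4 : κ ≤ p ^ 3 * j' ^ 2 := by
    refine hκ.trans (Nat.mul_le_mul_left _ ?_)
    calc j ≤ j' := by omega
      _ ≤ j' ^ 2 := Nat.le_self_pow (by norm_num) j'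
  have h5 : 1 ≤ p ^ 3 * j' ^ 2 := Nat.mul_pos (pow_pos (by omega) 3) (pow_pos (by omega) 2)
  have h6 : 5 ≤ p ^ 7 * j' ^ 2 := by
    have : 2 ^ 7 ≤ p ^ 7 := Nat.pow_le_pow_left hp 7
    have h7 : 1 ≤ j' ^ 2 := Nat.one_le_pow _ _ (by omega)
    nlinarith
  unfold RR HH
  calc (b0 j j' * (1 + (j' - j + 1) * p) + (j' - j + 4) * p + κ) * (p ^ j * k) + 1 ≤
      (2 * (p ^ 3 * j' ^ 2) + p ^ 3 * j' ^ 2 + p ^ 3 * j' ^ 2) * (p ^ j * k) +
        (p ^ 3 * j' ^ 2) * (p ^ j * k) := by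
          refine Nat.add_le_add (Nat.mul_le_mul_right _ (by omega)) (Nat.mul_pos h5 hH)
    _ = 5 * ((p ^ 3 * j' ^ 2) * (p ^ j * k)) := by ring
    _ ≤ (p ^ 7 * j' ^ 2) * ((p ^ 3 * j' ^ 2) * (p ^ j * k)) := Nat.mul_le_mul_right _ h6
    _ = p ^ 10 * j' ^ 4 * p ^ j * k := by ring

/-- **detection hypothesis** from the final functional. -/
theorem detHyp {p : ℕ} [hp : Fact p.Prime] (hF : FinalThm p) : DetHyp p := by
  intro δ hδ
  obtain ⟨η, hη, hη1, n₁, hscale⟩ := scales p hp.out.two_le 0 δ hδ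
  set δ' : ℝ := min δ η / 4 with hδ'
  have hmin : 0 < min δ η := lt_min hδ hη
  have hδ'0 : 0 < δ' := by positivity
  have hδ'1 : δ' ≤ δ := by
    have := min_le_left δ η
    have h2 : δ' ≤ min δ η := by rw [hδ']; linarith
    linarith
  have hδ'2 : δ' ≤ η / 4 := by
    have := min_le_right δ η
    rw [hδ']; linarith
  obtain ⟨n₂, hred⟩ := redZ hp.out δ' hδ'0
  refine ⟨max n₂ (2 * n₁ + 4), fun n hn G _ hG z hz hzo => ?_⟩
  have hn2 : n₂ ≤ n := (le_max_left _ _).trans hn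
  have hn4 : 2 * n₁ + 4 ≤ n := (le_max_right _ _).trans hn
  have hfinG : Finite G :=
    Nat.finite_of_card_ne_zero (by rw [hG]; exact pow_ne_zero _ hp.out.ne_zero)
  obtain ⟨B, hzB, t, k, m, hBt, htn, hk1, hkn, hBk, hBm, hmt⟩ := hred n hn2 G hG z hz
  have hnR : (0 : ℝ) ≤ n := Nat.cast_nonneg n
  have hmtR : (m : ℝ) + t = n := by exact_mod_cast hmt
  have htn' : (t : ℝ) ≤ n / 4 := by
    have : δ' * n ≤ η / 4 * n := mul_le_mul_of_nonneg_right hδ'2 hnR
    have h2 : η / 4 * n ≤ 1 / 4 * n := mul_le_mul_of_nonneg_right (by linarith) hnR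
    linarith
  have hmn : (3 / 4 : ℝ) * n ≤ m := by linarith
  have hmn1 : n₁ ≤ m ∧ 2 ≤ m := by
    have h1 : ((2 * n₁ + 4 : ℕ) : ℝ) ≤ n := by exact_mod_cast hn4
    push_cast at h1
    constructor
    · have : (n₁ : ℝ) ≤ m := by
        have : (0 : ℝ) ≤ n₁ := Nat.cast_nonneg _
        linarith
      exact_mod_cast this
    · have : (2 : ℝ) ≤ m := by
        have : (0 : ℝ) ≤ n₁ := Nat.cast_nonneg _
        linarith
      exact_mod_cast this
  have hkm : (k : ℝ) ≤ η * m := by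
    have h1 : δ' * n ≤ η / 4 * n := mul_le_mul_of_nonneg_right hδ'2 hnR
    have h2 : η * ((3 / 4 : ℝ) * n) ≤ η * m := mul_le_mul_of_nonneg_left hmn hη.le
    have h3 : η / 4 * n ≤ η * ((3 / 4 : ℝ) * n) := by nlinarith [mul_nonneg hη.le hnR]
    linarith
  have hkm' : k ≤ m := by
    have h1 : (k : ℝ) ≤ m := by
      have : η * m ≤ 1 * m := mul_le_mul_of_nonneg_right hη1 (Nat.cast_nonneg m)
      linarith
    exact_mod_cast h1
  have hBp : IsPGroup p B := IsPGroup.of_card hBm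
  have S := RKC2.PN_PP (G := B) hBp hk1 hBk
  obtain ⟨s, js, β, mm, hs1, hj16, -, hjs, hj2, hβ, hρ⟩ := hscale m hmn1.1 k hk1 hkm
    (fun j => rj p (PP p B k) j) (fun J M hJ hM => S.exists_good hBp hBm hJ hM)
  have hzc : (⟨z, hzB⟩ : B) ∈ Subgroup.center B := by
    rw [Subgroup.mem_center_iff]
    intro g
    exact Subtype.ext (Subgroup.mem_center_iff.1 hz g)
  have hz1 : (⟨z, hzB⟩ : B) ≠ 1 := by
    intro h
    have h2 : z = 1 := congrArg Subtype.val h
    rw [h2, orderOf_one] at hzo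
    exact hp.out.one_lt.ne hzo
  obtain ⟨ρ, hρ0, hρ1, N, hN, hdet⟩ := final_det (G := B) hF hBm hk1 hBk hkm' hj16 hj2 hjs hβ
    hzc hz1
  have hpR : (1 : ℝ) ≤ p := by exact_mod_cast hp.out.one_lt.le
  have hρnn : ∀ i, i ≤ s → 0 ≤ ρ i := by
    intro i
    induction i with
    | zero => intro _; rw [hρ0]; positivity
    | succ i ih =>
      intro hi
      rw [hρ1 i (by omega)]
      have := ih (by omega)
      positivity
  have hfin := hρ ρ (by
      rw [hρ0, HH]
      apply le_of_eq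
      congr 4
      rw [pow_add]
      ring) (by
      intro i hi
      rw [hρ1 i hi]
      have h1 := kap_le' (p := p) hj16 hj2 i hi.le
      have h2 := hj2 i hi
      have h3 := RR_le hp.out.two_le hk1 h1.1 h2 h1.2
      have h4 : ((RR p k (kap p js i) (js i) (js (i + 1)) : ℕ) : ℝ) ≤
          ((p ^ 10 * js (i + 1) ^ 4 * p ^ js i * k : ℕ) : ℝ) := by exact_mod_cast h3
      apply mul_le_mul
      · apply Real.rpow_le_rpow_of_exponent_le hpR
        have h5 := mul_le_mul_of_nonneg_left h4 (hβ i hi).1.le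
        linarith
      · apply mul_le_mul_of_nonneg_left _ (hρnn i hi.le)
        apply pow_le_pow_right₀
        · push_cast
          have : (0 : ℝ) ≤ m := Nat.cast_nonneg m
          linarith
        · have h6 : (js (i + 1) - js i) / js i ≤ js (i + 1) / js i :=
            Nat.div_le_div_right (Nat.sub_le _ _)
          unfold b0
          generalize (js (i + 1) - js i) / js i = q at *
          generalize js (i + 1) / js i = q' at *
          omega
      · have := hρnn i hi.le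
        positivity
      · positivity)
  refine ⟨B, hzB, t, N * (2 * m + 3), hBt, ?_, ?_, hdet⟩
  · exact htn.trans (mul_le_mul_of_nonneg_right hδ'1 hnR)
  · have h1 : ((2 * m + 3 : ℕ) : ℝ) ≤ (m : ℝ) ^ 10 := by
      have h2 : 2 * m + 3 ≤ m ^ 10 := by
        have h3 : 2 ^ 9 ≤ m ^ 9 := Nat.pow_le_pow_left hmn1.2 9
        have h4 : m ^ 10 = m ^ 9 * m := pow_succ m 9
        have h5 : 2 ^ 9 * m ≤ m ^ 9 * m := Nat.mul_le_mul_right _ h3
        have h6 := hmn1.2
        rw [h4]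
        omega
      exact_mod_cast h2
    have h2 : ((N * (2 * m + 3) : ℕ) : ℝ) ≤ (m : ℝ) ^ 10 * ρ s := by
      rw [Nat.cast_mul, mul_comm]
      exact mul_le_mul h1 hN (Nat.cast_nonneg _) (by positivity)
    refine h2.trans (hfin.trans (Real.exp_le_exp.2 ?_))
    have : (m : ℝ) ≤ n := by
      have : (0 : ℝ) ≤ t := Nat.cast_nonneg t
      linarith
    exact mul_le_mul_of_nonneg_left this hδ.le

/-- the growth statement from the stage and base theorems. -/
theorem main {p : ℕ} [hp : Fact p.Prime] (hS : StageThm p) (hB : BaseThm p) (f : ℕ → ℕ)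
    (hf : ∀ n : ℕ, IsLeast
        {m : ℕ | ∃ (U : Type) (_ : Group U), Nat.card U = p ^ m ∧
          ∀ (P : Type) [Group P], Nat.card P = p ^ n →
            ∃ φ : P →* U, Function.Injective φ} (f n)) (c : ℝ) (hc : 1 < c) :
    Filter.Tendsto (fun n : ℕ => (f n : ℝ) / c ^ n) Filter.atTop (nhds 0) :=
  Pool.Agent.Helper32.RK.main_of_detHyp hp.out (detHyp (finalThm hS hB)) f hf c hc

end RKT
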